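import Mathlib

/-!
# Generic levels: zero sets of polynomials are meagre
-/

set_option autoImplicit false

open Set Filter Topology

namespace Pool.Agent.Q233.GLV

theorem alg_meagre {n : ℕ} (P : MvPolynomial (Fin n) ℝ) (hP : P ≠ 0) :
    IsMeagre {s : Fin n → ℝ | MvPolynomial.eval s P = 0} := by
  have hc : IsClosed {s : Fin n → ℝ | MvPolynomial.eval s P = 0} :=
    isClosed_eq (MvPolynomial.continuous_eval P) continuous_const
  have hi : interior {s : Fin n → ℝ | MvPolynomial.eval s P = 0} = ∅ := by
    by_contra hne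
    obtain ⟨s, hs⟩ := nonempty_iff_ne_empty.2 hne
    obtain ⟨ε, hε, hball⟩ := Metric.mem_nhds_iff.1 (mem_interior_iff_mem_nhds.1 hs)
    refine hP (MvPolynomial.funext_set (fun i => Metric.ball (s i) ε) (fun i => ?_) fun x hx => ?_)
    · rw [Real.ball_eq_Ioo]
      exact Ioo_infinite (by linarith)
    · rw [map_zero]
      exact hball (by rw [ball_pi _ hε]; exact hx)
  exact (hc.isNowhereDense_iff.2 hi).isMeagre

theorem alg_meagre' (K : Subfield ℝ) {n : ℕ} (P : MvPolynomial (Fin n) K) (hP : P ≠ 0) :
    IsMeagre {s : Fin n → ℝ | MvPolynomial.aeval s P = 0} := by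
  have h1 : MvPolynomial.map (algebraMap K ℝ) P ≠ 0 := by
    intro h
    exact hP (MvPolynomial.map_injective _ (algebraMap K ℝ).injective (by rw [h, map_zero]))
  have h2 := alg_meagre _ h1
  have h3 : {s : Fin n → ℝ | MvPolynomial.aeval s P = 0} =
      {s : Fin n → ℝ | MvPolynomial.eval s (MvPolynomial.map (algebraMap K ℝ) P) = 0} := by
    ext s
    simp only [mem_setOf_eq, MvPolynomial.aeval_def, MvPolynomial.eval_map]
  rw [h3]
  exact h2

theorem poly_countable (K : Subfield ℝ) [Countable K] (n : ℕ) :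
    Countable (MvPolynomial (Fin n) K) := by
  rw [← Cardinal.mk_le_aleph0_iff]
  refine MvPolynomial.cardinalMk_le_max.trans ?_
  exact max_le (max_le (Cardinal.mk_le_aleph0_iff.2 inferInstance)
    (Cardinal.mk_le_aleph0_iff.2 inferInstance)) le_rfl

/-- algebraic independence from the polynomials in finitely many variables -/
theorem alg_ind (K : Subfield ℝ) {σ : Type} (x : σ → ℝ) (h : ∀ (n : ℕ) (f : Fin n → σ),
    Function.Injective f → ∀ P : MvPolynomial (Fin n) K, P ≠ 0 →
      MvPolynomial.aeval (fun l => x (f l)) P ≠ 0) : AlgebraicIndependent K x := by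
  rw [algebraicIndependent_iff]
  intro p hp
  obtain ⟨n, f, hf, q, rfl⟩ := MvPolynomial.exists_fin_rename p
  by_contra hne
  refine h n f hf q (fun h0 => hne (by rw [h0, map_zero])) ?_
  rw [MvPolynomial.aeval_rename] at hp
  exact hp

end Pool.Agent.Q233.GLV
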