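import Pool.Agent.Q233.GLV.Osc4
import Pool.Agent.Q233.GLV.Pt3

/-!
# Generic levels: the oscillating weights separate the functions
-/

set_option autoImplicit false
set_option linter.unusedSectionVars false

open Set Filter Topology MeasureTheory
open scoped ContDiff Manifold
open Pool.Agent.Y262.QE Pool.Agent.Y264.QR Pool.Agent.Y319.QR Q101.QG

noncomputable section

namespace Pool.Agent.Q233.GLV

variable {M : Type} [MetricSpace M] [CompactSpace M] [MeasurableSpace M] [BorelSpace M]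
  {μ : Measure M} [IsFiniteMeasure μ] {D : Data M}

/-- a smooth cutoff function -/
lemma cutoff {K L : Set ℂ} (hK : IsCompact K) (hKL : K ⊆ interior L) :
    ∃ θ : ℂ → ℝ, ContDiff ℝ ∞ θ ∧ (∀ z ∈ K, θ z = 1) ∧ ∀ z, z ∉ L → θ z = 0 := by
  obtain ⟨f, hf1, hf2, -⟩ := exists_contMDiffMap_one_nhds_of_subset_interior 𝓘(ℝ, ℂ) (n := ⊤)
    hK.isClosed hKL
  refine ⟨f, f.contMDiff.contDiff, fun z hz => ?_, hf2⟩
  exact (hf1.filter_mono (nhds_le_nhdsSet hz)).self_of_nhds

/-- the limit functionals -/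
def Fam (D : Data M) : Set ((M → ℝ) → ℝ) :=
  {Ω | ∃ (i : Fin D.N) (K : Set ℂ) (a : ℂ → ℝ), IsCompact K ∧ K ⊆ D.T i ∧ ContDiff ℝ ∞ a ∧
    (∀ z, z ∉ K → a z = 0) ∧ Ω = fun g => 1 / 2 * ∫ z in K, g (D.ψ i z) * (a z) ^ 2}

theorem fam_osc (hD : D.IsSurf μ)
    (hiso : ∀ i, ∀ z ∈ D.T i, ∃ c : ℝ, ∀ v, ‖D.A i z v‖ = c * ‖v‖) {i : HF D μ →L[ℝ] Lp ℝ 2 μ}
    {a : HF D μ →L[ℝ] HF D μ →L[ℝ] ℝ} {b : C(M, ℝ) → HF D μ →L[ℝ] HF D μ →L[ℝ] ℝ}
    (hS : Sf μ i a) (hi : ∀ v, i v = v.1.fst) (ha : ∀ u v, a u v = inner ℝ u.1.snd v.1.snd)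
    (hB : IsB μ i b) : ∀ Ω ∈ Fam D, ∃ h C w, Osc μ i a b Ω h C w := by
  rintro Ω ⟨l, K, α, hK, hKT, hα, h0, rfl⟩
  obtain ⟨F, h, C, H0, H1, H2, H3, H4, H5, H6⟩ := osc hD (hiso l) hK hKT hα h0
  obtain ⟨q1, q2, q3, w, q4, q5, q6⟩ := osc_main hD hS hi ha hB H0 H1 H2 H3 H4 H5
    (Ω := fun g => 1 / 2 * ∫ z in K, g (D.ψ l z) * (α z) ^ 2) H6
  exact ⟨h, C, w, H0, q1, q2, q3, q4, q5, q6⟩

/-- the functionals separate -/
theorem fam_sep (hD : D.IsSurf μ) {Y : M → ℝ} (hYm : StronglyMeasurable Y) (hY : Integrable Y μ)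
    (h0 : ∀ Ω ∈ Fam D, Ω Y = 0) : Y =ᵐ[μ] 0 := by
  have hchart : ∀ i : Fin D.N, ∀ᵐ z : ℂ, z ∈ D.T i → Y (D.ψ i z) = 0 := by
    intro i
    refine (hD.openT i).ae_eq_zero_of_integral_contDiff_smul_eq_zero ?_ ?_
    · rw [locallyIntegrableOn_iff (hD.openT i).isLocallyClosed]
      intro K hKT hK
      exact integ_K hD hK hKT hYm hY
    · intro g hg hgc hgT
      obtain ⟨L, hL, hKL, hLT⟩ := exists_compact_between hgc.isCompact (hD.openT i) hgT
      obtain ⟨θ, hθ, hθ1, hθ0⟩ := cutoff hgc.isCompact hKL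
      have hLm : MeasurableSet L := hL.isClosed.measurableSet
      have hg0 : ∀ z, z ∉ L → g z = 0 := fun z hz => by
        refine image_eq_zero_of_notMem_tsupport fun h => hz (interior_subset (hKL h))
      have hYK := integ_K hD hL hLT hYm hY
      have hint : ∀ f : ℂ → ℝ, Continuous f → IntegrableOn (fun z => Y (D.ψ i z) * f z) L := by
        intro f hf
        obtain ⟨C, hC⟩ := hL.exists_bound_of_continuousOn hf.continuousOn
        refine Integrable.mul_bdd (c := C) hYK hf.aestronglyMeasurable ?_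
        filter_upwards [ae_restrict_mem hLm] with z hz
        exact hC z hz
      have hsq : ∀ f : ℂ → ℝ, ContDiff ℝ ∞ f → (∀ z, z ∉ L → f z = 0) →
          ∫ z in L, Y (D.ψ i z) * (f z) ^ 2 = 0 := by
        intro f hf hf0
        have h1 := h0 _ ⟨i, L, f, hL, hLT, hf, hf0, rfl⟩
        linarith
      have e1 := hsq (fun z => g z + θ z) (hg.add hθ) (fun z hz => by
        rw [hg0 z hz, hθ0 z hz, add_zero])
      have e2 := hsq g hg hg0
      have e3 := hsq θ hθ hθ0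
      have e4 : ∫ z in L, Y (D.ψ i z) * (g z * θ z) = 0 := by
        have h1 : ∀ z, Y (D.ψ i z) * (g z * θ z) = 1 / 2 * (Y (D.ψ i z) * (g z + θ z) ^ 2 -
            Y (D.ψ i z) * (g z) ^ 2 - Y (D.ψ i z) * (θ z) ^ 2) := fun z => by ring
        simp only [h1]
        have i1 := hint (fun z => (g z + θ z) ^ 2) ((hg.continuous.add hθ.continuous).pow 2)
        have i2 := hint (fun z => (g z) ^ 2) (hg.continuous.pow 2)
        have i3 := hint (fun z => (θ z) ^ 2) (hθ.continuous.pow 2)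
        have i12 : IntegrableOn (fun z => Y (D.ψ i z) * (g z + θ z) ^ 2 -
            Y (D.ψ i z) * (g z) ^ 2) L := i1.sub i2
        rw [integral_const_mul, integral_sub i12 i3, integral_sub i1 i2, e1, e2, e3]
        norm_num
      have e5 : ∫ z, g z • Y (D.ψ i z) = ∫ z in L, Y (D.ψ i z) * (g z * θ z) := by
        rw [← setIntegral_eq_integral_of_forall_compl_eq_zero (s := L) (fun z hz => by
          rw [hg0 z hz, zero_smul])]
        refine setIntegral_congr_fun hLm fun z _ => ?_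
        simp only [smul_eq_mul]
        by_cases hz : z ∈ tsupport g
        · rw [hθ1 z hz]; ring
        · rw [image_eq_zero_of_notMem_tsupport hz]; ring
      rw [e5, e4]
  have hU : ∀ i : Fin D.N, ∀ᵐ x ∂(μ.restrict (D.U i)), Y x = 0 := by
    intro i
    have h1 := (Pool.Agent.Y960.QE.int_chart M μ D hD i).1 (fun x => ‖Y x‖ₑ) hYm.measurable.enorm
    have h2 : ∫⁻ z in D.T i, ‖Y (D.ψ i z)‖ₑ * ENNReal.ofReal |(D.A i z).det| = 0 := by
      have h3 : ∫⁻ z in D.T i, ‖Y (D.ψ i z)‖ₑ * ENNReal.ofReal |(D.A i z).det| =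
          ∫⁻ z in D.T i, 0 := by
        refine lintegral_congr_ae ?_
        rw [Filter.EventuallyEq, ae_restrict_iff' (hD.openT i).measurableSet]
        filter_upwards [hchart i] with z hz hzT
        rw [hz hzT]
        simp
      rw [h3, lintegral_zero]
    rw [h2] at h1
    have h3 := (lintegral_eq_zero_iff hYm.measurable.enorm).1 h1
    filter_upwards [h3] with x hx
    simpa using hx
  have hall : ∀ᵐ x ∂μ, ∀ i : Fin D.N, x ∈ D.U i → Y x = 0 := by
    rw [ae_all_iff]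
    intro i
    exact (ae_restrict_iff' (hD.openU i).measurableSet).1 (hU i)
  filter_upwards [hall] with x hx
  obtain ⟨i, hi⟩ := hD.cover x
  exact hx i hi

theorem fam_tot (hD : D.IsSurf μ) {i : HF D μ →L[ℝ] Lp ℝ 2 μ} (φ : C(M, ℝ)) (e : ℕ → HF D μ)
    (c : ℕ → ℝ) (J' : Finset ℕ)
    (h0 : ∀ Ω ∈ Fam D, ∑ j ∈ J', c j * Ω (fun x => (i (e j) x) ^ 2) = 0) (h : C(M, ℝ)) :
    ∑ j ∈ J', c j * kap μ i h φ (e j) = 0 := by
  have hsqm : ∀ j, StronglyMeasurable fun x => (i (e j) x) ^ 2 := fun j =>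
    (Lp.stronglyMeasurable (i (e j))).pow 2
  have hsqi : ∀ j, Integrable (fun x => (i (e j) x) ^ 2) μ := fun j =>
    (Lp.memLp (i (e j))).integrable_sq
  have hYm : StronglyMeasurable fun x => ∑ j ∈ J', c j * (i (e j) x) ^ 2 :=
    Finset.stronglyMeasurable_fun_sum J' fun j _ => (hsqm j).const_mul (c j)
  have hYi : Integrable (fun x => ∑ j ∈ J', c j * (i (e j) x) ^ 2) μ :=
    integrable_finsetSum _ fun j _ => (hsqi j).const_mul (c j)
  have h1 := fam_sep hD hYm hYi (by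
    intro Ω hΩ
    rw [← h0 Ω hΩ]
    obtain ⟨l, K, α, hK, hKT, hα, hα0, rfl⟩ := hΩ
    simp only
    have hKm : MeasurableSet K := hK.isClosed.measurableSet
    have hint : ∀ j, IntegrableOn (fun z => c j * ((i (e j) (D.ψ l z)) ^ 2 * (α z) ^ 2)) K := by
      intro j
      obtain ⟨C, hC⟩ := hK.exists_bound_of_continuousOn (hα.continuous.pow 2).continuousOn
      refine Integrable.const_mul ?_ _
      refine Integrable.mul_bdd (c := C) (integ_K hD hK hKT (hsqm j) (hsqi j))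
        (hα.continuous.pow 2).aestronglyMeasurable ?_
      filter_upwards [ae_restrict_mem hKm] with z hz
      exact hC z hz
    have h2 : ∀ z, (∑ j ∈ J', c j * (i (e j) (D.ψ l z)) ^ 2) * (α z) ^ 2 =
        ∑ j ∈ J', c j * ((i (e j) (D.ψ l z)) ^ 2 * (α z) ^ 2) := by
      intro z
      rw [Finset.sum_mul]
      exact Finset.sum_congr rfl fun j _ => by ring
    simp only [h2]
    rw [integral_finsetSum _ fun j _ => hint j, Finset.mul_sum]
    refine Finset.sum_congr rfl fun j _ => ?_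
    rw [integral_const_mul]
    ring)
  have hsum : ∑ j ∈ J', c j * kap μ i h φ (e j) =
      ∫ x, h x * (Real.exp (φ x) * ∑ j ∈ J', c j * (i (e j) x) ^ 2) ∂μ := by
    have h2 : ∀ x, h x * (Real.exp (φ x) * ∑ j ∈ J', c j * (i (e j) x) ^ 2) =
        ∑ j ∈ J', c j * (h x * (Real.exp (φ x) * (i (e j) x) ^ 2)) := by
      intro x
      rw [Finset.mul_sum, Finset.mul_sum]
      exact Finset.sum_congr rfl fun j _ => by ring
    simp only [h2]
    rw [integral_finsetSum]
    · refine Finset.sum_congr rfl fun j _ => ?_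
      rw [integral_const_mul]
      rfl
    · intro j _
      refine Integrable.const_mul ?_ _
      exact RSP.cint μ h (RSP.cint μ ⟨fun x => Real.exp (φ x),
        Real.continuous_exp.comp φ.continuous⟩ (hsqi j))
  rw [hsum]
  refine integral_eq_zero_of_ae ?_
  filter_upwards [h1] with x hx
  simp only [Pi.zero_apply] at hx ⊢
  rw [hx]
  ring

end Pool.Agent.Q233.GLV
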