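import Pool.Agent.Q233.GLV.Gen

/-!
# Generic levels: the forms which belong to continuous functions
-/

set_option autoImplicit false
set_option linter.unusedSectionVars false

open Set Filter Topology MeasureTheory
open Pool.Agent.Y262.QE Pool.Agent.Y264.QR Pool.Agent.Y319.QR Q101.QG

noncomputable section

namespace Pool.Agent.Q233.GLV

section lp

variable {M : Type} [MeasurableSpace M] {μ : Measure M}

/-- a bounded weight in an inner product of `L²` -/
lemma wbd {E : Type} [NormedAddCommGroup E] [InnerProductSpace ℝ E] {f : M → ℝ}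
    (hf : AEStronglyMeasurable f μ) {c : ℝ} (hc : 0 ≤ c) (hfc : ∀ᵐ x ∂μ, |f x| ≤ c)
    (U W : Lp E 2 μ) : Integrable (fun x => f x * inner ℝ (U x) (W x)) μ ∧
      |∫ x, f x * inner ℝ (U x) (W x) ∂μ| ≤ c * ‖U‖ * ‖W‖ := by
  have hmem : MemLp (fun x => f x • (U : M → E) x) 2 μ := by
    refine (Lp.memLp U).of_le_mul (c := c) (hf.smul (Lp.aestronglyMeasurable U)) ?_
    filter_upwards [hfc] with x hx
    rw [norm_smul, Real.norm_eq_abs]
    exact mul_le_mul_of_nonneg_right hx (norm_nonneg _)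
  have hn : ‖hmem.toLp _‖ ≤ c * ‖U‖ := by
    refine Lp.norm_le_mul_norm_of_ae_le_mul ?_
    filter_upwards [hmem.coeFn_toLp, hfc] with x hx h2
    rw [hx, norm_smul, Real.norm_eq_abs]
    exact mul_le_mul_of_nonneg_right h2 (norm_nonneg _)
  have e1 : (fun x => inner ℝ ((hmem.toLp _ : Lp E 2 μ) x) (W x)) =ᵐ[μ]
      fun x => f x * inner ℝ (U x) (W x) := by
    filter_upwards [hmem.coeFn_toLp] with x hx
    rw [hx, real_inner_smul_left]
  constructor
  · exact (L2.integrable_inner (𝕜 := ℝ) (hmem.toLp _) W).congr e1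
  · rw [← integral_congr_ae e1, ← L2.inner_def, ← Real.norm_eq_abs]
    refine (norm_inner_le_norm _ _).trans ?_
    exact mul_le_mul_of_nonneg_right hn (norm_nonneg _)

/-- a bounded vector field between `L²` functions and `L²` fields -/
lemma qbd {E : Type} [NormedAddCommGroup E] [InnerProductSpace ℝ E] {X : M → E}
    (hX : AEStronglyMeasurable X μ) {c : ℝ} (hc : 0 ≤ c) (hXc : ∀ x, ‖X x‖ ≤ c)
    (u : Lp ℝ 2 μ) (W : Lp E 2 μ) : Integrable (fun x => (u : M → ℝ) x * inner ℝ (X x) (W x)) μ ∧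
      |∫ x, (u : M → ℝ) x * inner ℝ (X x) (W x) ∂μ| ≤ c * ‖u‖ * ‖W‖ := by
  have hmem : MemLp (fun x => (u : M → ℝ) x • X x) 2 μ := by
    refine (Lp.memLp u).of_le_mul (c := c) ((Lp.aestronglyMeasurable u).smul hX) ?_
    refine Eventually.of_forall fun x => ?_
    rw [norm_smul, mul_comm]
    exact mul_le_mul_of_nonneg_right (hXc x) (norm_nonneg _)
  have hn : ‖hmem.toLp _‖ ≤ c * ‖u‖ := by
    refine Lp.norm_le_mul_norm_of_ae_le_mul ?_
    filter_upwards [hmem.coeFn_toLp] with x hx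
    rw [hx, norm_smul, mul_comm]
    exact mul_le_mul_of_nonneg_right (hXc x) (norm_nonneg _)
  have e1 : (fun x => inner ℝ ((hmem.toLp _ : Lp E 2 μ) x) (W x)) =ᵐ[μ]
      fun x => (u : M → ℝ) x * inner ℝ (X x) (W x) := by
    filter_upwards [hmem.coeFn_toLp] with x hx
    rw [hx, real_inner_smul_left]
  constructor
  · exact (L2.integrable_inner (𝕜 := ℝ) (hmem.toLp _) W).congr e1
  · rw [← integral_congr_ae e1, ← L2.inner_def, ← Real.norm_eq_abs]
    refine (norm_inner_le_norm _ _).trans ?_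
    exact mul_le_mul_of_nonneg_right hn (norm_nonneg _)

end lp

variable {M : Type} [MetricSpace M] [CompactSpace M] [MeasurableSpace M] [BorelSpace M]
  {μ : Measure M} [IsFiniteMeasure μ] {H : Type} [NormedAddCommGroup H] [InnerProductSpace ℝ H]
  {i : H →L[ℝ] Lp ℝ 2 μ} {a : H →L[ℝ] H →L[ℝ] ℝ} {b : C(M, ℝ) → H →L[ℝ] H →L[ℝ] ℝ}

/-- the form of a continuous function -/
def kf (b : C(M, ℝ) → H →L[ℝ] H →L[ℝ] ℝ) (f : C(M, ℝ)) : H →L[ℝ] H →L[ℝ] ℝ :=
  b ⟨fun x => Real.log (f x + ‖f‖ + 1), by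
    refine Continuous.log (by fun_prop) fun x => ?_
    have := (abs_le.1 (f.norm_coe_le_norm x)).1
    have h1 : 0 < f x + ‖f‖ + 1 := by linarith
    exact h1.ne'⟩ - b ⟨fun _ => Real.log (‖f‖ + 1), continuous_const⟩

lemma kf_apply (hB : IsB μ i b) (f : C(M, ℝ)) (u w : H) :
    kf b f u w = ∫ x, f x * (i u x * i w x) ∂μ := by
  unfold kf
  rw [_root_.sub_apply, _root_.sub_apply, hB, hB, ← integral_sub
    (RSP.cross_int _ u w) (RSP.cross_int _ u w)]
  refine integral_congr_ae (Eventually.of_forall fun x => ?_)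
  simp only [ContinuousMap.coe_mk]
  have := (abs_le.1 (f.norm_coe_le_norm x)).1
  rw [Real.exp_log (by linarith), Real.exp_log (by positivity)]
  ring

lemma i_le (hS : Sf μ i a) (v : H) : ‖i v‖ ≤ ‖v‖ := by
  have h1 := hS.nm v
  have h2 := hS.na v
  exact abs_le_of_sq_le_sq' (by linarith) (norm_nonneg _) |>.2

lemma kf_bd (hS : Sf μ i a) (hB : IsB μ i b) {f : C(M, ℝ)} {c : ℝ} (hc : 0 ≤ c)
    (hf : ∀ x, |f x| ≤ c) (u w : H) : |kf b f u w| ≤ c * ‖u‖ * ‖w‖ := by
  have h1 := (wbd (μ := μ) f.continuous.aestronglyMeasurable hc (Eventually.of_forall hf)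
    (i u) (i w)).2
  have e1 : ∫ x, f x * inner ℝ ((i u : M → ℝ) x) ((i w : M → ℝ) x) ∂μ = kf b f u w := by
    rw [kf_apply hB]
    refine integral_congr_ae (Eventually.of_forall fun x => ?_)
    simp only [RCLike.inner_apply, conj_trivial]
    ring
  rw [e1] at h1
  refine h1.trans ?_
  have h2 := i_le hS u
  have h3 := i_le hS w
  exact mul_le_mul (mul_le_mul_of_nonneg_left h2 hc) h3 (norm_nonneg _)
    (mul_nonneg hc (norm_nonneg _))

lemma kf_bd' (hS : Sf μ i a) (hB : IsB μ i b) (f : C(M, ℝ)) (u w : H) :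
    |kf b f u w| ≤ ‖f‖ * ‖u‖ * ‖w‖ :=
  kf_bd hS hB (norm_nonneg _) (fun x => f.norm_coe_le_norm x) u w

lemma kf_int (f : C(M, ℝ)) (u w : H) : Integrable (fun x => f x * (i u x * i w x)) μ :=
  RSP.cint μ f ((Lp.memLp (i u)).integrable_mul (Lp.memLp (i w)))

lemma kf_lin (hB : IsB μ i b) (f g : C(M, ℝ)) (c s : ℝ) (u w : H) :
    kf b (c • f + s • g) u w = c * kf b f u w + s * kf b g u w := by
  rw [kf_apply hB, kf_apply hB, kf_apply hB, ← integral_const_mul, ← integral_const_mul,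
    ← integral_add ((kf_int f u w).const_mul c) ((kf_int g u w).const_mul s)]
  refine integral_congr_ae (Eventually.of_forall fun x => ?_)
  simp only [ContinuousMap.add_apply, ContinuousMap.smul_apply, smul_eq_mul]
  ring

lemma kf_symm (hB : IsB μ i b) (f : C(M, ℝ)) (u w : H) : kf b f u w = kf b f w u := by
  rw [kf_apply hB, kf_apply hB]
  refine integral_congr_ae (Eventually.of_forall fun x => ?_)
  ring

/-- the exponential of a continuous function -/
def ex (φ : C(M, ℝ)) : C(M, ℝ) := ⟨fun x => Real.exp (φ x), Real.continuous_exp.comp φ.continuous⟩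

lemma kf_ex (hB : IsB μ i b) (φ : C(M, ℝ)) (u w : H) : kf b (ex φ) u w = b φ u w := by
  rw [kf_apply hB, hB]
  rfl

/-- the expansion of the form on a line -/
lemma form_exp (hS : Sf μ i a) (hB : IsB μ i b) (φ h : C(M, ℝ)) {t : ℝ} (ht : |t| * ‖h‖ ≤ 1)
    (u w : H) : |b (φ + t • h) u w - b φ u w - t * kf b (h * ex φ) u w| ≤
      (‖h‖ ^ 2 * ‖ex φ‖) * t ^ 2 * ‖u‖ * ‖w‖ := by
  have e1 : b (φ + t • h) u w - b φ u w - t * kf b (h * ex φ) u w =
      kf b (ex (φ + t • h) + (-1 : ℝ) • (ex φ + t • (h * ex φ))) u w := by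
    have h1 := kf_lin hB (ex (φ + t • h)) (ex φ + t • (h * ex φ)) 1 (-1) u w
    rw [one_smul] at h1
    have h2 := kf_lin hB (ex φ) (h * ex φ) 1 t u w
    rw [one_smul] at h2
    rw [h1, h2, kf_ex hB, kf_ex hB]
    ring
  rw [e1]
  refine kf_bd hS hB (by positivity) (fun x => ?_) u w
  have h3 : |t * h x| ≤ 1 := by
    rw [abs_mul]
    exact (mul_le_mul_of_nonneg_left (h.norm_coe_le_norm x) (abs_nonneg t)).trans ht
  have h4 := Real.abs_exp_sub_one_sub_id_le h3
  have e2 : (ex (φ + t • h) + (-1 : ℝ) • (ex φ + t • (h * ex φ))) x =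
      Real.exp (φ x) * (Real.exp (t * h x) - 1 - t * h x) := by
    simp only [ex, ContinuousMap.add_apply, ContinuousMap.smul_apply, ContinuousMap.mul_apply,
      ContinuousMap.coe_mk, smul_eq_mul, Real.exp_add]
    ring
  rw [e2, abs_mul, Real.abs_exp]
  have h5 : Real.exp (φ x) ≤ ‖ex φ‖ := (le_abs_self _).trans ((ex φ).norm_coe_le_norm x)
  have h6 : (t * h x) ^ 2 ≤ ‖h‖ ^ 2 * t ^ 2 := by
    rw [mul_pow, mul_comm]
    refine mul_le_mul_of_nonneg_right ?_ (sq_nonneg _)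
    exact sq_le_sq' (by linarith [(abs_le.1 (h.norm_coe_le_norm x)).1])
      (abs_le.1 (h.norm_coe_le_norm x)).2
  calc Real.exp (φ x) * |Real.exp (t * h x) - 1 - t * h x| ≤ ‖ex φ‖ * (‖h‖ ^ 2 * t ^ 2) :=
        mul_le_mul h5 (h4.trans h6) (abs_nonneg _) (norm_nonneg _)
    _ = ‖h‖ ^ 2 * ‖ex φ‖ * t ^ 2 := by ring

end Pool.Agent.Q233.GLV
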