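import Pool.Agent.Q233.GLV.Pair

/-!
# Generic levels: the theorem for surfaces
-/

set_option autoImplicit false

open Set Filter Topology MeasureTheory
open Pool.Agent.Y262.QE Pool.Agent.Y264.QR

noncomputable section

namespace Pool.Agent.Q233.GLV

variable {M : Type} [MetricSpace M] [CompactSpace M] [MeasurableSpace M] [BorelSpace M]
  [Nonempty M] (μ : Measure M) (D : Data M)

theorem ptop (hD : D.IsSurf μ) (B : Type) [AddCommGroup B] [Module ℝ B]
    [TopologicalSpace B] [IsTopologicalAddGroup B] [ContinuousSMul ℝ B] [BaireSpace B]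
    (ι : B →L[ℝ] C(M, ℝ)) (hι : DenseRange ι) :
    (∀ᶠ x in residual B, ∀ (u : ℕ → M → ℝ) (lam : ℕ → ℝ),
      EigBasis (D.conf fun y => Real.exp (ι x y)) (wm μ fun y => Real.exp (ι x y)) u lam →
      ∀ j, 0 < lam j → lam j < lam (j + 1)) ∧
    ∀ (q : ℕ) (J : Finset ℕ) (c : ℕ → ℝ), (∀ p, 0 ≤ c p) → ∀ N : Set ℝ, IsMeagre N →
      ∀ᶠ x in residual B, ∀ (u : ℕ → M → ℝ) (lam : ℕ → ℝ),
      EigBasis (D.conf fun y => Real.exp (ι x y)) (wm μ fun y => Real.exp (ι x y)) u lam →
      0 < (wm μ fun y => Real.exp (ι x y)).real univ * (lam q - ∑ p ∈ J, c p * lam p) →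
      (wm μ fun y => Real.exp (ι x y)).real univ * (lam q - ∑ p ∈ J, c p * lam p) ∉ N := by
  obtain ⟨hf, -⟩ := tFin M μ D hD
  haveI := hf
  haveI : CompleteSpace (HF D μ) := by
    unfold HF
    exact (Submodule.isClosed_topologicalClosure _).completeSpace_coe
  obtain ⟨i, a, hSf, hi, ha⟩ := tPackF M μ D hD inferInstance
  obtain ⟨b, hB, hF, hpos, hcmp, -⟩ := tFm M μ (HF D μ) i a hSf
  have hW := tWl M μ D hD inferInstance i a b hSf hi ha hB
  have hbr := fun φ u lam hu => tBr M μ D hD i a b hSf hi ha hB hF φ u lam hu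
  have hEv : ∀ φ (u : ℕ → M → ℝ) (lam : ℕ → ℝ),
      EigBasis (D.conf fun x => Real.exp (φ x)) (wm μ fun x => Real.exp (φ x)) u lam →
      ∀ j, lam j = Ev a (b φ) j := by
    intro φ u lam hu j
    obtain ⟨e', -, he'⟩ := hbr φ u lam hu
    exact (Pool.Agent.Y592.QE.mm _ a (b φ) (hF φ) e' lam he' j).symm
  constructor
  · filter_upwards [generic_same hSf hB hW B ι hι] with x hx u lam hu j hj
    obtain ⟨e', -, he'⟩ := hbr (ι x) u lam hu
    rcases (he'.mono (Nat.le_succ j)).lt_or_eq with h | h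
    · exact h
    · exact absurd (simple_of_same hSf hB hx he' (Nat.lt_succ_self j).ne h hj) id
  · intro q J c hc N hN
    filter_upwards [avoid hSf hB hW B ι hι
      (fun φ v lam hlam he δ hδ => RSP.nz hD i a b hi ha hB φ (hpos φ) v lam hlam he δ hδ)
      q J c hc N hN] with x hx u lam hu
    have h3 : (wm μ fun y => Real.exp (ι x y)).real univ = ∫ y, Real.exp (ι x y) ∂μ := by
      have hm : Measurable fun y => Real.exp (ι x y) :=
        (Real.continuous_exp.comp (ι x).continuous).measurable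
      have h5 : (wm μ fun y => Real.exp (ι x y)).real univ =
          ∫ y, (1 : ℝ) ∂(wm μ fun y => Real.exp (ι x y)) := by simp
      rw [h5, integral_wm μ _ hm fun x => (Real.exp_pos _).le]
      simp
    have h4 : (wm μ fun y => Real.exp (ι x y)).real univ * (lam q - ∑ p ∈ J, c p * lam p) =
        Fc μ a b q J c (ι x) := by
      unfold Fc
      rw [h3, hEv (ι x) u lam hu q]
      congr 2
      exact Finset.sum_congr rfl fun p _ => by rw [hEv (ι x) u lam hu p]
    rw [h4]
    exact hx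

end Pool.Agent.Q233.GLV
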