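import Pool.Agent.Q233.GLV.GTop

/-!
# Generic levels: the theorem for surfaces with isothermal charts
-/

set_option autoImplicit false
set_option linter.unusedSectionVars false

open Set Filter Topology MeasureTheory
open Pool.Agent.Y262.QE Pool.Agent.Y264.QR Pool.Agent.Y319.QR Q101.QG

noncomputable section

namespace Pool.Agent.Q233.GLV

variable {M : Type} [MetricSpace M] [CompactSpace M] [MeasurableSpace M] [BorelSpace M]
  {μ : Measure M} {D : Data M}

/-- the lowest eigenvalue is zero -/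
lemma lam_zero [IsFiniteMeasure μ] (hD : D.IsSurf μ) {i : HF D μ →L[ℝ] Lp ℝ 2 μ}
    {a : HF D μ →L[ℝ] HF D μ →L[ℝ] ℝ} {b : C(M, ℝ) → HF D μ →L[ℝ] HF D μ →L[ℝ] ℝ}
    (hS : Sf μ i a) (hi : ∀ v, i v = v.1.fst) (ha : ∀ u v, a u v = inner ℝ u.1.snd v.1.snd)
    (hB : IsB μ i b) (hF : ∀ φ, Fm a (b φ)) {φ : C(M, ℝ)} (hA : 0 < ∫ x, Real.exp (φ x) ∂μ)
    {e : ℕ → HF D μ} {E : ℕ → ℝ} (hE : Eg a (b φ) e E) : E 0 = 0 := by
  obtain ⟨v0, hv0, h1, h2⟩ := (tDenF M μ D hD).1 (fun _ => (1 : ℝ)) (fun _ => contDiffOn_const)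
  obtain ⟨v, hv⟩ : ∃ v : HF D μ, v.1 = v0 := ⟨⟨v0, hv0⟩, rfl⟩
  have hsnd : v.1.snd = 0 := by
    rw [hv, Lp.eq_zero_iff_ae_eq_zero]
    filter_upwards [h2] with x hx
    rw [hx, gr_one hD]
    rfl
  have ha0 : ∀ w, a w v = 0 := fun w => by rw [ha, hsnd, inner_zero_right]
  have hb1 : b φ v v = ∫ x, Real.exp (φ x) ∂μ := by
    rw [hB]
    refine integral_congr_ae ?_
    rw [hi, hv]
    filter_upwards [h1] with x hx
    rw [hx]
    ring
  have h00 : 0 ≤ E 0 := by
    have h3 := hE.eig 0 (e 0)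
    rw [hE.orth, if_pos rfl, mul_one] at h3
    rw [← h3]
    exact hS.na _
  by_contra hne
  have hE0 : 0 < E 0 := lt_of_le_of_ne h00 (Ne.symm hne)
  have h3 : ∀ j, b φ v (e j) = 0 := by
    intro j
    have h4 := hE.eig j v
    rw [ha0] at h4
    have h5 : 0 < E j := hE0.trans_le (hE.mono (Nat.zero_le j))
    rcases mul_eq_zero.1 h4.symm with h6 | h6
    · exact absurd h6 h5.ne'
    · rw [(hF φ).sb]; exact h6
  have h4 := hE.sum v
  simp only [h3] at h4
  have h5 : b φ v v = 0 := by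
    refine h4.unique ?_
    simpa using (hasSum_zero : HasSum (fun _ : ℕ => (0 : ℝ)) 0)
  rw [hb1] at h5
  exact hA.ne' h5

variable [Nonempty M] (μ D)

theorem ptop2 (hD : D.IsSurf μ)
    (hiso : ∀ i, ∀ z ∈ D.T i, ∃ c : ℝ, ∀ v, ‖D.A i z v‖ = c * ‖v‖)
    (B : Type) [AddCommGroup B] [Module ℝ B]
    [TopologicalSpace B] [IsTopologicalAddGroup B] [ContinuousSMul ℝ B] [BaireSpace B]
    (ι : B →L[ℝ] C(M, ℝ)) (hι : DenseRange ι) :
    (∀ᶠ x in residual B, ∀ (u : ℕ → M → ℝ) (lam : ℕ → ℝ),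
      EigBasis (D.conf fun y => Real.exp (ι x y)) (wm μ fun y => Real.exp (ι x y)) u lam →
      ∀ (J : Finset ℕ) (c₀ : ℝ) (c : ℕ → ℝ), (∀ j ∈ J, 0 < lam j) →
        (∀ᵐ y ∂μ, c₀ + ∑ j ∈ J, c j * (u j y) ^ 2 = 0) → c₀ = 0 ∧ ∀ j ∈ J, c j = 0) ∧
    ∀ (n : ℕ) (N : Set (Fin n → ℝ)), IsMeagre N →
      ∀ᶠ x in residual B, ∀ (u : ℕ → M → ℝ) (lam : ℕ → ℝ),
      EigBasis (D.conf fun y => Real.exp (ι x y)) (wm μ fun y => Real.exp (ι x y)) u lam →
      ∀ p : Fin n → ℕ, Function.Injective p → (∀ l, 0 < lam (p l)) →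
        (fun l => (wm μ fun y => Real.exp (ι x y)).real univ * lam (p l)) ∉ N := by
  obtain ⟨hf, -⟩ := tFin M μ D hD
  haveI := hf
  haveI : CompleteSpace (HF D μ) := by
    unfold HF
    exact (Submodule.isClosed_topologicalClosure _).completeSpace_coe
  obtain ⟨i, a, hSf, hi, ha⟩ := tPackF M μ D hD inferInstance
  obtain ⟨b, hB, hF, hpos, hcmp, -⟩ := tFm M μ (HF D μ) i a hSf
  have hW := tWl M μ D hD inferInstance i a b hSf hi ha hB
  have hbr := fun φ u lam hu => tBr M μ D hD i a b hSf hi ha hB hF φ u lam hu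
  have hEv : ∀ φ (u : ℕ → M → ℝ) (lam : ℕ → ℝ),
      EigBasis (D.conf fun x => Real.exp (φ x)) (wm μ fun x => Real.exp (φ x)) u lam →
      ∀ j, lam j = Ev a (b φ) j := by
    intro φ u lam hu j
    obtain ⟨e', -, he'⟩ := hbr φ u lam hu
    exact (Pool.Agent.Y592.QE.mm _ a (b φ) (hF φ) e' lam he' j).symm
  obtain ⟨hnn, -, -, -, hdich⟩ := tLip M μ (HF D μ) a b hF hcmp
  have hEv0 : ∀ φ, Ev a (b φ) 0 = 0 := by
    intro φ
    obtain ⟨e, E, hE⟩ := tSp (HF D μ) a (b φ) (hF φ)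
    rw [Pool.Agent.Y592.QE.mm _ a (b φ) (hF φ) e E hE 0]
    exact lam_zero hD hSf hi ha hB hF (hpos φ) hE
  have hup : ∀ (φ : C(M, ℝ)) (j : ℕ), 0 < Ev a (b φ) j → j ≠ 0 ∧ ∀ ψ, 0 < Ev a (b ψ) j := by
    intro φ j hj
    refine ⟨fun h => ?_, ?_⟩
    · rw [h, hEv0] at hj
      exact lt_irrefl _ hj
    · rcases hdich j with h | h
      · rw [h φ] at hj
        exact absurd hj (lt_irrefl _)
      · exact h
  have hFam := fam_osc hD hiso hSf hi ha hB
  have htot : ∀ (φ : C(M, ℝ)) (e : ℕ → HF D μ) (c : ℕ → ℝ) (J' : Finset ℕ), (∀ Ω ∈ Fam D,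
      ∑ j ∈ J', c j * Ω (fun x => (i (e j) x) ^ 2) = 0) →
      ∀ h : C(M, ℝ), ∑ j ∈ J', c j * kap μ i h φ (e j) = 0 :=
    fun φ e c J' h0 h => fam_tot hD φ e c J' h0 h
  constructor
  · have key : ∀ᶠ x in residual B, ∀ J : Finset ℕ, (∀ j ∈ J, j ≠ 0 ∧ ∀ φ, 0 < Ev a (b φ) j) →
        ι x ∈ GoodS μ i a b (insert 0 J) := by
      rw [eventually_countable_forall]
      intro J
      by_cases hJ : ∀ j ∈ J, j ≠ 0 ∧ ∀ φ, 0 < Ev a (b φ) j
      · have h1 := good_dense hSf hB hW hpos B ι hι hFam htot J hJ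
        have h2 : IsOpen (ι ⁻¹' GoodS μ i a b (insert 0 J)) :=
          (good_open hSf hB _).preimage ι.continuous
        filter_upwards [residual_of_dense_open h2 h1] with x hx _
        exact hx
      · exact Eventually.of_forall fun x h => absurd h hJ
    filter_upwards [key] with x hx u lam hu J c₀ c hlam hae
    obtain ⟨e', he1, he'⟩ := hbr (ι x) u lam hu
    have hJ : ∀ j ∈ J, j ≠ 0 ∧ ∀ φ, 0 < Ev a (b φ) j := by
      intro j hj
      refine hup (ι x) j ?_
      rw [← hEv (ι x) u lam hu]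
      exact hlam j hj
    have h0J : (0 : ℕ) ∉ J := fun h => (hJ 0 h).1 rfl
    have hI := (hx J hJ).2 e' lam he'
    obtain ⟨c', hc'⟩ : ∃ c' : ℕ → ℝ, c' = fun j => if j = 0 then c₀ else c j := ⟨_, rfl⟩
    have hc0 : c' 0 = c₀ := by rw [hc']; simp
    have hcj : ∀ j ∈ J, c' j = c j := fun j hj => by rw [hc']; simp [(hJ j hj).1]
    have h1 := hI c' (by
      intro h
      rw [Finset.sum_insert h0J, hc0]
      have h2 : ∑ j ∈ J, c' j * pw μ i (ι x) h e' j =
          ∑ j ∈ J, ∫ y, c j * (h y * (Real.exp (ι x y) * (i (e' j) y) ^ 2)) ∂μ := by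
        refine Finset.sum_congr rfl fun j hj => ?_
        rw [hcj j hj, integral_const_mul]
        unfold pw
        rw [if_neg (hJ j hj).1]
        rfl
      have hint : ∀ j ∈ J, Integrable
          (fun y => c j * (h y * (Real.exp (ι x y) * (i (e' j) y) ^ 2))) μ := by
        intro j _
        refine Integrable.const_mul ?_ _
        exact RSP.cint μ h (RSP.cint μ ⟨fun y => Real.exp (ι x y),
          Real.continuous_exp.comp (ι x).continuous⟩ (Lp.memLp (i (e' j))).integrable_sq)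
      have h3 : c₀ * pw μ i (ι x) h e' 0 = ∫ y, c₀ * (h y * Real.exp (ι x y)) ∂μ := by
        rw [integral_const_mul]
        unfold pw
        rw [if_pos rfl]
      have hint0 : Integrable (fun y => c₀ * (h y * Real.exp (ι x y))) μ :=
        Integrable.const_mul (RSP.cint μ h (RSP.exp_int (μ := μ) (ι x))) _
      rw [h2, h3, ← integral_finsetSum _ hint, ← integral_add hint0 (integrable_finsetSum _ hint)]
      refine integral_eq_zero_of_ae ?_
      have hall : ∀ᵐ y ∂μ, ∀ j, i (e' j) y = u j y := ae_all_iff.2 he1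
      filter_upwards [hae, hall] with y hy1 hy2
      have h4 : c₀ * (h y * Real.exp (ι x y)) +
          ∑ j ∈ J, c j * (h y * (Real.exp (ι x y) * (i (e' j) y) ^ 2)) =
          h y * Real.exp (ι x y) * (c₀ + ∑ j ∈ J, c j * (u j y) ^ 2) := by
        rw [mul_add, Finset.mul_sum]
        congr 1
        · ring
        · refine Finset.sum_congr rfl fun j _ => ?_
          rw [hy2]
          ring
      simp only [Pi.zero_apply]
      rw [h4, hy1, mul_zero])
    refine ⟨?_, fun j hj => ?_⟩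
    · rw [← hc0]
      exact h1 0 (Finset.mem_insert_self _ _)
    · rw [← hcj j hj]
      exact h1 j (Finset.mem_insert_of_mem hj)
  · intro n N hN
    have key : ∀ᶠ x in residual B, ∀ p : Fin n → ℕ, Function.Injective p →
        (∀ l, p l ≠ 0 ∧ ∀ φ, 0 < Ev a (b φ) (p l)) → Tu μ a b p (ι x) ∉ N := by
      rw [eventually_countable_forall]
      intro p
      by_cases hp : Function.Injective p ∧ ∀ l, p l ≠ 0 ∧ ∀ φ, 0 < Ev a (b φ) (p l)
      · filter_upwards [tu_avoid hSf hB hW hpos B ι hι hFam htot hp.1 hp.2 hN] with x hx _ _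
        exact hx
      · exact Eventually.of_forall fun x h h' => absurd ⟨h, h'⟩ hp
    filter_upwards [key] with x hx u lam hu p hp hl
    have h1 := hx p hp fun l => hup (ι x) (p l) (by
      rw [← hEv (ι x) u lam hu]
      exact hl l)
    have h3 : (wm μ fun y => Real.exp (ι x y)).real univ = ∫ y, Real.exp (ι x y) ∂μ := by
      have hm : Measurable fun y => Real.exp (ι x y) :=
        (Real.continuous_exp.comp (ι x).continuous).measurable
      have h5 : (wm μ fun y => Real.exp (ι x y)).real univ =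
          ∫ y, (1 : ℝ) ∂(wm μ fun y => Real.exp (ι x y)) := by simp
      rw [h5, integral_wm μ _ hm fun x => (Real.exp_pos _).le]
      simp
    have h4 : (fun l => (wm μ fun y => Real.exp (ι x y)).real univ * lam (p l)) =
        Tu μ a b p (ι x) := by
      funext l
      unfold Tu
      rw [h3, hEv (ι x) u lam hu (p l)]
    rw [h4]
    exact h1

end Pool.Agent.Q233.GLV
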