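import Pool.Agent.Q233.RSP.Mark
import Pool.Agent.Q101.QGBaire

/-!
# Generic levels: simplicity of the spectrum in a space of conformal factors
-/

set_option autoImplicit false

open Set Filter Topology MeasureTheory
open Pool.Agent.Y262.QE Pool.Agent.Y264.QR Pool.Agent.Y319.QR Q101.QG

noncomputable section

namespace Pool.Agent.Q233.GLV

variable {M : Type} [MetricSpace M] [CompactSpace M] [MeasurableSpace M] [BorelSpace M]
  {μ : Measure M} [IsFiniteMeasure μ] {H : Type} [NormedAddCommGroup H] [InnerProductSpace ℝ H]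
  {i : H →L[ℝ] Lp ℝ 2 μ} {a : H →L[ℝ] H →L[ℝ] ℝ} {b : C(M, ℝ) → H →L[ℝ] H →L[ℝ] ℝ}

lemma kap_neg (h φ : C(M, ℝ)) (v : H) : kap μ i (-h) φ v = -kap μ i h φ v := by
  unfold kap
  rw [← integral_neg]
  refine integral_congr_ae (Eventually.of_forall fun x => ?_)
  simp only [ContinuousMap.neg_apply]
  ring

/-- the largest mass of the eigenvectors is upper semicontinuous -/
theorem kap_up [CompleteSpace H] (hS : Sf μ i a) (hB : IsB μ i b) (j : ℕ) (h φ : C(M, ℝ))
    (c ε : ℝ) (hε : 0 < ε) (hc : ∀ v, EV a (b φ) (Ev a (b φ) j) v → kap μ i h φ v ≤ c) :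
    ∀ᶠ ψ in 𝓝 φ, ∀ v, EV a (b ψ) (Ev a (b ψ) j) v → kap μ i h ψ v ≤ c + ε := by
  obtain ⟨hF, hb, hk⟩ := forms μ i a b hS hB
  obtain ⟨e, E, hE⟩ := tSp H a (b φ) (hF φ)
  have hmm : Ev a (b φ) j = E j := Pool.Agent.Y592.QE.mm H a (b φ) (hF φ) e E hE j
  obtain ⟨q, hq1, hq2⟩ := hk h
  obtain ⟨δ, hδ, hδ1, hst⟩ := stab a (b φ) (hF φ) e E hE (q φ) ‖h‖ (hq1 φ) (norm_nonneg _)
    (fun v => (hq2 φ v).2) j c
    (fun v hv => by rw [(hq2 φ v).1]; exact hc v (by rw [hmm]; exact hv)) (ε / 2)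
    (by positivity)
  have hd : Tendsto (fun ψ : C(M, ℝ) => Real.exp ‖ψ - φ‖ - 1) (𝓝 φ) (𝓝 0) := by
    have h1 : Continuous fun ψ : C(M, ℝ) => Real.exp ‖ψ - φ‖ - 1 := by fun_prop
    have h2 := h1.tendsto φ
    rwa [sub_self, norm_zero, Real.exp_zero, sub_self] at h2
  have hEc := (tLip M μ H a b hF hb).2.2.2.1 j
  have e1 : ∀ᶠ ψ in 𝓝 φ, Real.exp ‖ψ - φ‖ - 1 < δ := hd.eventually (eventually_lt_nhds hδ)
  have e2 : ∀ᶠ ψ in 𝓝 φ, |Ev a (b ψ) j - Ev a (b φ) j| < δ := by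
    have h1 := (hEc.tendsto φ).eventually (Metric.ball_mem_nhds _ hδ)
    filter_upwards [h1] with ψ h1
    exact h1
  have e3 : ∀ᶠ ψ in 𝓝 φ, ‖h‖ * (Real.exp ‖ψ - φ‖ - 1) * 2 < ε / 2 := by
    have h1 : Tendsto (fun ψ : C(M, ℝ) => ‖h‖ * (Real.exp ‖ψ - φ‖ - 1) * 2) (𝓝 φ) (𝓝 0) := by
      have := (hd.const_mul ‖h‖).mul_const 2
      rwa [mul_zero, zero_mul] at this
    exact h1.eventually (eventually_lt_nhds (by positivity))
  filter_upwards [e1, e2, e3] with ψ e1 e2 e3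
  intro v hv
  have hb1 : ∀ x, b ψ x x ≤ Real.exp ‖ψ - φ‖ * b φ x x := fun x => hb ψ φ x
  have hb2 : ∀ x, b φ x x ≤ Real.exp ‖ψ - φ‖ * b ψ x x := fun x => by
    rw [norm_sub_rev]; exact hb φ ψ x
  have hexp : 1 ≤ Real.exp ‖ψ - φ‖ := Real.one_le_exp (norm_nonneg _)
  have hdiff : ∀ x, |b ψ x x - b φ x x| ≤ δ * b φ x x := by
    intro x
    have h0 := (hF φ).nb x
    have h1 : b ψ x x - b φ x x ≤ (Real.exp ‖ψ - φ‖ - 1) * b φ x x := by
      have := hb1 x
      linarith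
    have h2 : b φ x x - b ψ x x ≤ (Real.exp ‖ψ - φ‖ - 1) * b φ x x := by
      by_cases h3 : b ψ x x ≤ b φ x x
      · have h4 := hb2 x
        have h5 : (Real.exp ‖ψ - φ‖ - 1) * b ψ x x ≤ (Real.exp ‖ψ - φ‖ - 1) * b φ x x :=
          mul_le_mul_of_nonneg_left h3 (by linarith)
        linarith
      · have h4 : 0 ≤ (Real.exp ‖ψ - φ‖ - 1) * b φ x x := mul_nonneg (by linarith) h0
        linarith [not_le.1 h3]
    have h3 : (Real.exp ‖ψ - φ‖ - 1) * b φ x x ≤ δ * b φ x x :=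
      mul_le_mul_of_nonneg_right e1.le h0
    rw [abs_le]
    constructor <;> linarith
  have h1 := hst (b ψ) (Ev a (b ψ) j) v (hF ψ).sb hdiff (by rw [← hmm]; exact e2.le) hv
  rw [(hq2 φ v).1] at h1
  have h2 : b φ v v ≤ 2 := by
    have h3 := hb2 v
    rw [hv.2, mul_one] at h3
    linarith
  have h3 := (abs_le.1 (kap_lip μ i b hB h φ ψ v)).2
  have h4 : ‖h‖ * (Real.exp ‖ψ - φ‖ - 1) * b φ v v ≤ ‖h‖ * (Real.exp ‖ψ - φ‖ - 1) * 2 :=
    mul_le_mul_of_nonneg_left h2 (mul_nonneg (norm_nonneg _) (by linarith))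
  linarith

/-- all masses of the eigenvectors stay near a number -/
theorem kap_near [CompleteSpace H] (hS : Sf μ i a) (hB : IsB μ i b) (j : ℕ) (h φ : C(M, ℝ))
    (c δ ε : ℝ) (hε : 0 < ε)
    (hc : ∀ v, EV a (b φ) (Ev a (b φ) j) v → |kap μ i h φ v - c| ≤ δ) :
    ∀ᶠ ψ in 𝓝 φ, ∀ v, EV a (b ψ) (Ev a (b ψ) j) v → |kap μ i h ψ v - c| ≤ δ + ε := by
  have h1 := kap_up hS hB j h φ (c + δ) ε hε fun v hv => by
    have := (abs_le.1 (hc v hv)).2
    linarith
  have h2 := kap_up hS hB j (-h) φ (-c + δ) ε hε fun v hv => by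
    have := (abs_le.1 (hc v hv)).1
    rw [kap_neg]
    linarith
  filter_upwards [h1, h2] with ψ h1 h2 v hv
  have h3 := h1 v hv
  have h4 := h2 v hv
  rw [kap_neg] at h4
  rw [abs_le]
  constructor <;> linarith

/-- all normalized eigenvectors of one eigenvalue have the same masses -/
def Same (μ : Measure M) (i : H →L[ℝ] Lp ℝ 2 μ) (a : H →L[ℝ] H →L[ℝ] ℝ)
    (b : C(M, ℝ) → H →L[ℝ] H →L[ℝ] ℝ) (φ : C(M, ℝ)) : Prop :=
  ∀ j, 0 < Ev a (b φ) j → ∀ v w, EV a (b φ) (Ev a (b φ) j) v → EV a (b φ) (Ev a (b φ) j) w →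
    ∀ f : C(M, ℝ), kap μ i f φ v = kap μ i f φ w

lemma kap_bd (hS : Sf μ i a) (hB : IsB μ i b) (f φ : C(M, ℝ)) (v : H) (hv : b φ v v = 1) :
    |kap μ i f φ v| ≤ ‖f‖ := by
  obtain ⟨-, -, hk⟩ := forms μ i a b hS hB
  obtain ⟨q, -, hq2⟩ := hk f
  have h1 := (hq2 φ v).2
  rwa [(hq2 φ v).1, hv, mul_one] at h1

/-- generic conformal factors have the property `Same` -/
theorem generic_same [CompleteSpace H] (hS : Sf μ i a) (hB : IsB μ i b) (hW : Wl μ a b)
    (B : Type) [AddCommGroup B] [Module ℝ B]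
    [TopologicalSpace B] [IsTopologicalAddGroup B] [ContinuousSMul ℝ B]
    (ι : B →L[ℝ] C(M, ℝ)) (hι : DenseRange ι) :
    ∀ᶠ x in residual B, Same μ i a b (ι x) := by
  obtain ⟨hF, hb, hk⟩ := forms μ i a b hS hB
  obtain ⟨-, -, -, -, hdich⟩ := tLip M μ H a b hF hb
  obtain ⟨T, hT1, hT2, hT3⟩ := hι.exists_countable_dense_subset
  set Gd : C(M, ℝ) → ℝ → ℕ → Set C(M, ℝ) := fun g ε j =>
    {φ | ∃ c : ℝ, ∀ v, EV a (b φ) (Ev a (b φ) j) v → |kap μ i g φ v - c| ≤ ε} with hGd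
  have key : ∀ g ∈ T, ∀ n j : ℕ, (∀ φ, 0 < Ev a (b φ) j) → ∀ᶠ x in residual B,
      ι x ∈ Gd g (1 / ((n : ℝ) + 1)) j := by
    intro g hg n j hj
    obtain ⟨y, hy⟩ := hT1 hg
    set ε : ℝ := 1 / ((n : ℝ) + 1) with hε
    have hε0 : 0 < ε := by positivity
    have hdense : Dense (interior (ι ⁻¹' Gd g ε j)) := by
      rw [dense_iff_inter_open]
      rintro W hW' ⟨x, hx⟩
      have hc : Continuous fun t : ℝ => x + t • y := by fun_prop
      have h1 : (fun t : ℝ => x + t • y) ⁻¹' W ∈ 𝓝 (0 : ℝ) := by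
        refine hc.continuousAt.preimage_mem_nhds ?_
        simp only [zero_smul, add_zero]
        exact hW'.mem_nhds hx
      obtain ⟨η, hη, hηW⟩ := Metric.mem_nhds_iff.1 h1
      choose e E hE using fun t : ℝ => tSp H a (b (ι x + t • g)) (hF _)
      have h3 := ae_all μ i a b hS hB hW (ι x) g e E hE j hj
      have h4 : ∃ t ∈ Metric.ball (0 : ℝ) η, ∀ v, EV a (b (ι x + t • g))
          (Ev a (b (ι x + t • g)) j) v →
          kap μ i g (ι x + t • g) v = kap μ i g (ι x + t • g) (e t j) := by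
        by_contra hcon
        push Not at hcon
        have h5 : volume (Metric.ball (0 : ℝ) η) = 0 := by
          refine measure_mono_null (fun t ht => ?_) h3
          obtain ⟨v, hv1, hv2⟩ := hcon t ht
          exact fun h6 => hv2 (h6 v hv1)
        rw [Real.volume_ball] at h5
        have : (0 : ℝ) < 2 * η := by positivity
        exact absurd h5 (ENNReal.ofReal_pos.2 this).ne'
      obtain ⟨t, ht, hgood⟩ := h4
      refine ⟨x + t • y, hηW ht, ?_⟩
      rw [mem_interior_iff_mem_nhds]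
      refine ι.continuous.continuousAt.preimage_mem_nhds ?_
      have h2 : ι (x + t • y) = ι x + t • g := by rw [map_add, map_smul, hy]
      rw [h2]
      have h6 := kap_near hS hB j g (ι x + t • g) (kap μ i g (ι x + t • g) (e t j)) 0 ε hε0
        (fun v hv => by rw [hgood v hv, sub_self, abs_zero])
      filter_upwards [h6] with ψ h6
      exact ⟨_, fun v hv => (h6 v hv).trans_eq (zero_add ε)⟩
    exact mem_of_superset (residual_of_dense_open isOpen_interior hdense) interior_subset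
  have key2 : ∀ᶠ x in residual B, ∀ g ∈ T, ∀ n j : ℕ, (∀ φ, 0 < Ev a (b φ) j) →
      ι x ∈ Gd g (1 / ((n : ℝ) + 1)) j := by
    rw [eventually_countable_ball hT2]
    intro g hg
    rw [eventually_countable_forall]
    intro n
    rw [eventually_countable_forall]
    intro j
    by_cases hj : ∀ φ, 0 < Ev a (b φ) j
    · filter_upwards [key g hg n j hj] with x hx _
      exact hx
    · exact Eventually.of_forall fun x h => absurd h hj
  filter_upwards [key2] with x hx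
  intro j hj v w hv hw f
  have hj' : ∀ φ, 0 < Ev a (b φ) j := by
    rcases hdich j with h0 | h0
    · rw [h0] at hj
      exact absurd hj (lt_irrefl _)
    · exact h0
  by_contra hne
  have hpos : 0 < |kap μ i f (ι x) v - kap μ i f (ι x) w| := abs_pos.2 (sub_ne_zero.2 hne)
  set d := |kap μ i f (ι x) v - kap μ i f (ι x) w| with hd
  obtain ⟨n, hn⟩ := exists_nat_one_div_lt (show 0 < d / 4 by positivity)
  obtain ⟨g, hg, hgf⟩ := Metric.mem_closure_iff.1 (hT3 f) (d / 8) (by positivity)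
  rw [dist_eq_norm] at hgf
  obtain ⟨c, hc⟩ := hx g hg n j hj'
  have h1 := abs_le.1 (hc v hv)
  have h2 := abs_le.1 (hc w hw)
  have h3 := abs_le.1 (kap_bd hS hB (f - g) (ι x) v hv.2)
  have h4 := abs_le.1 (kap_bd hS hB (f - g) (ι x) w hw.2)
  rw [Pool.Agent.Y378.QR.kap_sub] at h3 h4
  have h5 : d < d := by
    conv_lhs => rw [hd]
    rw [abs_lt]
    constructor <;> linarith [h1.1, h1.2, h2.1, h2.2, h3.1, h3.2, h4.1, h4.2]
  exact lt_irrefl _ h5

/-- simplicity -/
theorem simple_of_same (hS : Sf μ i a) (hB : IsB μ i b) {φ : C(M, ℝ)} (hs : Same μ i a b φ)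
    {e : ℕ → H} {E : ℕ → ℝ} (hEg : Eg a (b φ) e E) {p q : ℕ} (hpq : p ≠ q) (hE : E p = E q)
    (hp : 0 < E p) : False := by
  obtain ⟨hF, hb, hk⟩ := forms μ i a b hS hB
  have hmm : ∀ l, Ev a (b φ) l = E l :=
    fun l => Pool.Agent.Y592.QE.mm H a (b φ) (hF φ) e E hEg l
  have opp : b φ (e p) (e p) = 1 := by rw [hEg.orth, if_pos rfl]
  have oqq : b φ (e q) (e q) = 1 := by rw [hEg.orth, if_pos rfl]
  have opq : b φ (e p) (e q) = 0 := by rw [hEg.orth, if_neg hpq]
  have oqp : b φ (e q) (e p) = 0 := by rw [hEg.orth, if_neg hpq.symm]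
  have hEV : ∀ c s : ℝ, c ^ 2 + s ^ 2 = 1 → EV a (b φ) (Ev a (b φ) p) (c • e p + s • e q) := by
    intro c s hcs
    refine ⟨fun w => ?_, ?_⟩
    · simp only [map_add, map_smul, ContinuousLinearMap.add_apply, ContinuousLinearMap.smul_apply,
        smul_eq_mul, hEg.eig, hmm, ← hE]
      ring
    · simp only [map_add, map_smul, ContinuousLinearMap.add_apply, ContinuousLinearMap.smul_apply,
        smul_eq_mul, opp, oqq, opq, oqp]
      linarith
  have hrot : ∀ c s : ℝ, c ^ 2 + s ^ 2 = 1 → ∀ h : C(M, ℝ),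
      kap μ i h φ (c • e p + s • e q) = kap μ i h φ (e p) := by
    intro c s hcs h
    have h1 := hEV 1 0 (by norm_num)
    rw [one_smul, zero_smul, add_zero] at h1
    exact hs p (by rw [hmm]; exact hp) _ _ (hEV c s hcs) h1 h
  have hcr : ∀ h ∈ (univ : Set C(M, ℝ)),
      ∫ x, h x * (Real.exp (φ x) * (i (e p) x * i (e q) x)) ∂μ = 0 ∧
      kap μ i h φ (e q) = kap μ i h φ (e p) := by
    intro h _
    have h1 := hrot 0 1 (by norm_num) h
    rw [zero_smul, zero_add, one_smul] at h1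
    have h2 := hrot (3 / 5) (4 / 5) (by norm_num) h
    rw [RSP.kap_comb, h1] at h2
    exact ⟨by linarith, h1⟩
  have hSd : Dense (Submodule.span ℝ (univ : Set C(M, ℝ)) : Set C(M, ℝ)) := by
    rw [Submodule.span_univ]
    exact dense_univ
  have z1 := RSP.zero_of_total μ (RSP.cross_int (μ := μ) (i := i) φ (e p) (e q)) univ hSd
    fun h hh => (hcr h hh).1
  have z2 := RSP.zero_of_total μ ((RSP.cross_int (μ := μ) (i := i) φ (e q) (e q)).sub
    (RSP.cross_int (μ := μ) (i := i) φ (e p) (e p))) univ hSd (by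
      intro h hh
      have h1 := (hcr h hh).2
      have e2 : ∀ w : H, kap μ i h φ w = ∫ x, h x * (Real.exp (φ x) * (i w x * i w x)) ∂μ := by
        intro w
        unfold kap
        refine integral_congr_ae (Eventually.of_forall fun x => ?_)
        ring
      rw [e2, e2, ← sub_eq_zero, ← integral_sub
        (RSP.cint μ h (RSP.cross_int (μ := μ) (i := i) φ _ _))
        (RSP.cint μ h (RSP.cross_int (μ := μ) (i := i) φ _ _))] at h1
      rw [← h1]
      refine integral_congr_ae (Eventually.of_forall fun x => ?_)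
      simp only [Pi.sub_apply]
      ring)
  have h0 : ∀ᵐ x ∂μ, (i (e p) : M → ℝ) x = 0 := by
    filter_upwards [z1, z2] with x h1 h2
    simp only [Pi.sub_apply, Pi.zero_apply] at h1 h2
    have h3 := Real.exp_pos (φ x)
    have h4 : (i (e p) : M → ℝ) x * (i (e q) : M → ℝ) x = 0 := by
      rcases mul_eq_zero.1 h1 with h | h
      · exact absurd h h3.ne'
      · exact h
    have h5 : (i (e q) : M → ℝ) x * (i (e q) : M → ℝ) x =
        (i (e p) : M → ℝ) x * (i (e p) : M → ℝ) x := by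
      have : Real.exp (φ x) * ((i (e q) : M → ℝ) x * (i (e q) : M → ℝ) x -
          (i (e p) : M → ℝ) x * (i (e p) : M → ℝ) x) = 0 := by linarith
      rcases mul_eq_zero.1 this with h | h
      · exact absurd h h3.ne'
      · linarith
    by_contra hne
    rcases mul_eq_zero.1 h4 with h | h
    · exact hne h
    · rw [h, mul_zero] at h5
      exact hne (mul_self_eq_zero.1 h5.symm)
  have h1 := hEg.orth p p
  rw [if_pos rfl, hB] at h1
  rw [integral_eq_zero_of_ae (by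
    filter_upwards [h0] with x hx
    rw [hx]
    simp)] at h1
  exact zero_ne_one h1

end Pool.Agent.Q233.GLV
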