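import Pool.Agent.Q233.GLV.Pt3

/-!
# Generic levels: independence of the squares is dense
-/

set_option autoImplicit false
set_option linter.unusedSectionVars false

open Set Filter Topology MeasureTheory
open Pool.Agent.Y262.QE Pool.Agent.Y264.QR Pool.Agent.Y319.QR Q101.QG

noncomputable section

namespace Pool.Agent.Q233.GLV

variable {M : Type} [MetricSpace M] [CompactSpace M] [MeasurableSpace M] [BorelSpace M]
  {μ : Measure M} [IsFiniteMeasure μ] {H : Type} [NormedAddCommGroup H] [InnerProductSpace ℝ H]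
  {i : H →L[ℝ] Lp ℝ 2 μ} {a : H →L[ℝ] H →L[ℝ] ℝ} {b : C(M, ℝ) → H →L[ℝ] H →L[ℝ] ℝ}

lemma sim_open (hS : Sf μ i a) (hB : IsB μ i b) {φ : C(M, ℝ)} {j : ℕ} (h : Sim a b φ j) :
    ∀ᶠ ψ in 𝓝 φ, Sim a b ψ j := by
  obtain ⟨hF, hb, -⟩ := forms μ i a b hS hB
  obtain ⟨-, hmon, -, hcont, -⟩ := tLip M μ H a b hF hb
  have hup : ∀ᶠ ψ in 𝓝 φ, Ev a (b ψ) j < Ev a (b ψ) (j + 1) := by
    refine ((hcont j).tendsto φ).eventually_lt ((hcont (j + 1)).tendsto φ) ?_
    exact lt_of_le_of_ne (hmon φ j (j + 1) (Nat.le_succ j)) (h (j + 1) (Nat.succ_ne_self j)).symm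
  have hdown : ∀ᶠ ψ in 𝓝 φ, ∀ l, l < j → Ev a (b ψ) l < Ev a (b ψ) j := by
    rcases j with _ | j'
    · exact Eventually.of_forall fun ψ l hl => absurd hl (Nat.not_lt_zero l)
    · have h1 : ∀ᶠ ψ in 𝓝 φ, Ev a (b ψ) j' < Ev a (b ψ) (j' + 1) := by
        refine ((hcont j').tendsto φ).eventually_lt ((hcont (j' + 1)).tendsto φ) ?_
        exact lt_of_le_of_ne (hmon φ j' (j' + 1) (Nat.le_succ j')) (h j' (Nat.succ_ne_self j').symm)
      filter_upwards [h1] with ψ h1 l hl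
      exact (hmon ψ l j' (Nat.lt_succ_iff.1 hl)).trans_lt h1
  filter_upwards [hup, hdown] with ψ h1 h2 l hl
  rcases lt_or_gt_of_ne hl with h3 | h3
  · exact (h2 l h3).ne
  · exact (h1.trans_le (hmon ψ (j + 1) l h3)).ne'

lemma sim_of_same [CompleteSpace H] (hS : Sf μ i a) (hB : IsB μ i b) {φ : C(M, ℝ)}
    (hs : Same μ i a b φ) {j : ℕ} (hj : 0 < Ev a (b φ) j) : Sim a b φ j := by
  obtain ⟨hF, hb, -⟩ := forms μ i a b hS hB
  intro l hl heq
  obtain ⟨e, E, hE⟩ := tSp H a (b φ) (hF φ)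
  have hmm : ∀ l, Ev a (b φ) l = E l :=
    fun l => Pool.Agent.Y592.QE.mm H a (b φ) (hF φ) e E hE l
  rw [hmm, hmm] at heq
  rw [hmm] at hj
  exact simple_of_same hS hB hs hE (p := j) (q := l) hl.symm heq.symm hj

lemma ind_congr (hS : Sf μ i a) (hB : IsB μ i b) {φ : C(M, ℝ)} {J : Finset ℕ}
    (hs : ∀ j ∈ J, j ≠ 0 → Sim a b φ j) {e e' : ℕ → H} {E E' : ℕ → ℝ} (hE : Eg a (b φ) e E)
    (hE' : Eg a (b φ) e' E') (hI : Ind μ i φ e J) : Ind μ i φ e' J := by
  obtain ⟨hF, hb, -⟩ := forms μ i a b hS hB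
  have hmm : ∀ l, Ev a (b φ) l = E' l :=
    fun l => Pool.Agent.Y592.QE.mm H a (b φ) (hF φ) e' E' hE' l
  intro c hc
  refine hI c fun h => ?_
  rw [← hc h]
  refine Finset.sum_congr rfl fun j hj => ?_
  congr 1
  unfold pw
  by_cases hj0 : j = 0
  · rw [if_pos hj0, if_pos hj0]
  · rw [if_neg hj0, if_neg hj0]
    exact (ev_simple hS hB hE (hs j hj hj0) ⟨fun w => by rw [hmm, hE'.eig],
      by rw [hE'.orth, if_pos rfl]⟩ h).symm

/-- conformal factors with simple eigenvalues and independent squares -/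
def GoodS (μ : Measure M) (i : H →L[ℝ] Lp ℝ 2 μ) (a : H →L[ℝ] H →L[ℝ] ℝ)
    (b : C(M, ℝ) → H →L[ℝ] H →L[ℝ] ℝ) (J : Finset ℕ) : Set C(M, ℝ) :=
  {φ | (∀ j ∈ J, j ≠ 0 → Sim a b φ j) ∧ ∀ (e : ℕ → H) (E : ℕ → ℝ), Eg a (b φ) e E →
    Ind μ i φ e J}

theorem good_open [CompleteSpace H] (hS : Sf μ i a) (hB : IsB μ i b) (J : Finset ℕ) :
    IsOpen (GoodS μ i a b J) := by
  obtain ⟨hF, hb, -⟩ := forms μ i a b hS hB
  rw [isOpen_iff_mem_nhds]
  rintro φ ⟨h1, h2⟩
  obtain ⟨e, E, hE⟩ := tSp H a (b φ) (hF φ)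
  have h3 := ind_open hS hB hE h1 (h2 e E hE)
  have h4 : ∀ᶠ ψ in 𝓝 φ, ∀ j ∈ J, j ≠ 0 → Sim a b ψ j := by
    rw [Finset.eventually_all]
    intro j hj
    by_cases hj0 : j = 0
    · exact Eventually.of_forall fun ψ h => absurd hj0 h
    · filter_upwards [sim_open hS hB (h1 j hj hj0)] with ψ hψ _
      exact hψ
  filter_upwards [h3, h4] with ψ h3 h4
  exact ⟨h4, h3⟩

theorem good_dense [CompleteSpace H] (hS : Sf μ i a) (hB : IsB μ i b) (hW : Wl μ a b)
    (hA : ∀ φ : C(M, ℝ), 0 < ∫ x, Real.exp (φ x) ∂μ)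
    (B : Type) [AddCommGroup B] [Module ℝ B]
    [TopologicalSpace B] [IsTopologicalAddGroup B] [ContinuousSMul ℝ B] [BaireSpace B]
    (ι : B →L[ℝ] C(M, ℝ)) (hι : DenseRange ι)
    {Fa : Set ((M → ℝ) → ℝ)} (hFam : ∀ Ω ∈ Fa, ∃ h C w, Osc μ i a b Ω h C w)
    (htot : ∀ (φ : C(M, ℝ)) (e : ℕ → H) (c : ℕ → ℝ) (J' : Finset ℕ), (∀ Ω ∈ Fa,
      ∑ j ∈ J', c j * Ω (fun x => (i (e j) x) ^ 2) = 0) →
      ∀ h : C(M, ℝ), ∑ j ∈ J', c j * kap μ i h φ (e j) = 0) (J₁ : Finset ℕ) :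
    (∀ j ∈ J₁, j ≠ 0 ∧ ∀ φ, 0 < Ev a (b φ) j) → Dense (ι ⁻¹' GoodS μ i a b (insert 0 J₁)) := by
  obtain ⟨hF, hb, -⟩ := forms μ i a b hS hB
  have hsame : Dense {x : B | Same μ i a b (ι x)} :=
    dense_of_mem_residual (generic_same hS hB hW B ι hι)
  induction J₁ using Finset.induction_on with
  | empty =>
    intro _
    have h1 : ι ⁻¹' GoodS μ i a b (insert 0 ∅) = univ := by
      refine eq_univ_of_forall fun x => ⟨fun j hj hj0 => ?_, fun e E _ c hc j hj => ?_⟩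
      · simp only [Finset.mem_insert, Finset.notMem_empty, or_false] at hj
        exact absurd hj hj0
      · simp only [Finset.mem_insert, Finset.notMem_empty, or_false] at hj
        have h2 := hc 1
        simp only [insert_empty_eq, Finset.sum_singleton, pw, if_true] at h2
        have h3 : ∫ y, (1 : C(M, ℝ)) y * Real.exp (ι x y) ∂μ = ∫ y, Real.exp (ι x y) ∂μ := by
          refine integral_congr_ae (Eventually.of_forall fun y => ?_)
          simp
        rw [h3] at h2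
        rw [hj]
        exact (mul_eq_zero.1 h2).resolve_right (hA (ι x)).ne'
    rw [h1]
    exact dense_univ
  | insert j₀ J₁ hj₀ ih =>
    intro hJ
    have hd := ih fun j hj => hJ j (Finset.mem_insert_of_mem hj)
    have ho : IsOpen (ι ⁻¹' GoodS μ i a b (insert 0 J₁)) :=
      (good_open hS hB (insert 0 J₁)).preimage ι.continuous
    have hj₀J := hJ j₀ (Finset.mem_insert_self _ _)
    rw [dense_iff_inter_open]
    intro W hWo hWne
    by_contra hcon
    have hbad : ∀ x ∈ W, ι x ∉ GoodS μ i a b (insert 0 (insert j₀ J₁)) := fun x hx h =>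
      hcon ⟨x, hx, h⟩
    have hW1 : (W ∩ ι ⁻¹' GoodS μ i a b (insert 0 J₁)).Nonempty :=
      (dense_iff_inter_open.1 hd) W hWo hWne
    obtain ⟨x, ⟨hxW, hxG⟩, hxs⟩ := (dense_iff_inter_open.1 hsame) _ (hWo.inter ho) hW1
    obtain ⟨e, E, hE⟩ := tSp H a (b (ι x)) (hF _)
    have hmm : ∀ j, Ev a (b (ι x)) j = E j := fun j =>
      Pool.Agent.Y592.QE.mm H a (b (ι x)) (hF _) e E hE j
    have hj₀' : j₀ ∉ insert 0 J₁ := by
      rw [Finset.mem_insert, not_or]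
      exact ⟨hj₀J.1, hj₀⟩
    have hsim : ∀ j ∈ insert j₀ (insert 0 J₁), j ≠ 0 → Sim a b (ι x) j := by
      intro j hj hj0
      refine sim_of_same hS hB hxs ?_
      rcases Finset.mem_insert.1 hj with h | h
      · rw [h]; exact hj₀J.2 _
      · rcases Finset.mem_insert.1 h with h | h
        · exact absurd h hj0
        · exact (hJ j (Finset.mem_insert_of_mem h)).2 _
    have hsimo : ∀ᶠ ψ in 𝓝 (ι x), ∀ j ∈ insert j₀ (insert 0 J₁), j ≠ 0 → Sim a b ψ j := by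
      rw [Finset.eventually_all]
      intro j hj
      by_cases hj0 : j = 0
      · exact Eventually.of_forall fun ψ h => absurd hj0 h
      · filter_upwards [sim_open hS hB (hsim j hj hj0)] with ψ hψ _
        exact hψ
    refine pt hS hB hE (Finset.mem_insert_self 0 J₁) hj₀' hsim (by rw [← hmm]; exact hj₀J.2 _)
      ι hι (hxG.2 e E hE) (fun y => ?_) hFam (htot (ι x) e)
    have hcl : Continuous fun t : ℝ => x + t • y := by fun_prop
    have h1 : ∀ᶠ t in 𝓝 (0 : ℝ), x + t • y ∈ W ∩ ι ⁻¹' GoodS μ i a b (insert 0 J₁) := by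
      refine hcl.continuousAt.eventually_mem ?_
      simp only [zero_smul, add_zero]
      exact (hWo.inter ho).mem_nhds ⟨hxW, hxG⟩
    have h2 : ∀ᶠ t in 𝓝 (0 : ℝ), ∀ j ∈ insert j₀ (insert 0 J₁), j ≠ 0 →
        Sim a b (ι x + t • ι y) j := by
      have h3 : Tendsto (fun t : ℝ => ι x + t • ι y) (𝓝 0) (𝓝 (ι x)) := by
        have h4 : Continuous fun t : ℝ => ι x + t • ι y := by fun_prop
        have h5 := h4.tendsto 0
        rwa [zero_smul, add_zero] at h5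
      exact h3.eventually hsimo
    filter_upwards [h1, h2] with t h1 h2 e' E' hE'
    have e1 : ι (x + t • y) = ι x + t • ι y := by rw [map_add, map_smul]
    have h3 := hbad _ h1.1
    have h4 : ι (x + t • y) ∈ GoodS μ i a b (insert 0 J₁) := h1.2
    rw [e1] at h3 h4
    refine rel hj₀' (fun hI => h3 ⟨?_, fun e'' E'' hE'' => ?_⟩) (h4.2 e' E' hE')
    · intro j hj hj0
      rw [Finset.insert_comm] at hj
      exact h2 j hj hj0
    · rw [Finset.insert_comm]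
      exact ind_congr hS hB h2 hE' hE'' hI

end Pool.Agent.Q233.GLV
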