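import Pool.Agent.Q101.QGForm

/-!
# Generic levels: simple eigenvalues of a pair of forms
-/

set_option autoImplicit false
set_option linter.unusedSectionVars false

open Set Filter Topology
open Pool.Agent.Y262.QE
open Q101.QG (EV)

noncomputable section

namespace Pool.Agent.Q233.GLV

variable {H : Type} [NormedAddCommGroup H] [InnerProductSpace ℝ H]
  {a b : H →L[ℝ] H →L[ℝ] ℝ} {e : ℕ → H} {E : ℕ → ℝ}

lemma E_nonneg (hF : Fm a b) (hE : Eg a b e E) (l : ℕ) : 0 ≤ E l := by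
  have h1 := hF.na (e l)
  rw [hE.eig, hE.orth, if_pos rfl, mul_one] at h1
  exact h1

/-- `a - E j b` is invertible transversally to a simple eigenvector -/
theorem inv (hF : Fm a b) (hE : Eg a b e E) {j : ℕ} (hs : ∀ l, l ≠ j → E l ≠ E j) :
    ∃ C : ℝ, 0 < C ∧ ∀ (g : H) (ε : ℝ), 0 ≤ ε → (∀ ψ, |a g ψ - E j * b g ψ| ≤ ε * ‖ψ‖) →
      ‖g‖ ≤ C * (ε + |b g (e j)|) := by
  obtain ⟨N, γ, hγ, hN, hg⟩ := Q101.QG.gap E hE.tt j
  obtain ⟨c, hc, hco⟩ := hF.co
  have hE0 := E_nonneg hF hE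
  obtain ⟨C₁, hC₁⟩ : ∃ C₁ : ℝ, C₁ = 1 + (E j + 1) / γ := ⟨_, rfl⟩
  have hEj := hE0 j
  have hC₁0 : 0 < C₁ := by rw [hC₁]; positivity
  have h1 : ∀ l, l ≠ j → E l + 1 ≤ C₁ * |E l - E j| := by
    intro l hl
    have h2 := hg l (hs l hl)
    have h3 := le_abs_self (E l - E j)
    have h4 : E j + 1 ≤ (E j + 1) / γ * |E l - E j| := by
      calc E j + 1 = (E j + 1) / γ * γ := by field_simp
        _ ≤ _ := mul_le_mul_of_nonneg_left h2 (by positivity)
    rw [hC₁, add_mul, one_mul]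
    linarith
  obtain ⟨K, hK⟩ : ∃ K : ℝ, K = (E j + 1) * (C₁ ^ 2 / c + 1) := ⟨_, rfl⟩
  have hK0 : 0 < K := by rw [hK]; positivity
  obtain ⟨C, hC⟩ : ∃ C : ℝ, C = (K + 1) / c + 1 := ⟨_, rfl⟩
  have hC1 : 1 ≤ C := by
    rw [hC]
    have : 0 < (K + 1) / c := by positivity
    linarith
  refine ⟨C, by linarith, fun g ε hε hgψ => ?_⟩
  have hF1 : ∀ F : Finset ℕ, j ∉ F → ∑ l ∈ F, (b g (e l)) ^ 2 ≤ C₁ ^ 2 * ε ^ 2 / c := by
    intro F hjF
    obtain ⟨s, hsdef⟩ : ∃ s : ℕ → ℝ, s = fun l => if E j ≤ E l then 1 else -1 := ⟨_, rfl⟩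
    have hs1 : ∀ l, s l * (E l - E j) = |E l - E j| := by
      intro l
      rw [hsdef]
      simp only
      split_ifs with h
      · rw [one_mul, abs_of_nonneg (by linarith)]
      · rw [neg_one_mul, abs_of_neg (by linarith [not_le.1 h])]
    have hs2 : ∀ l, s l ^ 2 = 1 := by
      intro l
      rw [hsdef]
      simp only
      split_ifs <;> norm_num
    obtain ⟨ψ, hψ⟩ : ∃ ψ : H, ψ = ∑ l ∈ F, (s l * b g (e l)) • e l := ⟨_, rfl⟩
    have e1 : a g ψ - E j * b g ψ = ∑ l ∈ F, |E l - E j| * (b g (e l)) ^ 2 := by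
      rw [hψ, map_sum, map_sum, Finset.mul_sum, ← Finset.sum_sub_distrib]
      refine Finset.sum_congr rfl fun l _ => ?_
      rw [map_smul, map_smul, smul_eq_mul, smul_eq_mul, hF.sa g (e l), hE.eig, hF.sb (e l) g,
        ← hs1]
      ring
    have e2 : a ψ ψ + b ψ ψ = ∑ l ∈ F, (E l + 1) * (b g (e l)) ^ 2 := by
      have e3 : ∀ l ∈ F, b (e l) ψ = s l * b g (e l) := by
        intro l hl
        rw [hψ, map_sum]
        simp only [map_smul, smul_eq_mul, hE.orth]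
        simp [hl]
      have e4 : a ψ ψ = ∑ l ∈ F, E l * (b g (e l)) ^ 2 := by
        have e5 : a ψ ψ = a (∑ l ∈ F, (s l * b g (e l)) • e l) ψ := by rw [← hψ]
        rw [e5, map_sum, sum_apply]
        refine Finset.sum_congr rfl fun l hl => ?_
        rw [map_smul, _root_.smul_apply, smul_eq_mul, hE.eig, e3 l hl]
        calc s l * b g (e l) * (E l * (s l * b g (e l))) = s l ^ 2 * (E l * (b g (e l)) ^ 2) := by
              ring
          _ = _ := by rw [hs2, one_mul]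
      have e6 : b ψ ψ = ∑ l ∈ F, (b g (e l)) ^ 2 := by
        have e5 : b ψ ψ = b (∑ l ∈ F, (s l * b g (e l)) • e l) ψ := by rw [← hψ]
        rw [e5, map_sum, sum_apply]
        refine Finset.sum_congr rfl fun l hl => ?_
        rw [map_smul, _root_.smul_apply, smul_eq_mul, e3 l hl]
        calc s l * b g (e l) * (s l * b g (e l)) = s l ^ 2 * (b g (e l)) ^ 2 := by ring
          _ = _ := by rw [hs2, one_mul]
      rw [e4, e6, ← Finset.sum_add_distrib]
      exact Finset.sum_congr rfl fun l _ => by ring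
    obtain ⟨T, hT⟩ : ∃ T : ℝ, T = ∑ l ∈ F, (E l + 1) * (b g (e l)) ^ 2 := ⟨_, rfl⟩
    have hT0 : 0 ≤ T := by
      rw [hT]
      refine Finset.sum_nonneg fun l _ => ?_
      have := hE0 l
      positivity
    have e3 : T ≤ C₁ * (a g ψ - E j * b g ψ) := by
      rw [hT, e1, Finset.mul_sum]
      refine Finset.sum_le_sum fun l hl => ?_
      rw [← mul_assoc]
      exact mul_le_mul_of_nonneg_right (h1 l fun h => hjF (h ▸ hl)) (sq_nonneg _)
    have e4 : T ≤ C₁ * (ε * ‖ψ‖) :=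
      e3.trans (mul_le_mul_of_nonneg_left ((le_abs_self _).trans (hgψ ψ)) hC₁0.le)
    have e5 : c * ‖ψ‖ ^ 2 ≤ T := by
      rw [hT, ← e2]
      exact hco ψ
    have e6 : T ≤ C₁ ^ 2 * ε ^ 2 / c := by
      rw [le_div_iff₀ hc]
      have e7 : T * T ≤ (C₁ * (ε * ‖ψ‖)) * (C₁ * (ε * ‖ψ‖)) :=
        mul_le_mul e4 e4 hT0 (hT0.trans e4)
      rcases hT0.eq_or_lt with h0 | h0
      · rw [← h0, zero_mul]
        positivity
      · have e8 : T * (T * c) ≤ T * (C₁ ^ 2 * ε ^ 2) := by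
          calc T * (T * c) = c * (T * T) := by ring
            _ ≤ c * ((C₁ * (ε * ‖ψ‖)) * (C₁ * (ε * ‖ψ‖))) := mul_le_mul_of_nonneg_left e7 hc.le
            _ = (C₁ ^ 2 * ε ^ 2) * (c * ‖ψ‖ ^ 2) := by ring
            _ ≤ (C₁ ^ 2 * ε ^ 2) * T := mul_le_mul_of_nonneg_left e5 (by positivity)
            _ = _ := by ring
        exact le_of_mul_le_mul_left e8 h0
    refine le_trans ?_ e6
    rw [hT]
    refine Finset.sum_le_sum fun l _ => ?_
    have := hE0 l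
    nlinarith [sq_nonneg (b g (e l))]
  have hb : b g g ≤ C₁ ^ 2 * ε ^ 2 / c + (b g (e j)) ^ 2 := by
    refine hasSum_le_of_sum_le (hE.sum g) fun F => ?_
    by_cases hj : j ∈ F
    · rw [← Finset.sum_erase_add F _ hj]
      have := hF1 (F.erase j) (Finset.notMem_erase j F)
      linarith
    · have := hF1 F hj
      nlinarith [sq_nonneg (b g (e j))]
  have ha : a g g ≤ E j * b g g + ε * ‖g‖ := by
    have := (le_abs_self _).trans (hgψ g)
    linarith
  have hcg := hco g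
  obtain ⟨m, hm⟩ : ∃ m : ℝ, m = ε + |b g (e j)| := ⟨_, rfl⟩
  have hm0 : 0 ≤ m := by rw [hm]; positivity
  have hεm : ε ≤ m := by rw [hm]; linarith [abs_nonneg (b g (e j))]
  have hγm : (b g (e j)) ^ 2 ≤ m ^ 2 := by
    rw [← sq_abs]
    exact pow_le_pow_left₀ (abs_nonneg _) (by rw [hm]; linarith) 2
  have hεm2 : ε ^ 2 ≤ m ^ 2 := pow_le_pow_left₀ hε hεm 2
  have h5 : c * ‖g‖ ^ 2 ≤ K * m ^ 2 + m * ‖g‖ := by
    have h6 : b g g ≤ (C₁ ^ 2 / c + 1) * m ^ 2 := by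
      calc b g g ≤ C₁ ^ 2 * ε ^ 2 / c + (b g (e j)) ^ 2 := hb
        _ ≤ C₁ ^ 2 * m ^ 2 / c + m ^ 2 := by gcongr
        _ = _ := by ring
    have h7 : (E j + 1) * b g g ≤ K * m ^ 2 := by
      rw [hK, mul_assoc]
      exact mul_le_mul_of_nonneg_left h6 (by linarith)
    have h8 : ε * ‖g‖ ≤ m * ‖g‖ := mul_le_mul_of_nonneg_right hεm (norm_nonneg _)
    linarith
  rw [← hm]
  by_contra hcon
  push Not at hcon
  have h6 : 0 < ‖g‖ := lt_of_le_of_lt (by positivity) hcon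
  have h7 : (K + 1) ≤ c * C := by
    rw [hC]
    have : c * ((K + 1) / c + 1) = K + 1 + c := by field_simp
    linarith
  have h8 : m * (C * ‖g‖) ≤ ‖g‖ * ‖g‖ := by
    calc m * (C * ‖g‖) = (C * m) * ‖g‖ := by ring
      _ ≤ ‖g‖ * ‖g‖ := mul_le_mul_of_nonneg_right hcon.le h6.le
  have h9 : m ≤ ‖g‖ := by nlinarith
  have h10 : K * m ^ 2 + m * ‖g‖ ≤ (K + 1) * (m * ‖g‖) := by
    have : m ^ 2 ≤ m * ‖g‖ := by nlinarith
    nlinarith
  rcases hm0.eq_or_lt with h0 | h0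
  · rw [← h0] at h10 h5
    nlinarith [pow_pos h6 2]
  · have h11 : (K + 1) * (m * ‖g‖) < c * ‖g‖ ^ 2 := by
      calc (K + 1) * (m * ‖g‖) ≤ (c * C) * (m * ‖g‖) :=
            mul_le_mul_of_nonneg_right h7 (by positivity)
        _ = c * (C * m) * ‖g‖ := by ring
        _ < c * ‖g‖ * ‖g‖ := by
            refine mul_lt_mul_of_pos_right ?_ h6
            exact mul_lt_mul_of_pos_left hcon hc
        _ = _ := by ring
    linarith

end Pool.Agent.Q233.GLV
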