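import Pool.Agent.Q233.CPC.Surf

/-!
# Generic levels: oscillating functions in the plane
-/

set_option autoImplicit false
set_option linter.unusedSectionVars false

open Set Filter Topology MeasureTheory
open scoped ContDiff FourierTransform
open Pool.Agent.Y262.QE

noncomputable section

namespace Pool.Agent.Q233.GLV

/-- the Riemann-Lebesgue lemma -/
lemma rl {g : ℂ → ℝ} (hg : Integrable g) {k : ℕ → ℝ} (hk : Tendsto k atTop atTop) :
    Tendsto (fun n => ∫ z, g z * Real.sin (k n * z.re)) atTop (𝓝 0) ∧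
    Tendsto (fun n => ∫ z, g z * Real.cos (k n * z.re)) atTop (𝓝 0) := by
  have hi1 : ∀ n, Integrable fun z : ℂ => g z * Real.cos (k n * z.re) := fun n =>
    hg.mul_bdd (c := 1) (by fun_prop) (Eventually.of_forall fun z => by
      rw [Real.norm_eq_abs]; exact Real.abs_cos_le_one _)
  have hi2 : ∀ n, Integrable fun z : ℂ => g z * Real.sin (k n * z.re) := fun n =>
    hg.mul_bdd (c := 1) (by fun_prop) (Eventually.of_forall fun z => by
      rw [Real.norm_eq_abs]; exact Real.abs_sin_le_one _)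
  have hw : Tendsto (fun n => ((-(k n / (2 * Real.pi)) : ℝ) : ℂ)) atTop (cocompact ℂ) := by
    rw [← Metric.cobounded_eq_cocompact, ← tendsto_norm_atTop_iff_cobounded]
    simp only [Complex.norm_real, norm_neg]
    exact tendsto_norm_atTop_atTop.comp (hk.atTop_div_const (by positivity))
  have h1 := (tendsto_integral_exp_inner_smul_cocompact (fun z : ℂ => (g z : ℂ))).comp hw
  have h2 : ∀ n, (∫ v : ℂ, Real.fourierChar (-(inner ℝ v ((-(k n / (2 * Real.pi)) : ℝ) : ℂ))) •
      ((g v : ℂ))) = ((∫ z, g z * Real.cos (k n * z.re) : ℝ) : ℂ) +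
        ((∫ z, g z * Real.sin (k n * z.re) : ℝ) : ℂ) * Complex.I := by
    intro n
    have e1 : ∀ v : ℂ, Real.fourierChar (-(inner ℝ v ((-(k n / (2 * Real.pi)) : ℝ) : ℂ))) •
        ((g v : ℂ)) = ((g v * Real.cos (k n * v.re) : ℝ) : ℂ) +
        ((g v * Real.sin (k n * v.re) : ℝ) : ℂ) * Complex.I := by
      intro v
      have e2 : ∀ r : ℝ, (inner ℝ v ((r : ℝ) : ℂ)) = r * v.re := by
        intro r
        rw [Complex.inner]
        simp [mul_comm]
      rw [e2, Circle.smul_def, Real.fourierChar_apply]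
      have e3 : ((2 * Real.pi * -(-(k n / (2 * Real.pi)) * v.re) : ℝ) : ℂ) =
          ((k n * v.re : ℝ) : ℂ) := by
        congr 1
        field_simp
      rw [e3, Complex.exp_mul_I, ← Complex.ofReal_cos, ← Complex.ofReal_sin, smul_eq_mul]
      push_cast
      ring
    simp only [e1]
    rw [integral_add (hi1 n).ofReal ((hi2 n).ofReal.mul_const _), integral_mul_const,
      integral_complex_ofReal, integral_complex_ofReal]
  have h3 : Tendsto (fun n => ((∫ z, g z * Real.cos (k n * z.re) : ℝ) : ℂ) +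
        ((∫ z, g z * Real.sin (k n * z.re) : ℝ) : ℂ) * Complex.I) atTop (𝓝 0) := by
    refine h1.congr fun n => ?_
    exact h2 n
  constructor
  · have h4 := (Complex.continuous_im.tendsto 0).comp h3
    simpa [Function.comp_def] using h4
  · have h4 := (Complex.continuous_re.tendsto 0).comp h3
    simpa [Function.comp_def] using h4

/-- the oscillating function -/
def fo (a : ℂ → ℝ) (N : ℝ) (z : ℂ) : ℝ := a z * (Real.cos (N * z.re) / N)

lemma fo_smooth {a : ℂ → ℝ} (ha : ContDiff ℝ ∞ a) (N : ℝ) : ContDiff ℝ ∞ (fo a N) := by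
  unfold fo
  refine ha.mul (ContDiff.div_const ?_ N)
  exact Real.contDiff_cos.comp (contDiff_const.mul Complex.reCLM.contDiff)

lemma fo_der {a : ℂ → ℝ} (ha : ContDiff ℝ ∞ a) {N : ℝ} (hN : N ≠ 0) (z v : ℂ) :
    fderiv ℝ (fo a N) z v =
      -(a z * Real.sin (N * z.re)) * v.re + Real.cos (N * z.re) / N * fderiv ℝ a z v := by
  have h1 : HasFDerivAt a (fderiv ℝ a z) z :=
    (ha.differentiable (by simp)).differentiableAt.hasFDerivAt
  have h2 : HasFDerivAt (fun w : ℂ => N * w.re) (N • Complex.reCLM) z :=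
    (Complex.reCLM.hasFDerivAt (x := z)).const_mul N
  have h3 : HasFDerivAt (fun w : ℂ => Real.cos (N * w.re)) (-Real.sin (N * z.re) • N • Complex.reCLM)
      z := h2.cos
  have h4 : HasFDerivAt (fun w : ℂ => Real.cos (N * w.re) / N)
      (N⁻¹ • (-Real.sin (N * z.re) • N • Complex.reCLM)) z := by
    simp only [div_eq_inv_mul]
    exact h3.const_mul N⁻¹
  have h5 : HasFDerivAt (fo a N) _ z := h1.mul h4
  rw [h5.fderiv]
  simp only [add_apply, smul_apply, smul_eq_mul, Complex.reCLM_apply]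
  field_simp

/-- the Laplacian in the plane -/
def lap (f : ℂ → ℝ) (z : ℂ) : ℝ :=
  fderiv ℝ (fun w => fderiv ℝ f w 1) z 1 +
    fderiv ℝ (fun w => fderiv ℝ f w Complex.I) z Complex.I

lemma dir_smooth {f : ℂ → ℝ} (hf : ContDiff ℝ ∞ f) (v : ℂ) :
    ContDiff ℝ ∞ (fun w => fderiv ℝ f w v) :=
  (hf.fderiv_right (m := ∞) (by simp)).clm_apply contDiff_const

lemma lap_cont {f : ℂ → ℝ} (hf : ContDiff ℝ ∞ f) : Continuous (lap f) :=
  (dir_smooth (dir_smooth hf 1) 1).continuous.add
    (dir_smooth (dir_smooth hf Complex.I) Complex.I).continuous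

lemma off_fderiv {K : Set ℂ} (hK : IsClosed K) {f : ℂ → ℝ} (h0 : ∀ z, z ∉ K → f z = 0) {z : ℂ}
    (hz : z ∉ K) : fderiv ℝ f z = 0 := by
  have h1 : f =ᶠ[𝓝 z] fun _ => (0 : ℝ) := by
    filter_upwards [hK.isOpen_compl.mem_nhds hz] with y hy
    exact h0 y hy
  rw [h1.fderiv_eq]
  exact fderiv_const_apply 0

lemma lap_off {K : Set ℂ} (hK : IsClosed K) {f : ℂ → ℝ} (h0 : ∀ z, z ∉ K → f z = 0) {z : ℂ}
    (hz : z ∉ K) : lap f z = 0 := by
  unfold lap
  have h1 : ∀ v : ℂ, ∀ w, w ∉ K → fderiv ℝ f w v = 0 := fun v w hw => by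
    rw [off_fderiv hK h0 hw]; simp
  rw [off_fderiv hK (h1 1) hz, off_fderiv hK (h1 Complex.I) hz]
  simp

/-- integration by parts -/
lemma ibp_lap {K O : Set ℂ} (hK : IsCompact K) (hO : IsOpen O) (hKO : K ⊆ O) {f G : ℂ → ℝ}
    (hf : ContDiff ℝ ∞ f) (h0 : ∀ z, z ∉ K → f z = 0) (hG : ContDiffOn ℝ 1 G O) :
    ∫ z in K, (fderiv ℝ f z 1 * fderiv ℝ G z 1 + fderiv ℝ f z Complex.I * fderiv ℝ G z Complex.I) =
      ∫ z in K, -(lap f z) * G z := by
  have h1 : ∀ v : ℂ, ∀ w, w ∉ K → fderiv ℝ f w v = 0 := fun v w hw => by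
    rw [off_fderiv hK.isClosed h0 hw]; simp
  have h2 : ∀ v : ℂ, ∫ z in K, (fderiv ℝ (fun w => fderiv ℝ f w v) z v * G z +
      fderiv ℝ f z v * fderiv ℝ G z v) = 0 := by
    intro v
    refine CPC.ibp0 hK hO hKO (P := fun w => fderiv ℝ f w v)
      (P' := fderiv ℝ (fun w => fderiv ℝ f w v))
      (fun z => ((dir_smooth hf v).differentiable (by simp)).differentiableAt.hasFDerivAt)
      (fun u => (dir_smooth (dir_smooth hf v) u).continuous) (h1 v) hG v
  have hGc : ContinuousOn G K := hG.continuousOn.mono hKO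
  have hGd : ∀ v : ℂ, ContinuousOn (fun z => fderiv ℝ G z v) K := fun v =>
    ((hG.continuousOn_fderiv_of_isOpen hO le_rfl).mono hKO).clm_apply continuousOn_const
  have i1 : ∀ v : ℂ, IntegrableOn (fun z => fderiv ℝ (fun w => fderiv ℝ f w v) z v * G z +
      fderiv ℝ f z v * fderiv ℝ G z v) K := fun v =>
    ((((dir_smooth (dir_smooth hf v) v).continuous.continuousOn).mul hGc).add
      ((dir_smooth hf v).continuous.continuousOn.mul (hGd v))).integrableOn_compact hK
  have i2 : IntegrableOn (fun z => -(lap f z) * G z) K :=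
    ((lap_cont hf).neg.continuousOn.mul hGc).integrableOn_compact hK
  have i3 : IntegrableOn (fun z => fderiv ℝ f z 1 * fderiv ℝ G z 1 +
      fderiv ℝ f z Complex.I * fderiv ℝ G z Complex.I) K :=
    (((dir_smooth hf 1).continuous.continuousOn.mul (hGd 1)).add
      ((dir_smooth hf Complex.I).continuous.continuousOn.mul
        (hGd Complex.I))).integrableOn_compact hK
  rw [← sub_eq_zero, ← integral_sub i3 i2]
  have h3 : ∀ z, (fderiv ℝ f z 1 * fderiv ℝ G z 1 +
      fderiv ℝ f z Complex.I * fderiv ℝ G z Complex.I) - -(lap f z) * G z =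
      (fderiv ℝ (fun w => fderiv ℝ f w 1) z 1 * G z + fderiv ℝ f z 1 * fderiv ℝ G z 1) +
      (fderiv ℝ (fun w => fderiv ℝ f w Complex.I) z Complex.I * G z +
        fderiv ℝ f z Complex.I * fderiv ℝ G z Complex.I) := by
    intro z
    unfold lap
    ring
  simp only [h3]
  rw [integral_add (i1 1) (i1 Complex.I), h2, h2, add_zero]

end Pool.Agent.Q233.GLV
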