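import Pool.Agent.Q233.GLV.Osc0

/-!
# Generic levels: oscillating functions on a surface
-/

set_option autoImplicit false
set_option linter.unusedSectionVars false

open Set Filter Topology MeasureTheory
open scoped ContDiff
open Pool.Agent.Y262.QE

noncomputable section

namespace Pool.Agent.Q233.GLV

variable {M : Type} [MetricSpace M] [CompactSpace M] [MeasurableSpace M] [BorelSpace M]
  {μ : Measure M} {D : Data M}

/-- the Riemann-Lebesgue lemma on a compact set -/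
lemma rlK {K : Set ℂ} (hK : MeasurableSet K) {g : ℂ → ℝ} (hg : IntegrableOn g K) {k : ℕ → ℝ}
    (hk : Tendsto k atTop atTop) :
    Tendsto (fun n => ∫ z in K, g z * Real.sin (k n * z.re)) atTop (𝓝 0) ∧
    Tendsto (fun n => ∫ z in K, g z * Real.cos (k n * z.re)) atTop (𝓝 0) := by
  have h1 : Integrable (K.indicator g) := hg.integrable_indicator hK
  obtain ⟨h2, h3⟩ := rl h1 hk
  constructor
  · refine h2.congr fun n => ?_
    rw [← integral_indicator hK]
    refine integral_congr_ae (Eventually.of_forall fun z => ?_)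
    by_cases hz : z ∈ K
    · simp [hz]
    · simp [hz]
  · refine h3.congr fun n => ?_
    rw [← integral_indicator hK]
    refine integral_congr_ae (Eventually.of_forall fun z => ?_)
    by_cases hz : z ∈ K
    · simp [hz]
    · simp [hz]

/-- extension by zero -/
lemma lift_K (S : D.IsSurf μ) {i : Fin D.N} {K : Set ℂ} (hK : IsCompact K) (hs : K ⊆ D.T i)
    {f : ℂ → ℝ} (hf : ContDiff ℝ 1 f) (h0 : ∀ z, z ∉ K → f z = 0) :
    ∃ F : M → ℝ, D.C1 F ∧ (∀ z ∈ D.T i, F (D.ψ i z) = f z) ∧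
      ∀ x, x ∉ D.ψ i '' K → F x = 0 := by
  have hid : (ContinuousLinearMap.id ℝ ℂ).det ≠ 0 := by
    rw [CPC.det_formula]
    simp
  have hinv : ∀ y, (ContinuousLinearMap.id ℝ ℂ).inverse y = y := fun y => by
    have := Pool.Agent.Y708.QE.inv_apply hid y
    simpa using this
  have hts : tsupport f ⊆ K := by
    refine closure_minimal (fun z hz => ?_) hK.isClosed
    by_contra hcon
    exact hz (h0 z hcon)
  obtain ⟨F, h1, h2, h3⟩ := Pool.Agent.Y183.QR.Loc.lift S i hid 0 hK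
    (fun y hy => by rw [hinv, zero_add]; exact hs hy) hf hts
  simp only [hinv, zero_add] at h2 h3
  refine ⟨F, h1, fun z hz => ?_, fun x hx => h3 x hx⟩
  by_cases hzS : z ∈ K
  · exact h2 z hzS
  · rw [h0 z hzS]
    refine h3 _ ?_
    rintro ⟨w, hw, hwz⟩
    have e1 := (Pool.Agent.Y183.QR.Loc.φψ S hz).2
    have e2 := (Pool.Agent.Y183.QR.Loc.φψ S (hs hw)).2
    simp only at hwz
    rw [hwz, e1] at e2
    exact hzS (e2 ▸ hw)

lemma int_KK (S : D.IsSurf μ) {i : Fin D.N} {K : Set ℂ} (hK : IsCompact K) (hs : K ⊆ D.T i)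
    {g : M → ℝ} (hg : AEStronglyMeasurable g μ) (h0 : ∀ x, x ∉ D.ψ i '' K → g x = 0) :
    ∫ x, g x ∂μ = ∫ z in K, g (D.ψ i z) * |(D.A i z).det| := by
  obtain ⟨h1, h2, h3⟩ := Pool.Agent.Y183.QR.Loc.meas_img S i hK.isClosed.measurableSet hs
  have h4 : ∫ x in D.ψ i '' K, g x ∂μ = ∫ z in K, g (D.ψ i z) * |(D.A i z).det| := by
    rw [(Pool.Agent.Y960.QE.int_chart M μ D S i).2 _ h1 h2 g hg, h3]
  rw [← h4]
  exact (setIntegral_eq_integral_of_forall_compl_eq_zero h0).symm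

/-- the gradients in the chart -/
lemma gr_K (S : D.IsSurf μ) {i : Fin D.N} {K : Set ℂ} (hs : K ⊆ D.T i)
    (hc : ∀ z ∈ K, ∃ c : ℝ, ∀ v, ‖D.A i z v‖ = c * ‖v‖) {f : ℂ → ℝ} {F G : M → ℝ}
    (hF : D.C1 F) (hFf : ∀ z ∈ D.T i, F (D.ψ i z) = f z) (hG : D.C1 G) {z : ℂ} (hz : z ∈ K) :
    inner ℝ (D.gr F (D.ψ i z)) (D.gr G (D.ψ i z)) * |(D.A i z).det| =
      fderiv ℝ f z 1 * fderiv ℝ (fun z => G (D.ψ i z)) z 1 +
        fderiv ℝ f z Complex.I * fderiv ℝ (fun z => G (D.ψ i z)) z Complex.I := by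
  obtain ⟨hU, hφ⟩ := Pool.Agent.Y183.QR.Loc.φψ S (hs hz)
  obtain ⟨c, hcz⟩ := hc z hz
  rw [Pool.Agent.Y708.QE.inner_gr S hF hG hU]
  unfold Data.gc
  rw [hφ, CPC.conf_inner (S.det i z (hs hz)) hcz]
  unfold Data.dc
  rw [hφ]
  have he : (fun z => F (D.ψ i z)) =ᶠ[𝓝 z] f := by
    filter_upwards [(S.openT i).mem_nhds (hs hz)] with w hw
    exact hFf w hw
  rw [he.fderiv_eq]

lemma closed_img (S : D.IsSurf μ) {i : Fin D.N} {K : Set ℂ} (hK : IsCompact K) (hs : K ⊆ D.T i) :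
    IsClosed (D.ψ i '' K) :=
  (hK.image_of_continuousOn ((S.contψ i).mono hs)).isClosed

/-- the weighted Dirichlet integral -/
lemma dir_K (S : D.IsSurf μ) {i : Fin D.N} {K : Set ℂ} (hK : IsCompact K) (hs : K ⊆ D.T i)
    (hc : ∀ z ∈ K, ∃ c : ℝ, ∀ v, ‖D.A i z v‖ = c * ‖v‖) {f : ℂ → ℝ} {F G : M → ℝ}
    (hF : D.C1 F) (hFf : ∀ z ∈ D.T i, F (D.ψ i z) = f z)
    (hF0 : ∀ x, x ∉ D.ψ i '' K → F x = 0) (hG : D.C1 G) {g : M → ℝ}
    (hg : AEStronglyMeasurable g μ) :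
    ∫ x, g x * inner ℝ (D.gr F x) (D.gr G x) ∂μ =
      ∫ z in K, g (D.ψ i z) * (fderiv ℝ f z 1 * fderiv ℝ (fun z => G (D.ψ i z)) z 1 +
        fderiv ℝ f z Complex.I * fderiv ℝ (fun z => G (D.ψ i z)) z Complex.I) := by
  have hgF := (Pool.Agent.Y708.QE.gradient M μ D S).1 F hF
  have hgG := (Pool.Agent.Y708.QE.gradient M μ D S).1 G hG
  rw [int_KK S hK hs]
  · refine setIntegral_congr_fun hK.isClosed.measurableSet fun z hz => ?_
    rw [mul_assoc, gr_K S hs hc hF hFf hG hz]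
  · exact hg.mul (hgF.2.1.inner hgG.2.1).aestronglyMeasurable
  · intro x hx
    rw [Pool.Agent.Y268.QR.gr_off S (closed_img S hK hs) hF0 hx, inner_zero_left, mul_zero]

/-- continuous functions with compact support in a chart -/
lemma cont_lift (S : D.IsSurf μ) {i : Fin D.N} {K : Set ℂ} (hK : IsCompact K) (hs : K ⊆ D.T i)
    {w : ℂ → ℝ} (hw : ContinuousOn w (D.T i)) (h0 : ∀ z, z ∉ K → w z = 0) :
    ∃ h : C(M, ℝ), (∀ z ∈ D.T i, h (D.ψ i z) = w z) ∧ ∀ x, x ∉ D.ψ i '' K → h x = 0 := by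
  obtain ⟨F, hF⟩ : ∃ F : M → ℝ, F = (D.U i).indicator fun x => w (D.φ i x) := ⟨_, rfl⟩
  have hT : ∀ x ∈ D.U i, D.φ i x ∈ D.T i := fun x hx => mem_image_of_mem _ hx
  have hoff : ∀ x, x ∉ D.ψ i '' K → F x = 0 := by
    intro x hx
    rw [hF]
    by_cases hxU : x ∈ D.U i
    · rw [indicator_of_mem hxU]
      refine h0 _ fun h => hx ⟨_, h, S.left i x hxU⟩
    · exact indicator_of_notMem hxU _
  have hc : Continuous F := by
    rw [continuous_iff_continuousAt]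
    intro x
    by_cases hxU : x ∈ D.U i
    · have h1 : ContinuousAt (fun x => w (D.φ i x)) x :=
        ContinuousAt.comp (hw.continuousAt ((S.openT i).mem_nhds (hT x hxU)))
          ((S.contφ i).continuousAt ((S.openU i).mem_nhds hxU))
      refine h1.congr ?_
      filter_upwards [(S.openU i).mem_nhds hxU] with y hy
      rw [hF, indicator_of_mem hy]
    · have hx : x ∉ D.ψ i '' K := by
        rintro ⟨z, hz, rfl⟩
        exact hxU (Pool.Agent.Y183.QR.Loc.φψ S (hs hz)).1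
      have h1 : (fun _ : M => (0 : ℝ)) =ᶠ[𝓝 x] F := by
        filter_upwards [(closed_img S hK hs).isOpen_compl.mem_nhds hx] with y hy
        exact (hoff y hy).symm
      exact continuousAt_const.congr h1
  refine ⟨⟨F, hc⟩, fun z hz => ?_, hoff⟩
  obtain ⟨hU, hφ⟩ := Pool.Agent.Y183.QR.Loc.φψ S hz
  show F (D.ψ i z) = w z
  rw [hF, indicator_of_mem hU, hφ]

/-- integrability in the chart -/
lemma integ_K (S : D.IsSurf μ) {i : Fin D.N} {K : Set ℂ} (hK : IsCompact K) (hs : K ⊆ D.T i)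
    {g : M → ℝ} (hgm : StronglyMeasurable g) (hg : Integrable g μ) :
    IntegrableOn (fun z => g (D.ψ i z)) K := by
  obtain ⟨δ, hδ, hδK⟩ : ∃ δ : ℝ, 0 < δ ∧ ∀ z ∈ K, δ ≤ |(D.A i z).det| := by
    rcases K.eq_empty_or_nonempty with hE | hne
    · exact ⟨1, one_pos, fun z hz => by rw [hE] at hz; exact absurd hz (notMem_empty z)⟩
    · obtain ⟨z₀, hz₀, hmin⟩ := hK.exists_isMinOn hne
        ((Pool.Agent.Y960.QE.contDet S i).mono hs)
      exact ⟨_, abs_pos.2 (S.det i z₀ (hs hz₀)), fun z hz => hmin hz⟩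
  have hψ : AEMeasurable (D.ψ i) (volume.restrict K) :=
    ((S.contψ i).mono hs).aemeasurable hK.isClosed.measurableSet
  refine ⟨(hgm.measurable.comp_aemeasurable hψ).aestronglyMeasurable, ?_⟩
  have h1 := (Pool.Agent.Y960.QE.int_chart M μ D S i).1 (fun x => ‖g x‖ₑ) hgm.measurable.enorm
  have h2 : ∫⁻ x in D.U i, ‖g x‖ₑ ∂μ < ⊤ :=
    (setLIntegral_le_lintegral _ _).trans_lt hg.2
  rw [h1] at h2
  have h3 : ∫⁻ z in K, ENNReal.ofReal δ * ‖g (D.ψ i z)‖ₑ ≤
      ∫⁻ z in D.T i, ‖g (D.ψ i z)‖ₑ * ENNReal.ofReal |(D.A i z).det| := by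
    refine le_trans ?_ (lintegral_mono_set hs)
    refine setLIntegral_mono' hK.isClosed.measurableSet fun z hz => ?_
    rw [mul_comm]
    gcongr
    exact hδK z hz
  rw [lintegral_const_mul' _ _ ENNReal.ofReal_ne_top] at h3
  by_contra hcon
  rw [hasFiniteIntegral_iff_enorm, not_lt, top_le_iff] at hcon
  rw [hcon, ENNReal.mul_top (ENNReal.ofReal_pos.2 hδ).ne', top_le_iff] at h3
  exact h2.ne h3

end Pool.Agent.Q233.GLV
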