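import Pool.Agent.Q233.GLV.Osc1

/-!
# Generic levels: a sequence of oscillating functions
-/

set_option autoImplicit false
set_option linter.unusedSectionVars false

open Set Filter Topology MeasureTheory
open scoped ContDiff
open Pool.Agent.Y262.QE

noncomputable section

namespace Pool.Agent.Q233.GLV

variable {M : Type} [MetricSpace M] [CompactSpace M] [MeasurableSpace M] [BorelSpace M]
  {μ : Measure M} {D : Data M}

lemma small_int {K : Set ℂ} {g : ℂ → ℝ} (hg : IntegrableOn g K) {r : ℕ → ℂ → ℝ} {C : ℝ}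
    (hr : ∀ n, Continuous (r n)) (hb : ∀ n z, z ∈ K → |r n z| ≤ C) (hK : MeasurableSet K) :
    Tendsto (fun n : ℕ => ∫ z in K, g z * (r n z * ((n : ℝ) + 1)⁻¹)) atTop (𝓝 0) := by
  have h1 : ∀ n : ℕ, ∫ z in K, g z * (r n z * ((n : ℝ) + 1)⁻¹) =
      (∫ z in K, g z * r n z) * ((n : ℝ) + 1)⁻¹ := by
    intro n
    rw [← integral_mul_const]
    refine integral_congr_ae (Eventually.of_forall fun z => ?_)
    ring
  simp only [h1]
  have h2 : ∀ n : ℕ, |∫ z in K, g z * r n z| ≤ ∫ z in K, |g z| * C := by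
    intro n
    rw [← Real.norm_eq_abs]
    refine norm_integral_le_of_norm_le (hg.abs.mul_const C) ?_
    filter_upwards [ae_restrict_mem hK] with z hz
    rw [Real.norm_eq_abs, abs_mul]
    exact mul_le_mul_of_nonneg_left (hb n z hz) (abs_nonneg _)
  have h3 : Tendsto (fun n : ℕ => (∫ z in K, |g z| * C) * ((n : ℝ) + 1)⁻¹) atTop (𝓝 0) := by
    have := (tendsto_one_div_add_atTop_nhds_zero_nat (𝕜 := ℝ)).const_mul (∫ z in K, |g z| * C)
    simpa [one_div] using this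
  refine squeeze_zero_norm (fun n => ?_) h3
  rw [norm_mul, Real.norm_eq_abs, norm_inv]
  have h4 : ‖((n : ℝ) + 1)‖ = (n : ℝ) + 1 := by
    rw [Real.norm_eq_abs]
    exact abs_of_pos (by positivity)
  rw [h4]
  exact mul_le_mul_of_nonneg_right (h2 n) (by positivity)

theorem osc (S : D.IsSurf μ) {i : Fin D.N}
    (hc : ∀ z ∈ D.T i, ∃ c : ℝ, ∀ v, ‖D.A i z v‖ = c * ‖v‖) {K : Set ℂ} (hK : IsCompact K)
    (hs : K ⊆ D.T i) {a : ℂ → ℝ} (ha : ContDiff ℝ ∞ a) (h0 : ∀ z, z ∉ K → a z = 0) :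
    ∃ (F : ℕ → M → ℝ) (h : ℕ → C(M, ℝ)) (C : ℝ), 0 < C ∧ (∀ n, D.C1 (F n)) ∧
      (∀ n x, |F n x| ≤ C * ((n : ℝ) + 1)⁻¹) ∧ (∀ n x, ‖D.gr (F n) x‖ ≤ C) ∧
      (∀ n G, D.C1 G → ∫ x, h n x * G x ∂μ = ∫ x, inner ℝ (D.gr (F n) x) (D.gr G x) ∂μ) ∧
      (∀ (g : M → ℝ) (u : M → ℝ), Integrable g μ → D.C1 u →
        Tendsto (fun n => ∫ x, g x * inner ℝ (D.gr (F n) x) (D.gr u x) ∂μ) atTop (𝓝 0)) ∧
      ∀ g : M → ℝ, StronglyMeasurable g → Integrable g μ →
        Tendsto (fun n => ∫ x, g x * inner ℝ (D.gr (F n) x) (D.gr (F n) x) ∂μ) atTop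
          (𝓝 (1 / 2 * ∫ z in K, g (D.ψ i z) * (a z) ^ 2)) := by
  have hcK : ∀ z ∈ K, ∃ c : ℝ, ∀ v, ‖D.A i z v‖ = c * ‖v‖ := fun z hz => hc z (hs hz)
  have hKm : MeasurableSet K := hK.isClosed.measurableSet
  have hN : ∀ n : ℕ, ((n : ℝ) + 1) ≠ 0 := fun n => by positivity
  have hN1 : ∀ n : ℕ, (1 : ℝ) ≤ (n : ℝ) + 1 := fun n => by
    have : (0 : ℝ) ≤ n := Nat.cast_nonneg n
    linarith
  have hk : Tendsto (fun n : ℕ => (n : ℝ) + 1) atTop atTop :=
    tendsto_atTop_add_const_right _ _ tendsto_natCast_atTop_atTop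
  have hk2 : Tendsto (fun n : ℕ => 2 * ((n : ℝ) + 1)) atTop atTop :=
    hk.const_mul_atTop (by norm_num)
  have hf0 : ∀ n : ℕ, ∀ z, z ∉ K → fo a ((n : ℝ) + 1) z = 0 := fun n z hz => by
    unfold fo
    rw [h0 z hz, zero_mul]
  have hfs : ∀ n : ℕ, ContDiff ℝ ∞ (fo a ((n : ℝ) + 1)) := fun n => fo_smooth ha _
  choose F hF1 hF2 hF3 using fun n : ℕ => lift_K S hK hs ((hfs n).of_le (by simp)) (hf0 n)
  have hdet : ∀ z ∈ D.T i, |(D.A i z).det| ≠ 0 := fun z hz => (abs_pos.2 (S.det i z hz)).ne'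
  choose h hh1 hh2 using fun n : ℕ => cont_lift S hK hs
    (w := fun z => -(lap (fo a ((n : ℝ) + 1)) z) / |(D.A i z).det|)
    (((lap_cont (hfs n)).neg.continuousOn).div (Pool.Agent.Y960.QE.contDet S i) hdet)
    (fun z hz => by rw [lap_off hK.isClosed (hf0 n) hz, neg_zero, zero_div])
  -- bounds
  obtain ⟨A0, hA0⟩ : ∃ A0 : ℝ, ∀ z, |a z| ≤ A0 := by
    obtain ⟨C, hC⟩ := hK.exists_bound_of_continuousOn ha.continuous.continuousOn
    refine ⟨max C 0, fun z => ?_⟩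
    by_cases hz : z ∈ K
    · exact (hC z hz).trans (le_max_left _ _)
    · rw [h0 z hz, abs_zero]
      exact le_max_right _ _
  have hd : ∀ v : ℂ, ∃ A1 : ℝ, ∀ z, |fderiv ℝ a z v| ≤ A1 := by
    intro v
    obtain ⟨C, hC⟩ := hK.exists_bound_of_continuousOn (dir_smooth ha v).continuous.continuousOn
    refine ⟨max C 0, fun z => ?_⟩
    by_cases hz : z ∈ K
    · exact (hC z hz).trans (le_max_left _ _)
    · rw [off_fderiv hK.isClosed h0 hz]
      simp
  obtain ⟨A1, hA1⟩ := hd 1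
  obtain ⟨A2, hA2⟩ := hd Complex.I
  have hA0p : 0 ≤ A0 := (abs_nonneg _).trans (hA0 0)
  have hA1p : 0 ≤ A1 := (abs_nonneg _).trans (hA1 0)
  have hA2p : 0 ≤ A2 := (abs_nonneg _).trans (hA2 0)
  have hinv : ∀ n : ℕ, ((n : ℝ) + 1)⁻¹ ≤ 1 := fun n => inv_le_one_of_one_le₀ (hN1 n)
  have hinv0 : ∀ n : ℕ, 0 < ((n : ℝ) + 1)⁻¹ := fun n => by positivity
  have hd1 : ∀ n : ℕ, ∀ z, fderiv ℝ (fo a ((n : ℝ) + 1)) z 1 =
      -(a z * Real.sin (((n : ℝ) + 1) * z.re)) +
        Real.cos (((n : ℝ) + 1) * z.re) * fderiv ℝ a z 1 * ((n : ℝ) + 1)⁻¹ := by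
    intro n z
    rw [fo_der ha (hN n)]
    simp only [Complex.one_re, mul_one]
    rw [div_eq_mul_inv]
    ring
  have hd2 : ∀ n : ℕ, ∀ z, fderiv ℝ (fo a ((n : ℝ) + 1)) z Complex.I =
        Real.cos (((n : ℝ) + 1) * z.re) * fderiv ℝ a z Complex.I * ((n : ℝ) + 1)⁻¹ := by
    intro n z
    rw [fo_der ha (hN n)]
    simp only [Complex.I_re, mul_zero, zero_add]
    rw [div_eq_mul_inv]
    ring
  have hb1 : ∀ n : ℕ, ∀ z, |fderiv ℝ (fo a ((n : ℝ) + 1)) z 1| ≤ A0 + A1 := by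
    intro n z
    rw [hd1]
    refine (abs_add_le _ _).trans (add_le_add ?_ ?_)
    · rw [abs_neg, abs_mul]
      calc |a z| * |Real.sin (((n : ℝ) + 1) * z.re)| ≤ A0 * 1 :=
          mul_le_mul (hA0 z) (Real.abs_sin_le_one _) (abs_nonneg _) hA0p
        _ = A0 := mul_one _
    · rw [abs_mul, abs_mul, abs_of_pos (hinv0 n)]
      calc |Real.cos (((n : ℝ) + 1) * z.re)| * |fderiv ℝ a z 1| * ((n : ℝ) + 1)⁻¹ ≤ 1 * A1 * 1 := by
            refine mul_le_mul (mul_le_mul (Real.abs_cos_le_one _) (hA1 z) (abs_nonneg _)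
              zero_le_one) (hinv n) (hinv0 n).le (by positivity)
        _ = A1 := by ring
  have hb2 : ∀ n : ℕ, ∀ z, |fderiv ℝ (fo a ((n : ℝ) + 1)) z Complex.I| ≤ A2 := by
    intro n z
    rw [hd2, abs_mul, abs_mul, abs_of_pos (hinv0 n)]
    calc |Real.cos (((n : ℝ) + 1) * z.re)| * |fderiv ℝ a z Complex.I| * ((n : ℝ) + 1)⁻¹ ≤
        1 * A2 * 1 := by
          refine mul_le_mul (mul_le_mul (Real.abs_cos_le_one _) (hA2 z) (abs_nonneg _)
            zero_le_one) (hinv n) (hinv0 n).le (by positivity)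
      _ = A2 := by ring
  obtain ⟨δ, hδ, hδK⟩ : ∃ δ : ℝ, 0 < δ ∧ ∀ z ∈ K, δ ≤ |(D.A i z).det| := by
    rcases K.eq_empty_or_nonempty with hE | hne
    · exact ⟨1, one_pos, fun z hz => by rw [hE] at hz; exact absurd hz (notMem_empty z)⟩
    · obtain ⟨z₀, hz₀, hmin⟩ := hK.exists_isMinOn hne
        ((Pool.Agent.Y960.QE.contDet S i).mono hs)
      exact ⟨_, abs_pos.2 (S.det i z₀ (hs hz₀)), fun z hz => hmin hz⟩
  obtain ⟨Q, hQ⟩ : ∃ Q : ℝ, Q = ((A0 + A1) ^ 2 + A2 ^ 2) / δ := ⟨_, rfl⟩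
  have hQ0 : 0 ≤ Q := by rw [hQ]; positivity
  obtain ⟨C, hC⟩ : ∃ C : ℝ, C = A0 + Q + 1 := ⟨_, rfl⟩
  have hC0 : 0 < C := by rw [hC]; positivity
  have hself : ∀ n : ℕ, ∀ z ∈ K, fderiv ℝ (fun z => F n (D.ψ i z)) z = fderiv ℝ (fo a ((n : ℝ) + 1)) z := by
    intro n z hz
    have he : (fun z => F n (D.ψ i z)) =ᶠ[𝓝 z] fo a ((n : ℝ) + 1) := by
      filter_upwards [(S.openT i).mem_nhds (hs hz)] with w hw
      exact hF2 n w hw
    exact he.fderiv_eq
  refine ⟨F, h, C, hC0, hF1, ?_, ?_, ?_, ?_, ?_⟩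
  · -- size
    intro n x
    by_cases hx : x ∈ D.ψ i '' K
    · obtain ⟨z, hz, rfl⟩ := hx
      rw [hF2 n z (hs hz)]
      unfold fo
      rw [abs_mul, div_eq_mul_inv, abs_mul, abs_of_pos (hinv0 n)]
      calc |a z| * (|Real.cos (((n : ℝ) + 1) * z.re)| * ((n : ℝ) + 1)⁻¹) ≤
          A0 * (1 * ((n : ℝ) + 1)⁻¹) :=
            mul_le_mul (hA0 z) (mul_le_mul_of_nonneg_right (Real.abs_cos_le_one _) (hinv0 n).le)
              (mul_nonneg (abs_nonneg _) (hinv0 n).le) hA0p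
        _ ≤ C * ((n : ℝ) + 1)⁻¹ := by
            rw [one_mul]
            exact mul_le_mul_of_nonneg_right (by rw [hC]; linarith) (hinv0 n).le
    · rw [hF3 n x hx, abs_zero]
      exact mul_nonneg hC0.le (hinv0 n).le
  · -- the gradient
    intro n x
    by_cases hx : x ∈ D.ψ i '' K
    · obtain ⟨z, hz, rfl⟩ := hx
      have h1 := gr_K S hs hcK (hF1 n) (hF2 n) (hF1 n) hz
      rw [hself n z hz, real_inner_self_eq_norm_sq] at h1
      have h2 : (fderiv ℝ (fo a ((n : ℝ) + 1)) z 1) ^ 2 ≤ (A0 + A1) ^ 2 :=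
        sq_le_sq' (by linarith [(abs_le.1 (hb1 n z)).1]) (abs_le.1 (hb1 n z)).2
      have h3 : (fderiv ℝ (fo a ((n : ℝ) + 1)) z Complex.I) ^ 2 ≤ A2 ^ 2 :=
        sq_le_sq' (by linarith [(abs_le.1 (hb2 n z)).1]) (abs_le.1 (hb2 n z)).2
      have h4 : ‖D.gr (F n) (D.ψ i z)‖ ^ 2 * δ ≤ (A0 + A1) ^ 2 + A2 ^ 2 := by
        calc ‖D.gr (F n) (D.ψ i z)‖ ^ 2 * δ ≤ ‖D.gr (F n) (D.ψ i z)‖ ^ 2 * |(D.A i z).det| :=
              mul_le_mul_of_nonneg_left (hδK z hz) (sq_nonneg _)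
          _ ≤ _ := by rw [h1]; nlinarith
      have h5 : ‖D.gr (F n) (D.ψ i z)‖ ^ 2 ≤ Q := by
        rw [hQ, le_div_iff₀ hδ]
        exact h4
      have h6 : Q ≤ (Q + 1) ^ 2 := by nlinarith
      have h7 : ‖D.gr (F n) (D.ψ i z)‖ ≤ Q + 1 :=
        abs_le_of_sq_le_sq' (h5.trans h6) (by linarith) |>.2
      rw [hC]
      linarith
    · rw [Pool.Agent.Y268.QR.gr_off S (closed_img S hK hs) (hF3 n) hx, norm_zero]
      exact hC0.le
  · -- integration by parts
    intro n G hG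
    have hGc : Continuous G := ((Pool.Agent.Y708.QE.gradient M μ D S).1 G hG).1
    have h1 : ∫ x, h n x * G x ∂μ = ∫ z in K, -(lap (fo a ((n : ℝ) + 1)) z) * G (D.ψ i z) := by
      rw [int_KK S hK hs (g := fun x => h n x * G x)
        ((h n).continuous.mul hGc).aestronglyMeasurable
        (fun x hx => by rw [hh2 n x hx, zero_mul])]
      refine setIntegral_congr_fun hKm fun z hz => ?_
      rw [hh1 n z (hs hz)]
      have h3 := hdet z (hs hz)
      field_simp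
    have h2 := dir_K S hK hs hcK (hF1 n) (hF2 n) (hF3 n) hG (g := fun _ => 1)
      aestronglyMeasurable_const
    simp only [one_mul] at h2
    rw [h1, h2]
    exact (ibp_lap hK (S.openT i) hs (hfs n) (hf0 n) (hG i)).symm
  · -- weak convergence of the gradients
    intro g u hg hu
    obtain ⟨g', hg'm, hgg'⟩ := hg.1
    have hg' : Integrable g' μ := hg.congr hgg'
    have e0 : ∀ n, ∫ x, g x * inner ℝ (D.gr (F n) x) (D.gr u x) ∂μ =
        ∫ x, g' x * inner ℝ (D.gr (F n) x) (D.gr u x) ∂μ := fun n => by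
      refine integral_congr_ae ?_
      filter_upwards [hgg'] with x hx
      rw [hx]
    simp only [e0]
    have hgK := integ_K S hK hs hg'm hg'
    have hud : ∀ v : ℂ, ContinuousOn (fun z => fderiv ℝ (fun z => u (D.ψ i z)) z v) K := fun v =>
      (((hu i).continuousOn_fderiv_of_isOpen (S.openT i) le_rfl).mono hs).clm_apply
        continuousOn_const
    have hbu : ∀ v : ℂ, ∃ U : ℝ, 0 ≤ U ∧ ∀ z ∈ K, |fderiv ℝ (fun z => u (D.ψ i z)) z v| ≤ U := by
      intro v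
      obtain ⟨C, hC⟩ := hK.exists_bound_of_continuousOn (hud v)
      exact ⟨max C 0, le_max_right _ _, fun z hz => (hC z hz).trans (le_max_left _ _)⟩
    have hm1 : IntegrableOn (fun z => g' (D.ψ i z) *
        (a z * fderiv ℝ (fun z => u (D.ψ i z)) z 1)) K := by
      obtain ⟨U, hU0, hU⟩ := hbu 1
      refine Integrable.mul_bdd (c := A0 * U) hgK
        ((ha.continuous.continuousOn.mul (hud 1)).aestronglyMeasurable hKm) ?_
      filter_upwards [ae_restrict_mem hKm] with z hz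
      rw [Real.norm_eq_abs, abs_mul]
      exact mul_le_mul (hA0 z) (hU z hz) (abs_nonneg _) hA0p
    have hm2 : IntegrableOn (fun z => g' (D.ψ i z) *
        (fderiv ℝ a z 1 * fderiv ℝ (fun z => u (D.ψ i z)) z 1 +
          fderiv ℝ a z Complex.I * fderiv ℝ (fun z => u (D.ψ i z)) z Complex.I)) K := by
      obtain ⟨U1, hU10, hU1⟩ := hbu 1
      obtain ⟨U2, hU20, hU2⟩ := hbu Complex.I
      refine Integrable.mul_bdd (c := A1 * U1 + A2 * U2) hgK
        ((((dir_smooth ha 1).continuous.continuousOn.mul (hud 1)).add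
          ((dir_smooth ha Complex.I).continuous.continuousOn.mul
            (hud Complex.I))).aestronglyMeasurable hKm) ?_
      filter_upwards [ae_restrict_mem hKm] with z hz
      rw [Real.norm_eq_abs]
      refine (abs_add_le _ _).trans (add_le_add ?_ ?_)
      · rw [abs_mul]
        exact mul_le_mul (hA1 z) (hU1 z hz) (abs_nonneg _) hA1p
      · rw [abs_mul]
        exact mul_le_mul (hA2 z) (hU2 z hz) (abs_nonneg _) hA2p
    have t1 := (rlK hKm hm1 hk).1
    have t2 := small_int (K := K) hm2 (r := fun n z => Real.cos (((n : ℝ) + 1) * z.re)) (C := 1)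
      (fun n => by fun_prop) (fun n z _ => Real.abs_cos_le_one _) hKm
    have t3 := t1.neg.add t2
    rw [neg_zero, add_zero] at t3
    refine t3.congr fun n => ?_
    rw [dir_K S hK hs hcK (hF1 n) (hF2 n) (hF3 n) hu hg'm.aestronglyMeasurable]
    rw [← integral_neg, ← integral_add]
    · refine setIntegral_congr_fun hKm fun z _ => ?_
      rw [hd1, hd2]
      ring
    · refine (Integrable.mul_bdd (c := 1) hm1 (by fun_prop) (Eventually.of_forall fun z => ?_)).neg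
      rw [Real.norm_eq_abs]
      exact Real.abs_sin_le_one _
    · refine Integrable.mul_bdd (c := 1) hm2 (by fun_prop) (Eventually.of_forall fun z => ?_)
      rw [Real.norm_eq_abs, abs_mul, abs_of_pos (hinv0 n)]
      calc |Real.cos (((n : ℝ) + 1) * z.re)| * ((n : ℝ) + 1)⁻¹ ≤ 1 * 1 :=
          mul_le_mul (Real.abs_cos_le_one _) (hinv n) (hinv0 n).le zero_le_one
        _ = 1 := one_mul _
  · -- weak convergence of the energies
    intro g hgm hg
    have hgK := integ_K S hK hs hgm hg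
    have hm1 : IntegrableOn (fun z => g (D.ψ i z) * (a z) ^ 2) K := by
      refine Integrable.mul_bdd (c := A0 ^ 2) hgK
        (ha.continuous.pow 2).aestronglyMeasurable (Eventually.of_forall fun z => ?_)
      rw [Real.norm_eq_abs, abs_pow]
      exact pow_le_pow_left₀ (abs_nonneg _) (hA0 z) 2
    have t1 := (rlK hKm hm1 hk2).2
    have t2 := small_int (K := K) hgK (C := 2 * A0 * A1 + (A1 ^ 2 + A2 ^ 2))
      (r := fun n z => -2 * (a z * Real.sin (((n : ℝ) + 1) * z.re) *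
        Real.cos (((n : ℝ) + 1) * z.re) * fderiv ℝ a z 1) +
        (Real.cos (((n : ℝ) + 1) * z.re)) ^ 2 * ((fderiv ℝ a z 1) ^ 2 +
          (fderiv ℝ a z Complex.I) ^ 2) * ((n : ℝ) + 1)⁻¹)
      (fun n => by
        have c1 := (dir_smooth ha 1).continuous
        have c2 := (dir_smooth ha Complex.I).continuous
        have c3 := ha.continuous
        fun_prop) (fun n z _ => by
        refine (abs_add_le _ _).trans (add_le_add ?_ ?_)
        · rw [abs_mul, abs_mul, abs_mul, abs_mul, abs_neg, abs_two]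
          calc 2 * (|a z| * |Real.sin (((n : ℝ) + 1) * z.re)| * |Real.cos (((n : ℝ) + 1) * z.re)| *
              |fderiv ℝ a z 1|) ≤ 2 * (A0 * 1 * 1 * A1) := by
                refine mul_le_mul_of_nonneg_left ?_ (by norm_num)
                refine mul_le_mul (mul_le_mul (mul_le_mul (hA0 z) (Real.abs_sin_le_one _)
                  (abs_nonneg _) hA0p) (Real.abs_cos_le_one _) (abs_nonneg _)
                  (by positivity)) (hA1 z) (abs_nonneg _) (by positivity)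
            _ = 2 * A0 * A1 := by ring
        · have q1 : 0 ≤ (Real.cos (((n : ℝ) + 1) * z.re)) ^ 2 := sq_nonneg _
          have q2 : (Real.cos (((n : ℝ) + 1) * z.re)) ^ 2 ≤ 1 := Real.cos_sq_le_one _
          have q3 : (fderiv ℝ a z 1) ^ 2 ≤ A1 ^ 2 :=
            sq_le_sq' (by linarith [(abs_le.1 (hA1 z)).1]) (abs_le.1 (hA1 z)).2
          have q4 : (fderiv ℝ a z Complex.I) ^ 2 ≤ A2 ^ 2 :=
            sq_le_sq' (by linarith [(abs_le.1 (hA2 z)).1]) (abs_le.1 (hA2 z)).2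
          rw [abs_of_nonneg (by positivity)]
          calc (Real.cos (((n : ℝ) + 1) * z.re)) ^ 2 * ((fderiv ℝ a z 1) ^ 2 +
              (fderiv ℝ a z Complex.I) ^ 2) * ((n : ℝ) + 1)⁻¹ ≤ 1 * (A1 ^ 2 + A2 ^ 2) * 1 := by
                refine mul_le_mul (mul_le_mul q2 (add_le_add q3 q4) (by positivity) zero_le_one)
                  (hinv n) (hinv0 n).le (by positivity)
            _ = A1 ^ 2 + A2 ^ 2 := by ring) hKm
    have t3 := ((t1.const_mul (-(1 / 2))).add t2).const_add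
      (1 / 2 * ∫ z in K, g (D.ψ i z) * (a z) ^ 2)
    rw [mul_zero, add_zero, add_zero] at t3
    refine t3.congr fun n => ?_
    rw [dir_K S hK hs hcK (hF1 n) (hF2 n) (hF3 n) (hF1 n) hgm.aestronglyMeasurable]
    have i1 : IntegrableOn (fun z => -(1 / 2) * (g (D.ψ i z) * (a z) ^ 2 *
        Real.cos (2 * ((n : ℝ) + 1) * z.re))) K := by
      refine Integrable.const_mul ?_ _
      refine Integrable.mul_bdd (c := 1) hm1 (by fun_prop) (Eventually.of_forall fun z => ?_)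
      rw [Real.norm_eq_abs]
      exact Real.abs_cos_le_one _
    have i2 : IntegrableOn (fun z => g (D.ψ i z) * ((-2 * (a z * Real.sin (((n : ℝ) + 1) * z.re) *
        Real.cos (((n : ℝ) + 1) * z.re) * fderiv ℝ a z 1) +
        (Real.cos (((n : ℝ) + 1) * z.re)) ^ 2 * ((fderiv ℝ a z 1) ^ 2 +
          (fderiv ℝ a z Complex.I) ^ 2) * ((n : ℝ) + 1)⁻¹) * ((n : ℝ) + 1)⁻¹)) K := by
      have c1 := (dir_smooth ha 1).continuous
      have c2 := (dir_smooth ha Complex.I).continuous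
      have c3 := ha.continuous
      have c4 : Continuous fun z : ℂ => (-2 * (a z * Real.sin (((n : ℝ) + 1) * z.re) *
        Real.cos (((n : ℝ) + 1) * z.re) * fderiv ℝ a z 1) +
        (Real.cos (((n : ℝ) + 1) * z.re)) ^ 2 * ((fderiv ℝ a z 1) ^ 2 +
          (fderiv ℝ a z Complex.I) ^ 2) * ((n : ℝ) + 1)⁻¹) * ((n : ℝ) + 1)⁻¹ := by fun_prop
      obtain ⟨C', hC'⟩ := hK.exists_bound_of_continuousOn c4.continuousOn
      refine Integrable.mul_bdd (c := C') hgK c4.aestronglyMeasurable ?_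
      filter_upwards [ae_restrict_mem hKm] with z hz
      exact hC' z hz
    have i3 : IntegrableOn (fun z => 1 / 2 * (g (D.ψ i z) * (a z) ^ 2)) K := hm1.const_mul _
    have i12 : IntegrableOn (fun z => -(1 / 2) * (g (D.ψ i z) * (a z) ^ 2 *
        Real.cos (2 * ((n : ℝ) + 1) * z.re)) + g (D.ψ i z) * ((-2 * (a z *
        Real.sin (((n : ℝ) + 1) * z.re) *
        Real.cos (((n : ℝ) + 1) * z.re) * fderiv ℝ a z 1) +
        (Real.cos (((n : ℝ) + 1) * z.re)) ^ 2 * ((fderiv ℝ a z 1) ^ 2 +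
          (fderiv ℝ a z Complex.I) ^ 2) * ((n : ℝ) + 1)⁻¹) * ((n : ℝ) + 1)⁻¹)) K := i1.add i2
    rw [← integral_const_mul, ← integral_const_mul, ← integral_add i1 i2,
      ← integral_add i3 i12]
    refine setIntegral_congr_fun hKm fun z hz => ?_
    rw [hself n z hz, hd1, hd2]
    have e1 : Real.cos (2 * ((n : ℝ) + 1) * z.re) = 1 - 2 * (Real.sin (((n : ℝ) + 1) * z.re)) ^ 2 := by
      rw [show 2 * ((n : ℝ) + 1) * z.re = 2 * (((n : ℝ) + 1) * z.re) by ring, Real.cos_two_mul,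
        Real.cos_sq']
      ring
    rw [e1]
    ring

end Pool.Agent.Q233.GLV
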