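import Pool.Agent.Q233.GLV.Osc2
import Pool.Agent.Q233.GLV.Frm

/-!
# Generic levels: oscillating weights in the form domain
-/

set_option autoImplicit false
set_option linter.unusedSectionVars false

open Set Filter Topology MeasureTheory
open Pool.Agent.Y262.QE Pool.Agent.Y264.QR Pool.Agent.Y319.QR Q101.QG

noncomputable section

namespace Pool.Agent.Q233.GLV

section lp

variable {M : Type} [MeasurableSpace M] {μ : Measure M}

lemma mulL {E : Type} [NormedAddCommGroup E] [InnerProductSpace ℝ E] {f : M → ℝ}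
    (hf : AEStronglyMeasurable f μ) {c : ℝ} (hfc : ∀ᵐ x ∂μ, |f x| ≤ c)
    (U : Lp E 2 μ) : ∃ V : Lp E 2 μ, (V : M → E) =ᵐ[μ] (fun x => f x • (U : M → E) x) ∧
      ‖V‖ ≤ c * ‖U‖ := by
  have hmem : MemLp (fun x => f x • (U : M → E) x) 2 μ := by
    refine (Lp.memLp U).of_le_mul (c := c) (hf.smul (Lp.aestronglyMeasurable U)) ?_
    filter_upwards [hfc] with x hx
    rw [norm_smul, Real.norm_eq_abs]
    exact mul_le_mul_of_nonneg_right hx (norm_nonneg _)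
  refine ⟨hmem.toLp _, hmem.coeFn_toLp, ?_⟩
  refine Lp.norm_le_mul_norm_of_ae_le_mul ?_
  filter_upwards [hmem.coeFn_toLp, hfc] with x hx h2
  rw [hx, norm_smul, Real.norm_eq_abs]
  exact mul_le_mul_of_nonneg_right h2 (norm_nonneg _)

lemma mulX {E : Type} [NormedAddCommGroup E] [InnerProductSpace ℝ E] {X : M → E}
    (hX : AEStronglyMeasurable X μ) {c : ℝ} (hXc : ∀ x, ‖X x‖ ≤ c) (u : Lp ℝ 2 μ) :
    ∃ V : Lp E 2 μ, (V : M → E) =ᵐ[μ] (fun x => (u : M → ℝ) x • X x) ∧ ‖V‖ ≤ c * ‖u‖ := by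
  have hmem : MemLp (fun x => (u : M → ℝ) x • X x) 2 μ := by
    refine (Lp.memLp u).of_le_mul (c := c) ((Lp.aestronglyMeasurable u).smul hX) ?_
    refine Eventually.of_forall fun x => ?_
    rw [norm_smul, mul_comm]
    exact mul_le_mul_of_nonneg_right (hXc x) (norm_nonneg _)
  refine ⟨hmem.toLp _, hmem.coeFn_toLp, ?_⟩
  refine Lp.norm_le_mul_norm_of_ae_le_mul ?_
  filter_upwards [hmem.coeFn_toLp] with x hx
  rw [hx, norm_smul, mul_comm]
  exact mul_le_mul_of_nonneg_right (hXc x) (norm_nonneg _)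

/-- the bilinear map of a bounded vector field -/
lemma qex {X : M → ℂ} (hX : AEStronglyMeasurable X μ) {c : ℝ} (hc : 0 ≤ c)
    (hXc : ∀ x, ‖X x‖ ≤ c) : ∃ Q : Lp ℝ 2 μ →L[ℝ] Lp ℂ 2 μ →L[ℝ] ℝ,
      (∀ u G, Q u G = ∫ x, (u : M → ℝ) x * inner ℝ (X x) ((G : M → ℂ) x) ∂μ) ∧
      ∀ u G, |Q u G| ≤ c * ‖u‖ * ‖G‖ := by
  have hi := fun u G => (qbd (μ := μ) hX hc hXc u G).1
  have hb := fun u G => (qbd (μ := μ) hX hc hXc u G).2
  obtain ⟨L, hL⟩ : ∃ L : Lp ℝ 2 μ →ₗ[ℝ] Lp ℂ 2 μ →ₗ[ℝ] ℝ,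
      ∀ u G, L u G = ∫ x, (u : M → ℝ) x * inner ℝ (X x) ((G : M → ℂ) x) ∂μ := by
    refine ⟨LinearMap.mk₂ ℝ (fun u G => ∫ x, (u : M → ℝ) x * inner ℝ (X x) ((G : M → ℂ) x) ∂μ)
      ?_ ?_ ?_ ?_, fun u G => rfl⟩
    · intro u u' G
      rw [← integral_add (hi u G) (hi u' G)]
      refine integral_congr_ae ?_
      filter_upwards [Lp.coeFn_add u u'] with x hx
      rw [hx, Pi.add_apply]
      ring
    · intro s u G
      rw [smul_eq_mul, ← integral_const_mul]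
      refine integral_congr_ae ?_
      filter_upwards [Lp.coeFn_smul s u] with x hx
      rw [hx, Pi.smul_apply, smul_eq_mul]
      ring
    · intro u G G'
      rw [← integral_add (hi u G) (hi u G')]
      refine integral_congr_ae ?_
      filter_upwards [Lp.coeFn_add G G'] with x hx
      rw [hx, Pi.add_apply, inner_add_right]
      ring
    · intro s u G
      rw [smul_eq_mul, ← integral_const_mul]
      refine integral_congr_ae ?_
      filter_upwards [Lp.coeFn_smul s G] with x hx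
      rw [hx, Pi.smul_apply, real_inner_smul_right]
      ring
  refine ⟨L.mkContinuous₂ c fun u G => ?_, fun u G => ?_, fun u G => ?_⟩
  · rw [hL, Real.norm_eq_abs]
    exact hb u G
  · rw [LinearMap.mkContinuous₂_apply, hL]
  · rw [LinearMap.mkContinuous₂_apply, hL]
    exact hb u G

end lp

/-! ### compactness -/

section cpt

variable {M : Type} [MetricSpace M] [CompactSpace M] [MeasurableSpace M] [BorelSpace M]
  {μ : Measure M} [IsFiniteMeasure μ] {H : Type} [NormedAddCommGroup H] [InnerProductSpace ℝ H]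
  {i : H →L[ℝ] Lp ℝ 2 μ} {a : H →L[ℝ] H →L[ℝ] ℝ}

/-- weak convergence to zero and the compact embedding -/
lemma cpt_null (hS : Sf μ i a) {Λ : ℕ → Lp ℝ 2 μ →L[ℝ] ℝ} {C : ℝ} (hC : 0 ≤ C)
    (hb : ∀ n u, |Λ n u| ≤ C * ‖u‖) (h0 : ∀ ψ : H, Tendsto (fun n => Λ n (i ψ)) atTop (𝓝 0))
    {ε : ℝ} (hε : 0 < ε) : ∀ᶠ n in atTop, ∀ ψ : H, |Λ n (i ψ)| ≤ ε * ‖ψ‖ := by
  obtain ⟨C', hwy⟩ := hS.wy
  obtain ⟨η, hη⟩ : ∃ η : ℝ, η = min 1 ((ε / (4 * (C + 1))) ^ 2 / 4) := ⟨_, rfl⟩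
  have hη0 : 0 < η := by rw [hη]; positivity
  have hη1 : η ≤ 1 := by rw [hη]; exact min_le_left _ _
  have hη2 : η * 4 ≤ (ε / (4 * (C + 1))) ^ 2 := by
    have : η ≤ (ε / (4 * (C + 1))) ^ 2 / 4 := by rw [hη]; exact min_le_right _ _
    linarith
  obtain ⟨N, l, -, hl⟩ := hwy η hη0 hη1
  -- a finite net
  obtain ⟨L, hL⟩ : ∃ L : H → (Fin N → ℝ), L = fun ψ p => l p ψ := ⟨_, rfl⟩
  have hbd : TotallyBounded (L '' Metric.closedBall (0 : H) 1) := by
    obtain ⟨R, hR⟩ : ∃ R : ℝ, R = ∑ p, ‖l p‖ := ⟨_, rfl⟩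
    refine (isCompact_closedBall (0 : Fin N → ℝ) R).totallyBounded.subset ?_
    rintro _ ⟨ψ, hψ, rfl⟩
    rw [mem_closedBall_zero_iff] at hψ ⊢
    have hR0 : 0 ≤ R := by rw [hR]; positivity
    rw [pi_norm_le_iff_of_nonneg hR0]
    intro p
    rw [hL]
    simp only
    calc ‖l p ψ‖ ≤ ‖l p‖ * ‖ψ‖ := (l p).le_opNorm ψ
      _ ≤ ‖l p‖ * 1 := mul_le_mul_of_nonneg_left hψ (norm_nonneg _)
      _ = ‖l p‖ := mul_one _
      _ ≤ R := by rw [hR]; exact Finset.single_le_sum (fun p _ => norm_nonneg (l p)) (Finset.mem_univ p)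
  obtain ⟨t, ht1, ht2, ht3⟩ := Metric.finite_approx_of_totallyBounded hbd
    (ε / (4 * (C + 1)) / (N + 1)) (by positivity)
  have hch : ∀ y ∈ t, ∃ ψ : H, ‖ψ‖ ≤ 1 ∧ L ψ = y := by
    intro y hy
    obtain ⟨ψ, hψ, rfl⟩ := ht1 hy
    exact ⟨ψ, by rwa [mem_closedBall_zero_iff] at hψ, rfl⟩
  choose! g hg1 hg2 using hch
  have hev : ∀ᶠ n in atTop, ∀ y ∈ t, |Λ n (i (g y))| ≤ ε / 4 := by
    rw [(ht2).eventually_all]
    intro y _
    have h1 := (h0 (g y)).abs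
    rw [abs_zero] at h1
    filter_upwards [h1.eventually (eventually_lt_nhds (show 0 < ε / 4 by positivity))] with n hn
    exact hn.le
  filter_upwards [hev] with n hn
  have hball : ∀ ψ : H, ‖ψ‖ ≤ 1 → |Λ n (i ψ)| ≤ ε := by
    intro ψ hψ
    have hmem : L ψ ∈ L '' Metric.closedBall (0 : H) 1 :=
      ⟨ψ, by rwa [mem_closedBall_zero_iff], rfl⟩
    obtain ⟨y, hy, hyd⟩ := mem_iUnion₂.1 (ht3 hmem)
    rw [Metric.mem_ball, dist_eq_norm, ← hg2 y hy] at hyd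
    have h1 := hl (ψ - g y)
    have h2 : ∀ p, |l p (ψ - g y)| ≤ ε / (4 * (C + 1)) / (N + 1) := by
      intro p
      have h3 := norm_le_pi_norm (L ψ - L (g y)) p
      rw [Pi.sub_apply, hL] at h3
      simp only at h3
      rw [map_sub, ← Real.norm_eq_abs]
      rw [hL] at hyd
      exact h3.trans hyd.le
    have h3 : ∑ p, (l p (ψ - g y)) ^ 2 ≤ (ε / (4 * (C + 1))) ^ 2 := by
      calc ∑ p, (l p (ψ - g y)) ^ 2 ≤ ∑ _p : Fin N, (ε / (4 * (C + 1)) / (N + 1)) ^ 2 :=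
            Finset.sum_le_sum fun p _ => sq_le_sq' (by linarith [(abs_le.1 (h2 p)).1])
              (abs_le.1 (h2 p)).2
        _ = N * (ε / (4 * (C + 1)) / (N + 1)) ^ 2 := by
            rw [Finset.sum_const, Finset.card_univ, Fintype.card_fin, nsmul_eq_mul]
        _ = (ε / (4 * (C + 1))) ^ 2 * (N / (N + 1) ^ 2) := by
            field_simp
        _ ≤ (ε / (4 * (C + 1))) ^ 2 * 1 := by
            refine mul_le_mul_of_nonneg_left ?_ (sq_nonneg _)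
            rw [div_le_one (by positivity)]
            nlinarith [(Nat.cast_nonneg N : (0 : ℝ) ≤ N)]
        _ = _ := mul_one _
    have h4 : a (ψ - g y) (ψ - g y) ≤ 4 := by
      have h5 := hS.nm (ψ - g y)
      have h6 : ‖ψ - g y‖ ≤ 2 := (norm_sub_le _ _).trans (by linarith [hg1 y hy])
      nlinarith [sq_nonneg ‖i (ψ - g y)‖, norm_nonneg (ψ - g y)]
    have h5 : ‖i (ψ - g y)‖ ^ 2 ≤ (2 * (ε / (4 * (C + 1)))) ^ 2 := by
      have h6 : η * a (ψ - g y) (ψ - g y) ≤ η * 4 := mul_le_mul_of_nonneg_left h4 hη0.le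
      nlinarith [sq_nonneg (ε / (4 * (C + 1)))]
    have h6 : ‖i (ψ - g y)‖ ≤ 2 * (ε / (4 * (C + 1))) :=
      abs_le_of_sq_le_sq' h5 (by positivity) |>.2
    have h7 : |Λ n (i (ψ - g y))| ≤ ε / 2 := by
      refine (hb n _).trans ?_
      calc C * ‖i (ψ - g y)‖ ≤ (C + 1) * (2 * (ε / (4 * (C + 1)))) :=
            mul_le_mul (by linarith) h6 (norm_nonneg _) (by positivity)
        _ = ε / 2 := by field_simp; ring
    have h8 := hn y hy
    have h9 : Λ n (i ψ) = Λ n (i (ψ - g y)) + Λ n (i (g y)) := by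
      rw [← map_add, ← map_add, sub_add_cancel]
    rw [h9]
    exact (abs_add_le _ _).trans (by linarith)
  intro ψ
  rcases eq_or_ne ψ 0 with rfl | hne
  · simp
  · have hn0 : 0 < ‖ψ‖ := norm_pos_iff.2 hne
    have h1 := hball (‖ψ‖⁻¹ • ψ) (by rw [norm_smul, norm_inv, norm_norm, inv_mul_cancel₀ hn0.ne'])
    rw [map_smul, map_smul, smul_eq_mul, abs_mul, abs_of_pos (inv_pos.2 hn0),
      inv_mul_le_iff₀ hn0] at h1
    linarith

end cpt

variable {M : Type} [MetricSpace M] [CompactSpace M] [MeasurableSpace M] [BorelSpace M]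
  {μ : Measure M} [IsFiniteMeasure μ] {D : Data M}

/-- the gradient of a product -/
lemma gr_mul (hD : D.IsSurf μ) {F G : M → ℝ} (hF : D.C1 F) (hG : D.C1 G) :
    D.C1 (fun x => F x * G x) ∧
      ∀ x, D.gr (fun x => F x * G x) x = F x • D.gr G x + G x • D.gr F x := by
  refine ⟨fun i => (hF i).mul (hG i), fun x => ?_⟩
  obtain ⟨i, hi⟩ := Pool.Agent.Y708.QE.pc_ex hD x
  rw [Pool.Agent.Y708.QE.gr_eq hi, Pool.Agent.Y708.QE.gr_eq hi, Pool.Agent.Y708.QE.gr_eq hi]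
  have hU : x ∈ D.U i := hi.1
  have hT : D.φ i x ∈ D.T i := mem_image_of_mem _ hU
  have hdF : DifferentiableAt ℝ (fun z => F (D.ψ i z)) (D.φ i x) :=
    ((hF i).contDiffAt ((hD.openT i).mem_nhds hT)).differentiableAt (by norm_num)
  have hdG : DifferentiableAt ℝ (fun z => G (D.ψ i z)) (D.φ i x) :=
    ((hG i).contDiffAt ((hD.openT i).mem_nhds hT)).differentiableAt (by norm_num)
  have h1 := (hdF.hasFDerivAt.mul hdG.hasFDerivAt).fderiv
  have h2 : D.dc i (fun x => F x * G x) x = F x • D.dc i G x + G x • D.dc i F x := by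
    unfold Data.dc
    have h3 : (fun z => F (D.ψ i z) * G (D.ψ i z)) = (fun z => F (D.ψ i z)) * fun z => G (D.ψ i z) :=
      rfl
    rw [h3, h1, hD.left i x hU]
  unfold Data.gc
  rw [h2, Pool.Agent.Y708.QE.grd_lin]

/-- multiplication by a `C¹` function in the form domain -/
lemma mulH (hD : D.IsSurf μ) {F : M → ℝ} (hF : D.C1 F) {c : ℝ} (hFc : ∀ x, |F x| ≤ c) {c' : ℝ}
    (hX : ∀ x, ‖D.gr F x‖ ≤ c') (v : HF D μ) :
    ∃ w : HF D μ, (w.1.fst : M → ℝ) =ᵐ[μ] (fun x => F x * (v.1.fst : M → ℝ) x) ∧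
      (w.1.snd : M → ℂ) =ᵐ[μ] fun x => F x • (v.1.snd : M → ℂ) x +
        (v.1.fst : M → ℝ) x • D.gr F x := by
  obtain ⟨hden1, hden2⟩ := tDenF M μ D hD
  obtain ⟨F₀, f₀, hF₀, hf₀⟩ := hden2 v.1 v.2
  obtain ⟨hFcont, hgm, -⟩ := (Pool.Agent.Y708.QE.gradient M μ D hD).1 F hF
  have hFm : AEStronglyMeasurable F μ := hFcont.aestronglyMeasurable
  have hc := fun k => gr_mul hD hF (hF₀ k).1
  choose g hg using fun k => hden1 _ (hc k).1
  obtain ⟨V1, hV1, -⟩ := mulL (μ := μ) hFm (Eventually.of_forall hFc) v.1.fst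
  obtain ⟨V2, hV2, -⟩ := mulL (μ := μ) hFm (Eventually.of_forall hFc) v.1.snd
  obtain ⟨V3, hV3, -⟩ := mulX (μ := μ) hgm.aestronglyMeasurable hX v.1.fst
  obtain ⟨T, hT⟩ : ∃ T : WithLp 2 (Lp ℝ 2 μ × Lp ℂ 2 μ), T = WithLp.toLp 2 (V1, V2 + V3) := ⟨_, rfl⟩
  have hT1 : T.fst = V1 := by rw [hT]; rfl
  have hT2 : T.snd = V2 + V3 := by rw [hT]; rfl
  have hn : ∀ x : WithLp 2 (Lp ℝ 2 μ × Lp ℂ 2 μ), ‖x.fst‖ ≤ ‖x‖ ∧ ‖x.snd‖ ≤ ‖x‖ ∧
      ‖x‖ ≤ ‖x.fst‖ + ‖x.snd‖ := by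
    intro x
    have h1 := WithLp.prod_norm_sq_eq_of_L2 x
    refine ⟨?_, ?_, ?_⟩
    · exact abs_le_of_sq_le_sq' (by nlinarith [sq_nonneg ‖x.snd‖]) (norm_nonneg _) |>.2
    · exact abs_le_of_sq_le_sq' (by nlinarith [sq_nonneg ‖x.fst‖]) (norm_nonneg _) |>.2
    · refine abs_le_of_sq_le_sq' ?_ (by positivity) |>.2
      nlinarith [mul_nonneg (norm_nonneg x.fst) (norm_nonneg x.snd)]
  have hlim : Tendsto g atTop (𝓝 T) := by
    rw [tendsto_iff_norm_sub_tendsto_zero] at hf₀ ⊢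
    have h1 : Tendsto (fun k => (2 * |c| + |c'|) * ‖f₀ k - v.1‖) atTop (𝓝 0) := by
      have := hf₀.const_mul (2 * |c| + |c'|)
      rwa [mul_zero] at this
    refine squeeze_zero (fun _ => norm_nonneg _) (fun k => ?_) h1
    obtain ⟨d, hd⟩ : ∃ d : WithLp 2 (Lp ℝ 2 μ × Lp ℂ 2 μ), d = f₀ k - v.1 := ⟨_, rfl⟩
    rw [← hd]
    obtain ⟨W1, hW1, hW1n⟩ := mulL (μ := μ) hFm (Eventually.of_forall hFc) d.fst
    obtain ⟨W2, hW2, hW2n⟩ := mulL (μ := μ) hFm (Eventually.of_forall hFc) d.snd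
    obtain ⟨W3, hW3, hW3n⟩ := mulX (μ := μ) hgm.aestronglyMeasurable hX d.fst
    have hd1 : (d.fst : M → ℝ) =ᵐ[μ] fun x => F₀ k x - (v.1.fst : M → ℝ) x := by
      have : d.fst = (f₀ k).fst - v.1.fst := by rw [hd]; rfl
      rw [this]
      filter_upwards [Lp.coeFn_sub (f₀ k).fst v.1.fst, (hF₀ k).2.2.1] with x h2 h3
      rw [h2, Pi.sub_apply, h3]
    have hd2 : (d.snd : M → ℂ) =ᵐ[μ] fun x => D.gr (F₀ k) x - (v.1.snd : M → ℂ) x := by
      have : d.snd = (f₀ k).snd - v.1.snd := by rw [hd]; rfl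
      rw [this]
      filter_upwards [Lp.coeFn_sub (f₀ k).snd v.1.snd, (hF₀ k).2.2.2] with x h2 h3
      rw [h2, Pi.sub_apply, h3]
    have e1 : (g k - T).fst = W1 := by
      have h2 : (g k - T).fst = (g k).fst - V1 := by rw [← hT1]; rfl
      rw [h2]
      refine Lp.ext ?_
      filter_upwards [Lp.coeFn_sub (g k).fst V1, (hg k).2.1, hV1, hW1, hd1] with x q1 q2 q3 q4 q5
      rw [q1, Pi.sub_apply, q2, q3, q4, q5]
      simp only [smul_eq_mul]
      ring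
    have e2 : (g k - T).snd = W2 + W3 := by
      have h2 : (g k - T).snd = (g k).snd - (V2 + V3) := by rw [← hT2]; rfl
      rw [h2]
      refine Lp.ext ?_
      filter_upwards [Lp.coeFn_sub (g k).snd (V2 + V3), (hg k).2.2, hV2, hW2, hd2, hV3, hW3, hd1,
        Lp.coeFn_add V2 V3, Lp.coeFn_add W2 W3] with x q1 q2 q3 q4 q5 q6 q7 q8 q9 q10
      rw [q1, Pi.sub_apply, q2, q9, q10, Pi.add_apply, Pi.add_apply, q3, q4, q5, q6, q7, q8,
        (hc k).2]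
      simp only [smul_sub, sub_smul]
      abel
    have h3 := (hn (g k - T)).2.2
    rw [e1, e2] at h3
    have h4 := (hn d).1
    have h5 := (hn d).2.1
    have h6 : c ≤ |c| := le_abs_self c
    have h7 : c' ≤ |c'| := le_abs_self c'
    have h8 : ‖W1‖ ≤ |c| * ‖d‖ := hW1n.trans
      ((mul_le_mul_of_nonneg_right h6 (norm_nonneg _)).trans
        (mul_le_mul_of_nonneg_left h4 (abs_nonneg _)))
    have h9 : ‖W2‖ ≤ |c| * ‖d‖ := hW2n.trans
      ((mul_le_mul_of_nonneg_right h6 (norm_nonneg _)).trans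
        (mul_le_mul_of_nonneg_left h5 (abs_nonneg _)))
    have h10 : ‖W3‖ ≤ |c'| * ‖d‖ := hW3n.trans
      ((mul_le_mul_of_nonneg_right h7 (norm_nonneg _)).trans
        (mul_le_mul_of_nonneg_left h4 (abs_nonneg _)))
    have h11 := norm_add_le W2 W3
    linarith
  have hTm : T ∈ HF D μ := by
    refine IsClosed.mem_of_tendsto (s := (HF D μ : Set _)) ?_ hlim
      (Eventually.of_forall fun k => (hg k).1)
    exact Submodule.isClosed_topologicalClosure _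
  refine ⟨⟨T, hTm⟩, ?_, ?_⟩
  · show (T.fst : M → ℝ) =ᵐ[μ] _
    rw [hT1]
    filter_upwards [hV1] with x hx
    rw [hx, smul_eq_mul]
  · show (T.snd : M → ℂ) =ᵐ[μ] _
    rw [hT2]
    filter_upwards [Lp.coeFn_add V2 V3, hV2, hV3] with x h1 h2 h3
    rw [h1, Pi.add_apply, h2, h3]

end Pool.Agent.Q233.GLV
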