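import Pool.Agent.Q233.GLV.Osc3

/-!
# Generic levels: the oscillating weights
-/

set_option autoImplicit false
set_option linter.unusedSectionVars false

open Set Filter Topology MeasureTheory
open Pool.Agent.Y262.QE Pool.Agent.Y264.QR Pool.Agent.Y319.QR Q101.QG

noncomputable section

namespace Pool.Agent.Q233.GLV

variable {M : Type} [MetricSpace M] [CompactSpace M] [MeasurableSpace M] [BorelSpace M]
  {μ : Measure M} [IsFiniteMeasure μ] {D : Data M}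

lemma parts_le (x : WithLp 2 (Lp ℝ 2 μ × Lp ℂ 2 μ)) : ‖x.fst‖ ≤ ‖x‖ ∧ ‖x.snd‖ ≤ ‖x‖ := by
  have h1 := WithLp.prod_norm_sq_eq_of_L2 x
  constructor
  · exact abs_le_of_sq_le_sq' (by nlinarith [sq_nonneg ‖x.snd‖]) (norm_nonneg _) |>.2
  · exact abs_le_of_sq_le_sq' (by nlinarith [sq_nonneg ‖x.fst‖]) (norm_nonneg _) |>.2

lemma snd_tend {f : ℕ → WithLp 2 (Lp ℝ 2 μ × Lp ℂ 2 μ)} {v : WithLp 2 (Lp ℝ 2 μ × Lp ℂ 2 μ)}
    (hf : Tendsto f atTop (𝓝 v)) : Tendsto (fun k => (f k).snd) atTop (𝓝 v.snd) := by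
  rw [tendsto_iff_norm_sub_tendsto_zero] at hf ⊢
  exact squeeze_zero (fun _ => norm_nonneg _) (fun k => (parts_le (f k - v)).2) hf

lemma gr_one (hD : D.IsSurf μ) (x : M) : D.gr (fun _ => (1 : ℝ)) x = 0 := by
  obtain ⟨i, hi⟩ := Pool.Agent.Y708.QE.pc_ex hD x
  rw [Pool.Agent.Y708.QE.gr_eq hi]
  unfold Data.gc Data.dc
  have h1 : fderiv ℝ (fun _ : ℂ => (1 : ℝ)) (D.φ i x) = 0 := fderiv_const_apply 1
  rw [h1]
  unfold grd
  apply Complex.ext <;> simp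

theorem osc_main (hD : D.IsSurf μ) {i : HF D μ →L[ℝ] Lp ℝ 2 μ}
    {a : HF D μ →L[ℝ] HF D μ →L[ℝ] ℝ} {b : C(M, ℝ) → HF D μ →L[ℝ] HF D μ →L[ℝ] ℝ}
    (hS : Sf μ i a) (hi : ∀ v, i v = v.1.fst) (ha : ∀ u v, a u v = inner ℝ u.1.snd v.1.snd)
    (hB : IsB μ i b) {F : ℕ → M → ℝ} {h : ℕ → C(M, ℝ)} {C : ℝ} (H0 : 0 < C)
    (H1 : ∀ n, D.C1 (F n)) (H2 : ∀ n x, |F n x| ≤ C * ((n : ℝ) + 1)⁻¹)
    (H3 : ∀ n x, ‖D.gr (F n) x‖ ≤ C)
    (H4 : ∀ n G, D.C1 G → ∫ x, h n x * G x ∂μ = ∫ x, inner ℝ (D.gr (F n) x) (D.gr G x) ∂μ)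
    (H5 : ∀ (g : M → ℝ) (u : M → ℝ), Integrable g μ → D.C1 u →
        Tendsto (fun n => ∫ x, g x * inner ℝ (D.gr (F n) x) (D.gr u x) ∂μ) atTop (𝓝 0))
    {Ω : (M → ℝ) → ℝ}
    (H6 : ∀ g : M → ℝ, StronglyMeasurable g → Integrable g μ →
        Tendsto (fun n => ∫ x, g x * inner ℝ (D.gr (F n) x) (D.gr (F n) x) ∂μ) atTop (𝓝 (Ω g))) :
    (∀ n, ∫ x, h n x ∂μ = 0) ∧ (∀ v v', Tendsto (fun n => kf b (h n) v v') atTop (𝓝 0)) ∧
      (∀ n v v', |kf b (h n) v v'| ≤ 2 * C * ‖v‖ * ‖v'‖) ∧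
      ∃ w : ℕ → HF D μ → HF D μ, (∀ n v, ‖i (w n v)‖ ≤ C * ((n : ℝ) + 1)⁻¹ * ‖v‖) ∧
        (∀ v, ∀ ε : ℝ, 0 < ε → ∀ᶠ n in atTop, ∀ ψ,
          |kf b (h n) v ψ - a (w n v) ψ| ≤ ε * ‖ψ‖) ∧
        ∀ v, Tendsto (fun n => kf b (h n) v (w n v)) atTop (𝓝 (Ω fun x => (i v x) ^ 2)) := by
  obtain ⟨hden1, hden2⟩ := tDenF M μ D hD
  have hXm : ∀ n, AEStronglyMeasurable (D.gr (F n)) μ := fun n =>
    ((Pool.Agent.Y708.QE.gradient M μ D hD).1 _ (H1 n)).2.1.aestronglyMeasurable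
  have hFm : ∀ n, AEStronglyMeasurable (F n) μ := fun n =>
    ((Pool.Agent.Y708.QE.gradient M μ D hD).1 _ (H1 n)).1.aestronglyMeasurable
  choose Q hQ1 hQ2 using fun n => qex (hXm n) H0.le (H3 n)
  have hfin : ∀ v : HF D μ, ‖v.1.snd‖ ≤ ‖v‖ := fun v => (parts_le v.1).2
  have hinv0 : ∀ n : ℕ, 0 < ((n : ℝ) + 1)⁻¹ := fun n => by positivity
  have hinvt : Tendsto (fun n : ℕ => ((n : ℝ) + 1)⁻¹) atTop (𝓝 0) := by
    have := tendsto_one_div_add_atTop_nhds_zero_nat (𝕜 := ℝ)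
    simpa [one_div] using this
  -- the weight as a sum
  have hP : ∀ n (v ψ : HF D μ), kf b (h n) v ψ = Q n (i v) ψ.1.snd + Q n (i ψ) v.1.snd := by
    intro n v ψ
    obtain ⟨F₀, f₀, hF₀, hf₀⟩ := hden2 v.1 v.2
    obtain ⟨F₁, f₁, hF₁, hf₁⟩ := hden2 ψ.1 ψ.2
    obtain ⟨v₀, hv₀⟩ : ∃ v₀ : ℕ → HF D μ, v₀ = fun k => ⟨f₀ k, (hF₀ k).2.1⟩ := ⟨_, rfl⟩
    obtain ⟨v₁, hv₁⟩ : ∃ v₁ : ℕ → HF D μ, v₁ = fun k => ⟨f₁ k, (hF₁ k).2.1⟩ := ⟨_, rfl⟩
    have t0 : Tendsto v₀ atTop (𝓝 v) := by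
      rw [hv₀]
      exact tendsto_subtype_rng.2 hf₀
    have t1 : Tendsto v₁ atTop (𝓝 ψ) := by
      rw [hv₁]
      exact tendsto_subtype_rng.2 hf₁
    have l1 : Tendsto (fun k => kf b (h n) (v₀ k) (v₁ k)) atTop (𝓝 (kf b (h n) v ψ)) :=
      ((kf b (h n)).continuous₂.tendsto (v, ψ)).comp (t0.prodMk_nhds t1)
    have l2 : Tendsto (fun k => Q n (i (v₀ k)) (v₁ k).1.snd + Q n (i (v₁ k)) (v₀ k).1.snd) atTop
        (𝓝 (Q n (i v) ψ.1.snd + Q n (i ψ) v.1.snd)) := by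
      have s1 : Tendsto (fun k => (v₁ k).1.snd) atTop (𝓝 ψ.1.snd) := by
        rw [hv₁]
        exact snd_tend hf₁
      have s0 : Tendsto (fun k => (v₀ k).1.snd) atTop (𝓝 v.1.snd) := by
        rw [hv₀]
        exact snd_tend hf₀
      refine Tendsto.add ?_ ?_
      · exact ((Q n).continuous₂.tendsto (i v, ψ.1.snd)).comp
          (((i.continuous.tendsto v).comp t0).prodMk_nhds s1)
      · exact ((Q n).continuous₂.tendsto (i ψ, v.1.snd)).comp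
          (((i.continuous.tendsto ψ).comp t1).prodMk_nhds s0)
    refine tendsto_nhds_unique l1 (l2.congr fun k => ?_)
    have hm := gr_mul hD (hF₀ k).1 (hF₁ k).1
    have hi0 : (i (v₀ k) : M → ℝ) =ᵐ[μ] F₀ k := by
      rw [hi, hv₀]
      exact (hF₀ k).2.2.1
    have hi1 : (i (v₁ k) : M → ℝ) =ᵐ[μ] F₁ k := by
      rw [hi, hv₁]
      exact (hF₁ k).2.2.1
    have hs0 : ((v₀ k).1.snd : M → ℂ) =ᵐ[μ] D.gr (F₀ k) := by
      rw [hv₀]
      exact (hF₀ k).2.2.2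
    have hs1 : ((v₁ k).1.snd : M → ℂ) =ᵐ[μ] D.gr (F₁ k) := by
      rw [hv₁]
      exact (hF₁ k).2.2.2
    have e1 : kf b (h n) (v₀ k) (v₁ k) = ∫ x, h n x * (F₀ k x * F₁ k x) ∂μ := by
      rw [kf_apply hB]
      refine integral_congr_ae ?_
      filter_upwards [hi0, hi1] with x q1 q2
      rw [q1, q2]
    rw [e1, H4 n _ hm.1, hQ1, hQ1, ← integral_add (qbd (hXm n) H0.le (H3 n) _ _).1
      (qbd (hXm n) H0.le (H3 n) _ _).1]
    refine integral_congr_ae ?_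
    filter_upwards [hi0, hi1, hs0, hs1] with x q1 q2 q3 q4
    rw [q1, q2, q3, q4, hm.2, inner_add_right, real_inner_smul_right, real_inner_smul_right]
  -- weak convergence
  have hweak : ∀ (u : Lp ℝ 2 μ) (v : HF D μ), Tendsto (fun n => Q n u v.1.snd) atTop (𝓝 0) := by
    intro u v
    obtain ⟨F₀, f₀, hF₀, hf₀⟩ := hden2 v.1 v.2
    rw [Metric.tendsto_atTop]
    intro ε hε
    have h1 := tendsto_iff_norm_sub_tendsto_zero.1 (snd_tend hf₀)
    have h2 : Tendsto (fun k => C * ‖u‖ * ‖(f₀ k).snd - v.1.snd‖) atTop (𝓝 0) := by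
      have := h1.const_mul (C * ‖u‖)
      rwa [mul_zero] at this
    obtain ⟨k, hk⟩ := (h2.eventually (eventually_lt_nhds (show 0 < ε / 2 by positivity))).exists
    have h3 := H5 (u : M → ℝ) (F₀ k) ((Lp.memLp u).integrable (by norm_num)) (hF₀ k).1
    have h4 : ∀ n, ∫ x, (u : M → ℝ) x * inner ℝ (D.gr (F n) x) (D.gr (F₀ k) x) ∂μ =
        Q n u (f₀ k).snd := by
      intro n
      rw [hQ1]
      refine integral_congr_ae ?_
      filter_upwards [(hF₀ k).2.2.2] with x q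
      rw [q]
    simp only [h4] at h3
    obtain ⟨n₀, hn₀⟩ := (Metric.tendsto_atTop.1 h3) (ε / 2) (by positivity)
    refine ⟨n₀, fun n hn => ?_⟩
    have h5 := hn₀ n hn
    rw [dist_zero_right, Real.norm_eq_abs] at h5 ⊢
    have h6 : Q n u v.1.snd = Q n u (f₀ k).snd - Q n u ((f₀ k).snd - v.1.snd) := by
      rw [map_sub]
      ring
    have h7 := hQ2 n u ((f₀ k).snd - v.1.snd)
    rw [h6]
    calc |Q n u (f₀ k).snd - Q n u ((f₀ k).snd - v.1.snd)| ≤ |Q n u (f₀ k).snd| +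
        |Q n u ((f₀ k).snd - v.1.snd)| := abs_sub _ _
      _ < ε := by linarith
  refine ⟨fun n => ?_, fun v v' => ?_, fun n v v' => ?_, ?_⟩
  · have h1 := H4 n (fun _ => 1) fun i => contDiffOn_const
    simp only [mul_one, gr_one hD, inner_zero_right, integral_zero] at h1
    exact h1
  · have h1 := (hweak (i v) v').add (hweak (i v') v)
    rw [add_zero] at h1
    refine h1.congr fun n => ?_
    rw [hP]
  · rw [hP]
    have h1 := hQ2 n (i v) v'.1.snd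
    have h2 := hQ2 n (i v') v.1.snd
    have h3 := mul_le_mul (i_le hS v) (hfin v') (norm_nonneg _) (norm_nonneg _)
    have h4 := mul_le_mul (i_le hS v') (hfin v) (norm_nonneg _) (norm_nonneg _)
    refine (abs_add_le _ _).trans ?_
    nlinarith
  choose w hw1 hw2 using fun (n : ℕ) (v : HF D μ) => mulH hD (H1 n) (H2 n) (H3 n) v
  have hwn : ∀ n v, ‖i (w n v)‖ ≤ C * ((n : ℝ) + 1)⁻¹ * ‖v‖ := by
    intro n v
    have h1 : ‖i (w n v)‖ ≤ C * ((n : ℝ) + 1)⁻¹ * ‖i v‖ := by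
      refine Lp.norm_le_mul_norm_of_ae_le_mul ?_
      have h2 := hw1 n v
      rw [hi, hi]
      filter_upwards [h2] with x hx
      rw [hx, norm_mul, Real.norm_eq_abs]
      exact mul_le_mul_of_nonneg_right (H2 n x) (norm_nonneg _)
    exact h1.trans (mul_le_mul_of_nonneg_left (i_le hS v) (mul_nonneg H0.le (hinv0 n).le))
  refine ⟨w, hwn, fun v ε hε => ?_, fun v => ?_⟩
  · -- the residual
    have h1 := cpt_null hS (Λ := fun n => (Q n).flip v.1.snd) (C := C * ‖v.1.snd‖) (by positivity)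
      (fun n u => by
        rw [ContinuousLinearMap.flip_apply]
        refine (hQ2 n u _).trans (le_of_eq ?_)
        ring)
      (fun ψ => by
        simp only [ContinuousLinearMap.flip_apply]
        exact hweak (i ψ) v) (ε := ε / 2) (by positivity)
    have h2 : Tendsto (fun n : ℕ => C * ((n : ℝ) + 1)⁻¹ * ‖v‖) atTop (𝓝 0) := by
      have := (hinvt.const_mul C).mul_const ‖v‖
      simpa using this
    filter_upwards [h1, h2.eventually (eventually_lt_nhds (show 0 < ε / 2 by positivity))]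
      with n h1 h2 ψ
    have h3 := h1 ψ
    rw [ContinuousLinearMap.flip_apply] at h3
    have hwb := wbd (μ := μ) (hFm n) (c := C * ((n : ℝ) + 1)⁻¹) (mul_nonneg H0.le (hinv0 n).le)
      (Eventually.of_forall (H2 n)) v.1.snd ψ.1.snd
    have e1 : a (w n v) ψ = (∫ x, F n x * inner ℝ ((v.1.snd : M → ℂ) x) ((ψ.1.snd : M → ℂ) x) ∂μ) +
        Q n (i v) ψ.1.snd := by
      rw [ha, L2.inner_def, hQ1, ← integral_add hwb.1 (qbd (hXm n) H0.le (H3 n) _ _).1]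
      refine integral_congr_ae ?_
      filter_upwards [hw2 n v] with x hx
      rw [hx, inner_add_left, real_inner_smul_left, real_inner_smul_left, hi]
    rw [hP, e1]
    have e2 : Q n (i v) ψ.1.snd + Q n (i ψ) v.1.snd -
        ((∫ x, F n x * inner ℝ ((v.1.snd : M → ℂ) x) ((ψ.1.snd : M → ℂ) x) ∂μ) +
          Q n (i v) ψ.1.snd) = Q n (i ψ) v.1.snd -
        ∫ x, F n x * inner ℝ ((v.1.snd : M → ℂ) x) ((ψ.1.snd : M → ℂ) x) ∂μ := by ring
    rw [e2]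
    have h4 : |∫ x, F n x * inner ℝ ((v.1.snd : M → ℂ) x) ((ψ.1.snd : M → ℂ) x) ∂μ| ≤
        ε / 2 * ‖ψ‖ := by
      refine hwb.2.trans ?_
      calc C * ((n : ℝ) + 1)⁻¹ * ‖v.1.snd‖ * ‖ψ.1.snd‖ ≤ C * ((n : ℝ) + 1)⁻¹ * ‖v‖ * ‖ψ‖ :=
            mul_le_mul (mul_le_mul_of_nonneg_left (hfin v) (mul_nonneg H0.le (hinv0 n).le))
              (hfin ψ) (norm_nonneg _)
              (mul_nonneg (mul_nonneg H0.le (hinv0 n).le) (norm_nonneg _))
        _ ≤ ε / 2 * ‖ψ‖ := mul_le_mul_of_nonneg_right h2.le (norm_nonneg _)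
    calc _ ≤ _ := abs_sub _ _
      _ ≤ ε / 2 * ‖ψ‖ + ε / 2 * ‖ψ‖ := add_le_add h3 h4
      _ = ε * ‖ψ‖ := by ring
  · -- the energy
    have hsq : Integrable (fun x => (i v x) ^ 2) μ := (Lp.memLp (i v)).integrable_sq
    have h1 := H6 (fun x => (i v x) ^ 2) ((Lp.stronglyMeasurable (i v)).pow 2) hsq
    have h2 : Tendsto (fun n => Q n (i (w n v)) v.1.snd) atTop (𝓝 0) := by
      have h3 : Tendsto (fun n : ℕ => C * (C * ((n : ℝ) + 1)⁻¹ * ‖v‖) * ‖v.1.snd‖) atTop (𝓝 0) := by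
        have := (((hinvt.const_mul C).mul_const ‖v‖).const_mul C).mul_const ‖v.1.snd‖
        simpa using this
      refine squeeze_zero_norm (fun n => ?_) h3
      rw [Real.norm_eq_abs]
      refine (hQ2 n _ _).trans ?_
      exact mul_le_mul_of_nonneg_right (mul_le_mul_of_nonneg_left (hwn n v) H0.le) (norm_nonneg _)
    have h4 := (h2.add h2).add h1
    rw [add_zero, zero_add] at h4
    refine h4.congr fun n => ?_
    rw [hP]
    have e1 : Q n (i v) (w n v).1.snd = Q n (i (w n v)) v.1.snd +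
        ∫ x, (i v x) ^ 2 * inner ℝ (D.gr (F n) x) (D.gr (F n) x) ∂μ := by
      have i2 : Integrable (fun x => (i v x) ^ 2 * inner ℝ (D.gr (F n) x) (D.gr (F n) x)) μ := by
        refine hsq.mul_bdd (c := C * C) ((hXm n).inner (hXm n)) (Eventually.of_forall fun x => ?_)
        refine (norm_inner_le_norm _ _).trans ?_
        exact mul_le_mul (H3 n x) (H3 n x) (norm_nonneg _) H0.le
      rw [hQ1, hQ1, ← integral_add (qbd (hXm n) H0.le (H3 n) _ _).1 i2]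
      refine integral_congr_ae ?_
      filter_upwards [hw2 n v, hw1 n v] with x hx hx1
      rw [hx, inner_add_right, real_inner_smul_right, real_inner_smul_right, hi, hi, hx1]
      ring
    rw [e1]
    ring

end Pool.Agent.Q233.GLV
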