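import Pool.Agent.Q233.GLV.Gen

/-!
# Generic levels: combinations of levels with one positive coefficient
-/

set_option autoImplicit false

open Set Filter Topology MeasureTheory
open Pool.Agent.Y262.QE Pool.Agent.Y264.QR Pool.Agent.Y319.QR Q101.QG

noncomputable section

namespace Pool.Agent.Q233.GLV

variable {M : Type} [MetricSpace M] [CompactSpace M] [MeasurableSpace M] [BorelSpace M]
  {μ : Measure M} [IsFiniteMeasure μ] {H : Type} [NormedAddCommGroup H] [InnerProductSpace ℝ H]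
  {i : H →L[ℝ] Lp ℝ 2 μ} {a : H →L[ℝ] H →L[ℝ] ℝ} {b : C(M, ℝ) → H →L[ℝ] H →L[ℝ] ℝ}

lemma unshift {G : C(M, ℝ) → ℝ} {φ h : C(M, ℝ)} {t D : ℝ}
    (h1 : HasDerivAt (fun τ : ℝ => G ((φ + t • h) + τ • h)) D 0) :
    HasDerivAt (fun s : ℝ => G (φ + s • h)) D t := by
  have h7 : HasDerivAt (fun τ : ℝ => G ((φ + t • h) + τ • h)) D (t - t) := by
    rw [sub_self]
    exact h1
  have h8 := HasDerivAt.comp_sub_const t t h7
  have h9 : (fun s : ℝ => G ((φ + t • h) + (s - t) • h)) = fun s : ℝ => G (φ + s • h) := by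
    funext s
    rw [add_assoc, ← add_smul]
    congr 3
    ring
  rwa [h9] at h8

/-- the combination of the eigenvalues, multiplied by the area -/
def Fc (μ : Measure M) (a : H →L[ℝ] H →L[ℝ] ℝ) (b : C(M, ℝ) → H →L[ℝ] H →L[ℝ] ℝ) (q : ℕ)
    (J : Finset ℕ) (c : ℕ → ℝ) (φ : C(M, ℝ)) : ℝ :=
  (∫ x, Real.exp (φ x) ∂μ) * (Ev a (b φ) q - ∑ p ∈ J, c p * Ev a (b φ) p)

/-- its derivative -/
def Dc (μ : Measure M) (a : H →L[ℝ] H →L[ℝ] ℝ) (b : C(M, ℝ) → H →L[ℝ] H →L[ℝ] ℝ) (q : ℕ)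
    (J : Finset ℕ) (c : ℕ → ℝ) (h φ : C(M, ℝ)) (m : ℕ → ℝ) : ℝ :=
  (∫ x, h x * Real.exp (φ x) ∂μ) * (Ev a (b φ) q - ∑ p ∈ J, c p * Ev a (b φ) p) -
   (∫ x, Real.exp (φ x) ∂μ) * (m q - ∑ p ∈ J, c p * m p)

lemma fc_cont (hS : Sf μ i a) (hB : IsB μ i b) (q : ℕ) (J : Finset ℕ) (c : ℕ → ℝ) :
    Continuous (Fc μ a b q J c) := by
  obtain ⟨hF, hb, hk⟩ := forms μ i a b hS hB
  obtain ⟨-, -, -, hcont, -⟩ := tLip M μ H a b hF hb
  refine Continuous.mul ?_ ((hcont q).sub (continuous_finset_sum _ fun p _ => (hcont p).const_mul _))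
  exact (Pool.Agent.Y689.QR.int_cont μ).comp Pool.Agent.Y689.QR.exp_cont

lemma der_line (hS : Sf μ i a) (hB : IsB μ i b) (hW : Wl μ a b) (q : ℕ) (J : Finset ℕ)
    (c : ℕ → ℝ) (φ h : C(M, ℝ)) (e : ℝ → ℕ → H) (E : ℝ → ℕ → ℝ)
    (hE : ∀ t, Eg a (b (φ + t • h)) (e t) (E t)) :
    ∀ᵐ t : ℝ, HasDerivAt (fun s : ℝ => Fc μ a b q J c (φ + s • h))
      (Dc μ a b q J c h (φ + t • h)
        fun j => kap μ i h (φ + t • h) (e t j) * Ev a (b (φ + t • h)) j) t := by
  have h1 := (tOneP M μ H i a b hS hB hW φ h e E hE).1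
  filter_upwards [h1] with t h1
  have h2 : HasDerivAt (fun s : ℝ => ∫ x, Real.exp ((φ + s • h) x) ∂μ)
      (∫ x, h x * Real.exp ((φ + t • h) x) ∂μ) t :=
    unshift (G := fun ψ => ∫ x, Real.exp (ψ x) ∂μ) (RSP.der_area (μ := μ) (φ + t • h) h)
  have h3 : HasDerivAt (fun s : ℝ => ∑ p ∈ J, c p * Ev a (b (φ + s • h)) p)
      (∑ p ∈ J, c p * -(kap μ i h (φ + t • h) (e t p) * Ev a (b (φ + t • h)) p)) t := by
    exact HasDerivAt.fun_sum fun p _ => (h1 p).const_mul (c p)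
  have h4 := h2.mul ((h1 q).sub h3)
  refine h4.congr_deriv ?_
  unfold Dc
  simp only [Pi.sub_apply, mul_neg, Finset.sum_neg_distrib]
  ring

lemma dc_lim [CompleteSpace H] (hS : Sf μ i a) (hB : IsB μ i b) (q : ℕ) (J : Finset ℕ)
    (c : ℕ → ℝ) (φ h : C(M, ℝ)) (hs : Same μ i a b φ) (e : ℝ → ℕ → H) (E : ℝ → ℕ → ℝ)
    (hE : ∀ t, Eg a (b (φ + t • h)) (e t) (E t)) {e0 : ℕ → H} {E0 : ℕ → ℝ}
    (hE0 : Eg a (b φ) e0 E0) :
    Tendsto (fun t : ℝ => Dc μ a b q J c h (φ + t • h)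
        fun j => kap μ i h (φ + t • h) (e t j) * Ev a (b (φ + t • h)) j) (𝓝 0)
      (𝓝 (Dc μ a b q J c h φ fun j => kap μ i h φ (e0 j) * Ev a (b φ) j)) := by
  obtain ⟨hF, hb, hk⟩ := forms μ i a b hS hB
  obtain ⟨-, -, -, hcont, hdich⟩ := tLip M μ H a b hF hb
  have hmm : ∀ {φ : C(M, ℝ)} {e : ℕ → H} {E : ℕ → ℝ}, Eg a (b φ) e E → Fm a (b φ) →
      ∀ j, Ev a (b φ) j = E j := fun {φ e E} h hF j =>
    Pool.Agent.Y592.QE.mm H a (b φ) hF e E h j
  have ev_of : ∀ (ψ : C(M, ℝ)) (e : ℕ → H) (E : ℕ → ℝ), Eg a (b ψ) e E →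
      ∀ j, EV a (b ψ) (Ev a (b ψ) j) (e j) := fun ψ e E h j =>
    ⟨fun w => by rw [hmm h (hF ψ), h.eig], by rw [h.orth, if_pos rfl]⟩
  have hline : Tendsto (fun t : ℝ => φ + t • h) (𝓝 0) (𝓝 φ) := by
    have h1 : Continuous fun t : ℝ => φ + t • h := by fun_prop
    have h2 := h1.tendsto 0
    rwa [zero_smul, add_zero] at h2
  have hEvt : ∀ j, Tendsto (fun t : ℝ => Ev a (b (φ + t • h)) j) (𝓝 0) (𝓝 (Ev a (b φ) j)) :=
    fun j => ((hcont j).tendsto φ).comp hline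
  have hA : Tendsto (fun t : ℝ => ∫ x, Real.exp ((φ + t • h) x) ∂μ) (𝓝 0)
      (𝓝 (∫ x, Real.exp (φ x) ∂μ)) := by
    have h1 : Continuous fun ψ : C(M, ℝ) => ∫ x, Real.exp (ψ x) ∂μ :=
      (Pool.Agent.Y689.QR.int_cont μ).comp Pool.Agent.Y689.QR.exp_cont
    exact (h1.tendsto φ).comp hline
  have hA' : Tendsto (fun t : ℝ => ∫ x, h x * Real.exp ((φ + t • h) x) ∂μ) (𝓝 0)
      (𝓝 (∫ x, h x * Real.exp (φ x) ∂μ)) := by
    have h1 : Continuous fun ψ : C(M, ℝ) => ∫ x, h x * Real.exp (ψ x) ∂μ :=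
      (Pool.Agent.Y689.QR.int_cont μ).comp
        (continuous_const.mul Pool.Agent.Y689.QR.exp_cont : Continuous fun φ : C(M, ℝ) =>
          h * (⟨fun x => Real.exp (φ x), Real.continuous_exp.comp φ.continuous⟩ : C(M, ℝ)))
    exact (h1.tendsto φ).comp hline
  have hm : ∀ j, Tendsto (fun t : ℝ => kap μ i h (φ + t • h) (e t j) * Ev a (b (φ + t • h)) j)
      (𝓝 0) (𝓝 (kap μ i h φ (e0 j) * Ev a (b φ) j)) := by
    intro j
    rcases hdich j with h0 | h0
    · simp only [h0, mul_zero]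
      exact tendsto_const_nhds
    · refine Tendsto.mul ?_ (hEvt j)
      rw [Metric.tendsto_nhds]
      intro ε hε
      have h1 := kap_near hS hB j h φ (kap μ i h φ (e0 j)) 0 (ε / 2) (by positivity)
        (fun v hv => by
          rw [hs j (h0 φ) v (e0 j) hv (ev_of φ e0 E0 hE0 j) h, sub_self, abs_zero])
      filter_upwards [hline.eventually h1] with t ht
      have h2 := ht (e t j) (ev_of _ (e t) (E t) (hE t) j)
      rw [Real.dist_eq]
      linarith
  unfold Dc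
  exact (hA'.mul ((hEvt q).sub (tendsto_finsetSum _ fun p _ => (hEvt p).const_mul _))).sub
    (hA.mul ((hm q).sub (tendsto_finsetSum _ fun p _ => (hm p).const_mul _)))

/-- the density of the derivative -/
def Wc (μ : Measure M) (i : H →L[ℝ] Lp ℝ 2 μ) (φ : C(M, ℝ)) (e : ℕ → H) (E : ℕ → ℝ) (q : ℕ)
    (J : Finset ℕ) (c : ℕ → ℝ) (x : M) : ℝ :=
  (E q - ∑ p ∈ J, c p * E p) * Real.exp (φ x) - (∫ x, Real.exp (φ x) ∂μ) *
    (E q * (Real.exp (φ x) * (i (e q) x * i (e q) x)) -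
      ∑ p ∈ J, c p * E p * (Real.exp (φ x) * (i (e p) x * i (e p) x)))

lemma wc_int (φ : C(M, ℝ)) (e : ℕ → H) (E : ℕ → ℝ) (q : ℕ) (J : Finset ℕ) (c : ℕ → ℝ) :
    Integrable (Wc μ i φ e E q J c) μ :=
  ((RSP.exp_int φ).const_mul _).sub ((((RSP.cross_int φ (e q) (e q)).const_mul (E q)).sub
    (integrable_finsetSum _ fun p _ => (RSP.cross_int φ (e p) (e p)).const_mul
      (c p * E p))).const_mul _)

lemma wc_eq (φ : C(M, ℝ)) (e : ℕ → H) (E : ℕ → ℝ) (q : ℕ) (J : Finset ℕ) (c : ℕ → ℝ)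
    (h : C(M, ℝ)) (hE : ∀ j, Ev a (b φ) j = E j) :
    ∫ x, h x * Wc μ i φ e E q J c x ∂μ =
      Dc μ a b q J c h φ fun j => kap μ i h φ (e j) * Ev a (b φ) j := by
  have e2 : ∀ w : H, kap μ i h φ w = ∫ x, h x * (Real.exp (φ x) * (i w x * i w x)) ∂μ := by
    intro w
    unfold kap
    refine integral_congr_ae (Eventually.of_forall fun x => ?_)
    ring
  have q0 := (RSP.cint μ h (RSP.exp_int (μ := μ) φ)).const_mul (E q - ∑ p ∈ J, c p * E p)
  have q1 := (RSP.cint μ h (RSP.cross_int (μ := μ) (i := i) φ (e q) (e q))).const_mul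
    ((∫ x, Real.exp (φ x) ∂μ) * E q)
  have q2 : ∀ p, Integrable (fun x => (∫ x, Real.exp (φ x) ∂μ) * (c p * E p) *
      (h x * (Real.exp (φ x) * (i (e p) x * i (e p) x)))) μ := fun p =>
    (RSP.cint μ h (RSP.cross_int (μ := μ) (i := i) φ (e p) (e p))).const_mul
    ((∫ x, Real.exp (φ x) ∂μ) * (c p * E p))
  have q2s : Integrable (fun x => ∑ p ∈ J, (∫ x, Real.exp (φ x) ∂μ) * (c p * E p) *
      (h x * (Real.exp (φ x) * (i (e p) x * i (e p) x)))) μ :=
    integrable_finsetSum _ fun p _ => q2 p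
  have q01 : Integrable (fun x => (E q - ∑ p ∈ J, c p * E p) * (h x * Real.exp (φ x)) -
      (∫ x, Real.exp (φ x) ∂μ) * E q * (h x * (Real.exp (φ x) * (i (e q) x * i (e q) x)))) μ :=
    q0.sub q1
  have e4 : ∫ x, h x * Wc μ i φ e E q J c x ∂μ =
      ∫ x, ((E q - ∑ p ∈ J, c p * E p) * (h x * Real.exp (φ x)) -
      (∫ x, Real.exp (φ x) ∂μ) * E q * (h x * (Real.exp (φ x) * (i (e q) x * i (e q) x)))) +
      ∑ p ∈ J, (∫ x, Real.exp (φ x) ∂μ) * (c p * E p) *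
        (h x * (Real.exp (φ x) * (i (e p) x * i (e p) x))) ∂μ := by
    refine integral_congr_ae (Eventually.of_forall fun x => ?_)
    simp only [Wc]
    have : ∑ p ∈ J, (∫ x, Real.exp (φ x) ∂μ) * (c p * E p) *
        (h x * (Real.exp (φ x) * (i (e p) x * i (e p) x))) = h x * ((∫ x, Real.exp (φ x) ∂μ) *
        ∑ p ∈ J, c p * E p * (Real.exp (φ x) * (i (e p) x * i (e p) x))) := by
      rw [Finset.mul_sum, Finset.mul_sum]
      refine Finset.sum_congr rfl fun p _ => ?_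
      ring
    rw [this]
    ring
  rw [e4, integral_add q01 q2s, integral_sub q0 q1, integral_const_mul, integral_const_mul,
    integral_finsetSum _ fun p _ => q2 p]
  simp only [integral_const_mul]
  unfold Dc
  simp only [hE, e2]
  have : ∑ p ∈ J, (∫ x, Real.exp (φ x) ∂μ) * (c p * E p) *
      (∫ x, h x * (Real.exp (φ x) * (i (e p) x * i (e p) x)) ∂μ) = (∫ x, Real.exp (φ x) ∂μ) *
      ∑ p ∈ J, c p * ((∫ x, h x * (Real.exp (φ x) * (i (e p) x * i (e p) x)) ∂μ) * E p) := by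
    rw [Finset.mul_sum]
    refine Finset.sum_congr rfl fun p _ => ?_
    ring
  rw [this]
  ring

/-- on an open set of conformal factors no combination takes its values in a small closed set -/
theorem dense_avoid [CompleteSpace H] (hS : Sf μ i a) (hB : IsB μ i b) (hW : Wl μ a b)
    (B : Type) [AddCommGroup B] [Module ℝ B]
    [TopologicalSpace B] [IsTopologicalAddGroup B] [ContinuousSMul ℝ B] [BaireSpace B]
    (ι : B →L[ℝ] C(M, ℝ)) (hι : DenseRange ι)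
    (hNZ : ∀ (φ : C(M, ℝ)) (v : H) (lam : ℝ), 0 < lam → (∀ w, a v w = lam * b φ v w) →
      ∀ δ : ℝ, 0 < δ → ¬ ∀ᵐ x ∂μ, δ ≤ (i v x) ^ 2)
    (q : ℕ) (J : Finset ℕ) (c : ℕ → ℝ) (hc : ∀ p, 0 ≤ c p) (K : Set ℝ) (hK : interior K = ∅)
    (hK0 : ∀ s ∈ K, 0 < s) : Dense {x : B | Fc μ a b q J c (ι x) ∉ K} := by
  obtain ⟨b', hB', hF', hApos, -, -⟩ := tFm M μ H i a hS
  obtain ⟨hF, hb, hk⟩ := forms μ i a b hS hB
  obtain ⟨hEv0, -, -, hcont, hdich⟩ := tLip M μ H a b hF hb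
  rw [dense_iff_inter_open]
  intro W hWo hWne
  by_contra hcon
  have hWK : ∀ x ∈ W, Fc μ a b q J c (ι x) ∈ K := by
    intro x hx
    by_contra hn
    exact hcon ⟨x, hx, hn⟩
  have hres : Dense {x : B | Same μ i a b (ι x)} :=
    dense_of_mem_residual (generic_same hS hB hW B ι hι)
  obtain ⟨x, hxW, hxs⟩ := (dense_iff_inter_open.1 hres) W hWo hWne
  obtain ⟨e0, E0, hE0⟩ := tSp H a (b (ι x)) (hF _)
  have hmm : ∀ j, Ev a (b (ι x)) j = E0 j := fun j =>
    Pool.Agent.Y592.QE.mm H a (b (ι x)) (hF _) e0 E0 hE0 j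
  have hzero : ∀ h ∈ range ι, ∫ y, h y * Wc μ i (ι x) e0 E0 q J c y ∂μ = 0 := by
    rintro h ⟨y, rfl⟩
    rw [wc_eq (a := a) (b := b) (ι x) e0 E0 q J c (ι y) hmm]
    have hcl : Continuous fun t : ℝ => x + t • y := by fun_prop
    have h1 : (fun t : ℝ => x + t • y) ⁻¹' W ∈ 𝓝 (0 : ℝ) := by
      refine hcl.continuousAt.preimage_mem_nhds ?_
      simp only [zero_smul, add_zero]
      exact hWo.mem_nhds hxW
    obtain ⟨η, hη, hηW⟩ := Metric.mem_nhds_iff.1 h1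
    have hFl : Continuous fun t : ℝ => Fc μ a b q J c (ι x + t • ι y) :=
      (fc_cont hS hB q J c).comp (by fun_prop)
    have hFK : ∀ t ∈ Metric.ball (0 : ℝ) η, Fc μ a b q J c (ι x + t • ι y) ∈ K := by
      intro t ht
      have := hWK _ (hηW ht)
      rwa [map_add, map_smul] at this
    have hconst : ∀ t ∈ Metric.ball (0 : ℝ) η,
        Fc μ a b q J c (ι x + t • ι y) = Fc μ a b q J c (ι x) := by
      intro t ht
      by_contra hne
      have h2 : uIcc (Fc μ a b q J c (ι x + (0 : ℝ) • ι y)) (Fc μ a b q J c (ι x + t • ι y)) ⊆ K := by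
        refine (intermediate_value_uIcc hFl.continuousOn).trans ?_
        rintro _ ⟨s, hs, rfl⟩
        refine hFK s ?_
        have h0 : (0 : ℝ) ∈ Metric.ball (0 : ℝ) η := Metric.mem_ball_self hη
        have hconv : Convex ℝ (Metric.ball (0 : ℝ) η) := convex_ball _ _
        rw [← segment_eq_uIcc] at hs
        exact hconv.segment_subset h0 ht hs
      rw [zero_smul, add_zero] at h2
      have h3 : (interior (uIcc (Fc μ a b q J c (ι x)) (Fc μ a b q J c (ι x + t • ι y)))).Nonempty := by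
        rw [uIcc, interior_Icc]
        refine nonempty_Ioo.2 ?_
        exact min_lt_max.2 (Ne.symm hne)
      have h4 := h3.mono (interior_mono h2)
      rw [hK] at h4
      exact not_nonempty_empty h4
    choose e E hE using fun t : ℝ => tSp H a (b (ι x + t • ι y)) (hF _)
    have h5 := der_line hS hB hW q J c (ι x) (ι y) e E hE
    have h6 := dc_lim hS hB q J c (ι x) (ι y) hxs e E hE hE0
    have h7 : ∃ᶠ t : ℝ in 𝓝 0, (Dc μ a b q J c (ι y) (ι x + t • ι y)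
        fun j => kap μ i (ι y) (ι x + t • ι y) (e t j) * Ev a (b (ι x + t • ι y)) j) ∈
        ({0} : Set ℝ) := by
      rw [Filter.Frequently]
      intro hev
      obtain ⟨r, hr, hrsub⟩ := Metric.mem_nhds_iff.1 hev
      have h8 : volume (Metric.ball (0 : ℝ) (min r η)) = 0 := by
        refine measure_mono_null (fun t ht => ?_) h5
        intro hder
        have ht1 : t ∈ Metric.ball (0 : ℝ) r := Metric.ball_subset_ball (min_le_left _ _) ht
        have ht2 : t ∈ Metric.ball (0 : ℝ) η := Metric.ball_subset_ball (min_le_right _ _) ht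
        refine hrsub ht1 ?_
        rw [mem_singleton_iff]
        have h9 : (fun s : ℝ => Fc μ a b q J c (ι x + s • ι y)) =ᶠ[𝓝 t]
            fun _ => Fc μ a b q J c (ι x) := by
          filter_upwards [Metric.isOpen_ball.mem_nhds ht2] with s hs
          exact hconst s hs
        exact hder.unique ((hasDerivAt_const t (Fc μ a b q J c (ι x))).congr_of_eventuallyEq h9)
      rw [Real.volume_ball] at h8
      have : (0 : ℝ) < 2 * min r η := by
        have := lt_min hr hη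
        linarith
      exact absurd h8 (ENNReal.ofReal_pos.2 this).ne'
    exact isClosed_singleton.mem_of_frequently_of_tendsto h7 h6
  have hsp : Dense (Submodule.span ℝ (range ι) : Set C(M, ℝ)) :=
    Dense.mono Submodule.subset_span hι
  have h2 := RSP.zero_of_total μ (wc_int (μ := μ) (i := i) (ι x) e0 E0 q J c) (range ι) hsp hzero
  have hA := hApos (ι x)
  set A := ∫ y, Real.exp (ι x y) ∂μ with hAdef
  have hpos : 0 < Fc μ a b q J c (ι x) := hK0 _ (hWK x hxW)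
  unfold Fc at hpos
  rw [← hAdef] at hpos
  simp only [hmm] at hpos
  set L := E0 q - ∑ p ∈ J, c p * E0 p with hL
  have hL0 : 0 < L := by
    by_contra hn
    have := mul_nonpos_of_nonneg_of_nonpos hA.le (not_lt.1 hn)
    linarith
  have hE0n : ∀ j, 0 ≤ E0 j := fun j => by rw [← hmm]; exact hEv0 _ _
  have hq : 0 < E0 q := by
    have : 0 ≤ ∑ p ∈ J, c p * E0 p := Finset.sum_nonneg fun p _ => mul_nonneg (hc p) (hE0n p)
    rw [hL] at hL0
    linarith
  refine hNZ (ι x) (e0 q) (E0 q) hq (fun w => hE0.eig q w) (L / (A * E0 q))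
    (div_pos hL0 (mul_pos hA hq)) ?_
  filter_upwards [h2] with y hy
  simp only [Wc, Pi.zero_apply, ← hAdef, ← hL] at hy
  have h3 := Real.exp_pos (ι x y)
  have h4 : ∑ p ∈ J, c p * E0 p * (Real.exp (ι x y) * (i (e0 p) y * i (e0 p) y)) =
      Real.exp (ι x y) * ∑ p ∈ J, c p * E0 p * (i (e0 p) y * i (e0 p) y) := by
    rw [Finset.mul_sum]
    exact Finset.sum_congr rfl fun p _ => by ring
  rw [h4] at hy
  have h5 : Real.exp (ι x y) * (L - A * (E0 q * (i (e0 q) y * i (e0 q) y) -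
      ∑ p ∈ J, c p * E0 p * (i (e0 p) y * i (e0 p) y))) = 0 := by linarith
  have h6 : L = A * (E0 q * (i (e0 q) y * i (e0 q) y) -
      ∑ p ∈ J, c p * E0 p * (i (e0 p) y * i (e0 p) y)) := by
    rcases mul_eq_zero.1 h5 with h | h
    · exact absurd h h3.ne'
    · linarith
  rw [div_le_iff₀ (mul_pos hA hq), h6]
  have h7 : 0 ≤ A * ∑ p ∈ J, c p * E0 p * (i (e0 p) y * i (e0 p) y) :=
    mul_nonneg hA.le (Finset.sum_nonneg fun p _ => mul_nonneg (mul_nonneg (hc p) (hE0n p))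
      (mul_self_nonneg _))
  nlinarith

/-- **generic conformal factors avoid meagre sets** -/
theorem avoid [CompleteSpace H] (hS : Sf μ i a) (hB : IsB μ i b) (hW : Wl μ a b)
    (B : Type) [AddCommGroup B] [Module ℝ B]
    [TopologicalSpace B] [IsTopologicalAddGroup B] [ContinuousSMul ℝ B] [BaireSpace B]
    (ι : B →L[ℝ] C(M, ℝ)) (hι : DenseRange ι)
    (hNZ : ∀ (φ : C(M, ℝ)) (v : H) (lam : ℝ), 0 < lam → (∀ w, a v w = lam * b φ v w) →
      ∀ δ : ℝ, 0 < δ → ¬ ∀ᵐ x ∂μ, δ ≤ (i v x) ^ 2)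
    (q : ℕ) (J : Finset ℕ) (c : ℕ → ℝ) (hc : ∀ p, 0 ≤ c p) (N : Set ℝ) (hN : IsMeagre N) :
    ∀ᶠ x in residual B, 0 < Fc μ a b q J c (ι x) → Fc μ a b q J c (ι x) ∉ N := by
  obtain ⟨S, hS1, hS2, hS3⟩ := isMeagre_iff_countable_union_isNowhereDense.1 hN
  have key : ∀ s ∈ S, ∀ n : ℕ, ∀ᶠ x in residual B,
      Fc μ a b q J c (ι x) ∉ closure s ∩ Ici (1 / ((n : ℝ) + 1)) := by
    intro s hs n
    have hcl : IsClosed (closure s ∩ Ici (1 / ((n : ℝ) + 1))) := isClosed_closure.inter isClosed_Ici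
    have hint : interior (closure s ∩ Ici (1 / ((n : ℝ) + 1))) = ∅ := by
      refine Set.eq_empty_of_subset_empty ((interior_mono inter_subset_left).trans ?_)
      exact (hS1 s hs).subset
    have hpos : ∀ t ∈ closure s ∩ Ici (1 / ((n : ℝ) + 1)), 0 < t := fun t ht =>
      lt_of_lt_of_le (by positivity) ht.2
    have h1 := dense_avoid hS hB hW B ι hι hNZ q J c hc _ hint hpos
    have h2 : IsOpen {x : B | Fc μ a b q J c (ι x) ∉ closure s ∩ Ici (1 / ((n : ℝ) + 1))} :=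
      hcl.isOpen_compl.preimage ((fc_cont hS hB q J c).comp ι.continuous)
    exact residual_of_dense_open h2 h1
  have key2 : ∀ᶠ x in residual B, ∀ s ∈ S, ∀ n : ℕ,
      Fc μ a b q J c (ι x) ∉ closure s ∩ Ici (1 / ((n : ℝ) + 1)) := by
    rw [eventually_countable_ball hS2]
    intro s hs
    rw [eventually_countable_forall]
    exact key s hs
  filter_upwards [key2] with x hx hpos hmem
  obtain ⟨s, hs, hxs⟩ := hS3 hmem
  obtain ⟨n, hn⟩ := exists_nat_one_div_lt hpos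
  exact hx s hs n ⟨subset_closure hxs, hn.le⟩

end Pool.Agent.Q233.GLV
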