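import Pool.Agent.Q233.GLV.Inv

/-!
# Generic levels: the derivative of a simple eigenvector
-/

set_option autoImplicit false
set_option linter.unusedSectionVars false

open Set Filter Topology
open Pool.Agent.Y262.QE
open Q101.QG (EV)

noncomputable section

namespace Pool.Agent.Q233.GLV

variable {H : Type} [NormedAddCommGroup H] [InnerProductSpace ℝ H]
  {a b : H →L[ℝ] H →L[ℝ] ℝ} {e : ℕ → H} {E : ℕ → ℝ}

lemma ev_neg {E' : ℝ} {v : H} (h : EV a b E' v) : EV a b E' (-v) := by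
  refine ⟨fun w => ?_, ?_⟩
  · rw [map_neg, map_neg, neg_apply, neg_apply, h.1]
    ring
  · rw [map_neg, map_neg, neg_apply, neg_neg]
    exact h.2

lemma ev_norm {c : ℝ} (hc : 0 < c) (hco : ∀ v, c * ‖v‖ ^ 2 ≤ a v v + b v v)
    {b' : H →L[ℝ] H →L[ℝ] ℝ} {δ : ℝ} (hδ : δ ≤ c / 2)
    (hb : ∀ u w, |b' u w - b u w| ≤ δ * ‖u‖ * ‖w‖) {E' : ℝ} {v : H} (hv : EV a b' E' v) :
    ‖v‖ ^ 2 ≤ 2 * (E' + 1) / c := by
  have h1 := hco v
  rw [hv.1, hv.2, mul_one] at h1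
  have h2 := (abs_le.1 (hb v v)).1
  rw [hv.2] at h2
  rw [le_div_iff₀ hc]
  nlinarith [sq_nonneg ‖v‖]

lemma near (hE : Eg a b e E) (hF : Fm a b) {j : ℕ} {C : ℝ}
    (hC : ∀ (g : H) (ε : ℝ), 0 ≤ ε → (∀ ψ, |a g ψ - E j * b g ψ| ≤ ε * ‖ψ‖) →
      ‖g‖ ≤ C * (ε + |b g (e j)|)) {b' : H →L[ℝ] H →L[ℝ] ℝ} {δ : ℝ} (hδ : 0 ≤ δ)
    (hb : ∀ u w, |b' u w - b u w| ≤ δ * ‖u‖ * ‖w‖) {E' : ℝ} {v : H} (hv : EV a b' E' v) :
    ‖v - b v (e j) • e j‖ ≤ C * ((|E' - E j| * (‖b‖ + δ) + |E j| * δ) * ‖v‖) := by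
  have hjj : b (e j) (e j) = 1 := by rw [hE.orth, if_pos rfl]
  have h0 : b (v - b v (e j) • e j) (e j) = 0 := by
    rw [map_sub, map_smul, _root_.sub_apply, _root_.smul_apply, smul_eq_mul, hjj]
    ring
  have h1 := hC (v - b v (e j) • e j) ((|E' - E j| * (‖b‖ + δ) + |E j| * δ) * ‖v‖)
    (by positivity) (fun ψ => by
      have e1 : a (v - b v (e j) • e j) ψ - E j * b (v - b v (e j) • e j) ψ =
          (E' - E j) * b' v ψ + E j * (b' v ψ - b v ψ) := by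
        simp only [map_sub, map_smul, _root_.sub_apply, _root_.smul_apply, smul_eq_mul, hE.eig,
          hv.1]
        ring
      rw [e1]
      have e2 := hb v ψ
      have e3 : |b' v ψ| ≤ (‖b‖ + δ) * (‖v‖ * ‖ψ‖) := by
        have e4 : |b v ψ| ≤ ‖b‖ * ‖v‖ * ‖ψ‖ := b.le_opNorm₂ v ψ
        calc |b' v ψ| = |(b' v ψ - b v ψ) + b v ψ| := by ring_nf
          _ ≤ |b' v ψ - b v ψ| + |b v ψ| := abs_add_le _ _
          _ ≤ δ * ‖v‖ * ‖ψ‖ + ‖b‖ * ‖v‖ * ‖ψ‖ := add_le_add e2 e4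
          _ = _ := by ring
      calc |(E' - E j) * b' v ψ + E j * (b' v ψ - b v ψ)| ≤
          |(E' - E j) * b' v ψ| + |E j * (b' v ψ - b v ψ)| := abs_add_le _ _
        _ = |E' - E j| * |b' v ψ| + |E j| * |b' v ψ - b v ψ| := by rw [abs_mul, abs_mul]
        _ ≤ |E' - E j| * ((‖b‖ + δ) * (‖v‖ * ‖ψ‖)) + |E j| * (δ * ‖v‖ * ‖ψ‖) :=
          add_le_add (mul_le_mul_of_nonneg_left e3 (abs_nonneg _))
            (mul_le_mul_of_nonneg_left e2 (abs_nonneg _))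
        _ = _ := by ring)
  rwa [h0, abs_zero, add_zero] at h1

lemma near2 (hE : Eg a b e E) (hF : Fm a b) {j : ℕ} {b' : H →L[ℝ] H →L[ℝ] ℝ} {δ : ℝ}
    (hb : ∀ u w, |b' u w - b u w| ≤ δ * ‖u‖ * ‖w‖) {E' : ℝ} {v : H} (hv : EV a b' E' v) :
    |(b v (e j)) ^ 2 - 1| ≤ ‖b‖ * ‖v - b v (e j) • e j‖ ^ 2 + δ * ‖v‖ ^ 2 := by
  have hjj : b (e j) (e j) = 1 := by rw [hE.orth, if_pos rfl]
  obtain ⟨w, hw⟩ : ∃ w : H, w = v - b v (e j) • e j := ⟨_, rfl⟩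
  have e1 : b w w = b v v - (b v (e j)) ^ 2 := by
    rw [hw]
    simp only [map_sub, map_smul, _root_.sub_apply, _root_.smul_apply, smul_eq_mul, hjj,
      hF.sb (e j) v]
    ring
  have e2 := hb v v
  rw [hv.2] at e2
  have e3 : |b w w| ≤ ‖b‖ * ‖w‖ * ‖w‖ := b.le_opNorm₂ w w
  have e4 : (b v (e j)) ^ 2 - 1 = -(b w w) - (1 - b v v) := by rw [e1]; ring
  rw [e4, ← hw]
  calc |-(b w w) - (1 - b v v)| ≤ |-(b w w)| + |1 - b v v| := abs_sub _ _
    _ ≤ ‖b‖ * ‖w‖ * ‖w‖ + δ * ‖v‖ * ‖v‖ := by rw [abs_neg]; exact add_le_add e3 e2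
    _ = _ := by ring

/-- convergence of eigenvectors up to the sign -/
theorem conv (hF : Fm a b) (hE : Eg a b e E) {j : ℕ} (hs : ∀ l, l ≠ j → E l ≠ E j)
    {bs : ℕ → H →L[ℝ] H →L[ℝ] ℝ} {δ : ℕ → ℝ} (hδ0 : ∀ m, 0 ≤ δ m) (hδ : Tendsto δ atTop (𝓝 0))
    (hb : ∀ m u w, |bs m u w - b u w| ≤ δ m * ‖u‖ * ‖w‖) {Es : ℕ → ℝ}
    (hEs : Tendsto Es atTop (𝓝 (E j))) {vs : ℕ → H} (hv : ∀ m, EV a (bs m) (Es m) (vs m)) :
    ∃ σ : ℕ → ℝ, (∀ m, σ m = 1 ∨ σ m = -1) ∧ Tendsto (fun m => σ m • vs m) atTop (𝓝 (e j)) := by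
  obtain ⟨C, hC0, hC⟩ := inv hF hE hs
  obtain ⟨c, hc, hco⟩ := hF.co
  obtain ⟨σ, hσ⟩ : ∃ σ : ℕ → ℝ, σ = fun m => if 0 ≤ b (vs m) (e j) then 1 else -1 := ⟨_, rfl⟩
  have hσ1 : ∀ m, σ m = 1 ∨ σ m = -1 := by
    intro m
    rw [hσ]
    simp only
    split_ifs
    · left; rfl
    · right; rfl
  have hσa : ∀ m, |σ m| = 1 := by
    intro m
    rcases hσ1 m with h | h <;> rw [h] <;> norm_num
  refine ⟨σ, hσ1, ?_⟩
  obtain ⟨B, hB⟩ : ∃ B : ℝ, B = 1 + 2 * (E j + 2) / c := ⟨_, rfl⟩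
  have hEj := E_nonneg hF hE j
  have hB1 : 1 ≤ B := by
    rw [hB]
    have : 0 < 2 * (E j + 2) / c := by positivity
    linarith
  have hvb : ∀ᶠ m in atTop, ‖vs m‖ ≤ B := by
    have h1 : ∀ᶠ m in atTop, δ m < c / 2 := hδ.eventually_lt_const (by positivity)
    have h2 : ∀ᶠ m in atTop, Es m < E j + 1 := hEs.eventually_lt_const (by linarith)
    filter_upwards [h1, h2] with m h1 h2
    have h3 := ev_norm hc hco h1.le (hb m) (hv m)
    have h4 : 2 * (Es m + 1) / c ≤ 2 * (E j + 2) / c :=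
      div_le_div_of_nonneg_right (by linarith) hc.le
    have h5 : ‖vs m‖ ^ 2 ≤ B ^ 2 := by nlinarith
    exact (abs_le_of_sq_le_sq' h5 (by linarith)).2
  obtain ⟨ρ, hρ⟩ : ∃ ρ : ℕ → ℝ, ρ = fun m => C * ((|Es m - E j| * (‖b‖ + δ m) + |E j| * δ m) * B) :=
    ⟨_, rfl⟩
  have hρ0 : Tendsto ρ atTop (𝓝 0) := by
    have h1 : Tendsto (fun m => |Es m - E j|) atTop (𝓝 0) := by
      have := (hEs.sub_const (E j)).abs
      rwa [sub_self, abs_zero] at this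
    have h2 := (((h1.mul (hδ.const_add ‖b‖)).add (hδ.const_mul |E j|)).mul_const B).const_mul C
    rw [hρ]
    simpa using h2
  have hw : ∀ᶠ m in atTop, ‖vs m - b (vs m) (e j) • e j‖ ≤ ρ m := by
    filter_upwards [hvb] with m h1
    have h2 := near hE hF hC (hδ0 m) (hb m) (hv m)
    refine h2.trans ?_
    rw [hρ]
    simp only
    have h3 : 0 ≤ |Es m - E j| * (‖b‖ + δ m) + |E j| * δ m := by
      have := hδ0 m
      positivity
    gcongr
  have hα : Tendsto (fun m => |b (vs m) (e j)|) atTop (𝓝 1) := by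
    have h1 : Tendsto (fun m => ‖b‖ * (ρ m) ^ 2 + δ m * B ^ 2) atTop (𝓝 0) := by
      have := ((hρ0.pow 2).const_mul ‖b‖).add (hδ.mul_const (B ^ 2))
      simpa using this
    rw [tendsto_iff_norm_sub_tendsto_zero]
    refine squeeze_zero' (Eventually.of_forall fun m => norm_nonneg _) ?_ h1
    filter_upwards [hvb, hw] with m h2 h3
    have h4 := near2 hE hF (hb m) (hv m) (j := j)
    have h5 : |(|b (vs m) (e j)| - 1)| ≤ |(b (vs m) (e j)) ^ 2 - 1| := by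
      have h6 : (b (vs m) (e j)) ^ 2 - 1 = (|b (vs m) (e j)| - 1) * (|b (vs m) (e j)| + 1) := by
        rw [← sq_abs]; ring
      rw [h6, abs_mul, abs_of_nonneg (by positivity : 0 ≤ |b (vs m) (e j)| + 1)]
      nlinarith [abs_nonneg (|b (vs m) (e j)| - 1), abs_nonneg (b (vs m) (e j))]
    rw [Real.norm_eq_abs]
    refine h5.trans (h4.trans ?_)
    have := hδ0 m
    gcongr
  have hdist : Tendsto (fun m => ρ m + ‖(|b (vs m) (e j)| - 1) • e j‖) atTop (𝓝 0) := by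
    have h1 : Tendsto (fun m => (|b (vs m) (e j)| - 1) • e j) atTop (𝓝 0) := by
      have := (hα.sub_const 1).smul_const (e j)
      rwa [sub_self, zero_smul] at this
    have := hρ0.add h1.norm
    rwa [norm_zero, add_zero] at this
  rw [tendsto_iff_norm_sub_tendsto_zero]
  refine squeeze_zero' (Eventually.of_forall fun m => norm_nonneg _) ?_ hdist
  filter_upwards [hw] with m h1
  have h2 : σ m * b (vs m) (e j) = |b (vs m) (e j)| := by
    rw [hσ]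
    simp only
    split_ifs with h
    · rw [one_mul, abs_of_nonneg h]
    · rw [neg_one_mul, abs_of_neg (not_le.1 h)]
  have h3 : σ m • vs m - e j = σ m • (vs m - b (vs m) (e j) • e j) +
      (|b (vs m) (e j)| - 1) • e j := by
    rw [smul_sub, smul_smul, h2, sub_smul, one_smul]
    abel
  rw [h3]
  refine (norm_add_le _ _).trans ?_
  rw [norm_smul, Real.norm_eq_abs, hσa, one_mul]
  linarith

/-- the difference quotients of a simple eigenvector -/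
theorem quot (hF : Fm a b) (hE : Eg a b e E) {j : ℕ} {C : ℝ} (hC0 : 0 < C)
    (hC : ∀ (g : H) (ε : ℝ), 0 ≤ ε → (∀ ψ, |a g ψ - E j * b g ψ| ≤ ε * ‖ψ‖) →
      ‖g‖ ≤ C * (ε + |b g (e j)|)) {t : ℕ → ℝ} (ht : Tendsto t atTop (𝓝 0)) (ht0 : ∀ m, t m ≠ 0)
    {bs : ℕ → H →L[ℝ] H →L[ℝ] ℝ} (k : H →L[ℝ] H →L[ℝ] ℝ) {R : ℝ} (hR0 : 0 ≤ R)
    (hR : ∀ m u w, |bs m u w - b u w - t m * k u w| ≤ R * (t m) ^ 2 * ‖u‖ * ‖w‖) {Es : ℕ → ℝ}
    {vs : ℕ → H} (hv : ∀ m, EV a (bs m) (Es m) (vs m)) (hvl : Tendsto vs atTop (𝓝 (e j)))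
    {s : H} {ε₀ : ℝ} (hε₀ : 0 ≤ ε₀)
    (hs1 : ∀ ψ, |E j * (k (e j) ψ - k (e j) (e j) * b (e j) ψ) - (a s ψ - E j * b s ψ)| ≤
      ε₀ * ‖ψ‖) (hs2 : |2 * b s (e j) + k (e j) (e j)| ≤ ε₀) {ε₁ : ℝ} (hε₁ : 0 < ε₁) :
    ∀ᶠ m in atTop, ‖(t m)⁻¹ • (vs m - e j) - s‖ ≤ C * (2 * ε₀) + ε₁ := by
  have hjj : b (e j) (e j) = 1 := by rw [hE.orth, if_pos rfl]
  obtain ⟨v, hvdef⟩ : ∃ v : H, v = e j := ⟨_, rfl⟩
  obtain ⟨lam, hlam⟩ : ∃ lam : ℝ, lam = E j := ⟨_, rfl⟩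
  rw [← hvdef] at hvl hs1 hs2 hjj hC ⊢
  rw [← hlam] at hs1 hC
  have heig : ∀ w, a v w = lam * b v w := fun w => by rw [hvdef, hlam]; exact hE.eig j w
  have hta : Tendsto (fun m => |t m|) atTop (𝓝 0) := by
    have := ht.abs
    rwa [abs_zero] at this
  have ht2 : Tendsto (fun m => (t m) ^ 2) atTop (𝓝 0) := by
    have := ht.pow 2
    simpa using this
  have hvn : Tendsto (fun m => ‖vs m‖) atTop (𝓝 ‖v‖) := hvl.norm
  have hvd : Tendsto (fun m => ‖vs m - v‖) atTop (𝓝 0) := tendsto_iff_norm_sub_tendsto_zero.1 hvl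
  -- the difference quotient of the forms
  have hD : ∀ m u w, |(t m)⁻¹ * (bs m u w - b u w) - k u w| ≤ R * |t m| * ‖u‖ * ‖w‖ := by
    intro m u w
    have h1 : (t m)⁻¹ * (bs m u w - b u w) - k u w =
        (t m)⁻¹ * (bs m u w - b u w - t m * k u w) := by
      have := ht0 m
      field_simp
    rw [h1, abs_mul, abs_inv]
    have h2 := abs_pos.2 (ht0 m)
    rw [inv_mul_le_iff₀ h2]
    calc |bs m u w - b u w - t m * k u w| ≤ R * (t m) ^ 2 * ‖u‖ * ‖w‖ := hR m u w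
      _ = |t m| * (R * |t m| * ‖u‖ * ‖w‖) := by rw [← sq_abs]; ring
  have hq : ∀ m u w, |bs m u w - b u w| ≤ (‖k‖ * |t m| + R * (t m) ^ 2) * ‖u‖ * ‖w‖ := by
    intro m u w
    have h1 : |k u w| ≤ ‖k‖ * ‖u‖ * ‖w‖ := k.le_opNorm₂ u w
    calc |bs m u w - b u w| = |(bs m u w - b u w - t m * k u w) + t m * k u w| := by ring_nf
      _ ≤ |bs m u w - b u w - t m * k u w| + |t m * k u w| := abs_add_le _ _
      _ ≤ R * (t m) ^ 2 * ‖u‖ * ‖w‖ + |t m| * (‖k‖ * ‖u‖ * ‖w‖) := by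
        rw [abs_mul]
        exact add_le_add (hR m u w) (mul_le_mul_of_nonneg_left h1 (abs_nonneg _))
      _ = _ := by ring
  obtain ⟨q, hqd⟩ : ∃ q : ℕ → ℝ, q = fun m => ‖k‖ * |t m| + R * (t m) ^ 2 := ⟨_, rfl⟩
  have hq0 : Tendsto q atTop (𝓝 0) := by
    rw [hqd]
    have := (hta.const_mul ‖k‖).add (ht2.const_mul R)
    simpa using this
  have hqn : ∀ m, 0 ≤ q m := fun m => by rw [hqd]; positivity
  have hq' : ∀ m u w, |bs m u w - b u w| ≤ q m * ‖u‖ * ‖w‖ := fun m u w => by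
    rw [hqd]; exact hq m u w
  -- `b m (v m) v → 1`
  have hbv : Tendsto (fun m => bs m (vs m) v) atTop (𝓝 1) := by
    have h1 : Tendsto (fun m => b (vs m) v) atTop (𝓝 1) := by
      have h2 : Continuous fun x : H => b x v := by fun_prop
      have := (h2.tendsto v).comp hvl
      rwa [hjj] at this
    have h2 : Tendsto (fun m => bs m (vs m) v - b (vs m) v) atTop (𝓝 0) := by
      have h3 : Tendsto (fun m => q m * ‖vs m‖ * ‖v‖) atTop (𝓝 0) := by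
        have := (hq0.mul hvn).mul_const ‖v‖
        simpa using this
      exact squeeze_zero_norm (fun m => hq' m _ _) h3
    have := h2.add h1
    simpa using this
  -- the derivative of the eigenvalue
  have hkv : Tendsto (fun m => (t m)⁻¹ * (bs m (vs m) v - b (vs m) v)) atTop (𝓝 (k v v)) := by
    have h1 : Tendsto (fun m => k (vs m) v) atTop (𝓝 (k v v)) := by
      have h2 : Continuous fun x : H => k x v := by fun_prop
      exact (h2.tendsto v).comp hvl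
    have h2 : Tendsto (fun m => (t m)⁻¹ * (bs m (vs m) v - b (vs m) v) - k (vs m) v) atTop
        (𝓝 0) := by
      have h3 : Tendsto (fun m => R * |t m| * ‖vs m‖ * ‖v‖) atTop (𝓝 0) := by
        have := ((hta.const_mul R).mul hvn).mul_const ‖v‖
        simpa using this
      exact squeeze_zero_norm (fun m => hD m _ _) h3
    have := h2.add h1
    simpa using this
  obtain ⟨d, hd⟩ : ∃ d : ℕ → ℝ, d = fun m => (t m)⁻¹ * (Es m - lam) := ⟨_, rfl⟩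
  have hdl : Tendsto d atTop (𝓝 (-(lam * k v v))) := by
    have h1 : Tendsto (fun m => -(lam * ((t m)⁻¹ * (bs m (vs m) v - b (vs m) v))) /
        bs m (vs m) v) atTop (𝓝 (-(lam * k v v) / 1)) :=
      ((hkv.const_mul lam).neg).div hbv one_ne_zero
    rw [div_one] at h1
    refine h1.congr' ?_
    have h2 : ∀ᶠ m in atTop, 0 < bs m (vs m) v := hbv.eventually_const_lt one_pos
    filter_upwards [h2] with m h2
    have h3 : Es m * bs m (vs m) v = lam * b (vs m) v := by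
      rw [← (hv m).1 v, hF.sa, heig, hF.sb]
    rw [div_eq_iff h2.ne', hd]
    simp only
    have h4 : (t m)⁻¹ * (Es m - lam) * bs m (vs m) v =
        (t m)⁻¹ * (Es m * bs m (vs m) v) - (t m)⁻¹ * (lam * bs m (vs m) v) := by ring
    rw [h4, h3]
    ring
  -- the main identity
  have hmain : ∀ m ψ, (t m)⁻¹ * (a (vs m) ψ - lam * b (vs m) ψ) =
      d m * bs m (vs m) ψ + lam * ((t m)⁻¹ * (bs m (vs m) ψ - b (vs m) ψ)) := by
    intro m ψ
    rw [(hv m).1 ψ, hd]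
    ring
  -- the norm of the difference
  obtain ⟨V, hV⟩ : ∃ V : ℝ, V = ‖v‖ + 1 := ⟨_, rfl⟩
  have hV0 : 0 < V := by rw [hV]; positivity
  have ev1 : ∀ᶠ m in atTop, ‖vs m‖ ≤ V := by
    filter_upwards [hvn.eventually_lt_const (show ‖v‖ < V by rw [hV]; linarith)] with m h
    exact h.le
  have ev2 : ∀ᶠ m in atTop, |t m| ≤ 1 := by
    filter_upwards [hta.eventually_lt_const one_pos] with m h
    exact h.le
  obtain ⟨Dm, hDm⟩ : ∃ Dm : ℝ, Dm = |lam * k v v| + 1 := ⟨_, rfl⟩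
  have ev3 : ∀ᶠ m in atTop, |d m| ≤ Dm := by
    have h1 := hdl.abs
    rw [abs_neg] at h1
    filter_upwards [h1.eventually_lt_const (show |lam * k v v| < Dm by rw [hDm]; linarith)]
      with m h
    exact h.le
  have hDm0 : 0 ≤ Dm := by rw [hDm]; positivity
  have ev4 : ∀ᶠ m in atTop, q m ≤ 1 := by
    filter_upwards [hq0.eventually_lt_const one_pos] with m h
    exact h.le
  obtain ⟨K₁, hK₁⟩ : ∃ K₁ : ℝ, K₁ = (Dm * (‖b‖ + 1) + |lam| * (‖k‖ + R)) * V := ⟨_, rfl⟩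
  have hK₁0 : 0 ≤ K₁ := by rw [hK₁]; positivity
  have hw1 : ∀ᶠ m in atTop, ‖vs m - b (vs m) v • v‖ ≤ C * (K₁ * |t m|) := by
    filter_upwards [ev1, ev2, ev3, ev4] with m h1 h2 h3 h4
    have e0 : b (vs m - b (vs m) v • v) v = 0 := by
      rw [map_sub, map_smul, _root_.sub_apply, _root_.smul_apply, smul_eq_mul, hjj]
      ring
    have e1 := hC (vs m - b (vs m) v • v) (K₁ * |t m|) (by positivity) (fun ψ => by
      have e2 : a (vs m - b (vs m) v • v) ψ - lam * b (vs m - b (vs m) v • v) ψ =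
          t m * ((t m)⁻¹ * (a (vs m) ψ - lam * b (vs m) ψ)) := by
        simp only [map_sub, map_smul, _root_.sub_apply, _root_.smul_apply, smul_eq_mul, heig]
        have := ht0 m
        field_simp
        ring
      rw [e2, hmain, abs_mul]
      have e3 : |bs m (vs m) ψ| ≤ (‖b‖ + 1) * (V * ‖ψ‖) := by
        have e4 : |b (vs m) ψ| ≤ ‖b‖ * ‖vs m‖ * ‖ψ‖ := b.le_opNorm₂ (vs m) ψ
        calc |bs m (vs m) ψ| = |(bs m (vs m) ψ - b (vs m) ψ) + b (vs m) ψ| := by ring_nf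
          _ ≤ |bs m (vs m) ψ - b (vs m) ψ| + |b (vs m) ψ| := abs_add_le _ _
          _ ≤ q m * ‖vs m‖ * ‖ψ‖ + ‖b‖ * ‖vs m‖ * ‖ψ‖ := add_le_add (hq' m _ _) e4
          _ ≤ 1 * V * ‖ψ‖ + ‖b‖ * V * ‖ψ‖ := by gcongr
          _ = _ := by ring
      have e5 : |(t m)⁻¹ * (bs m (vs m) ψ - b (vs m) ψ)| ≤ (‖k‖ + R) * (V * ‖ψ‖) := by
        have e6 : |k (vs m) ψ| ≤ ‖k‖ * ‖vs m‖ * ‖ψ‖ := k.le_opNorm₂ (vs m) ψ
        calc |(t m)⁻¹ * (bs m (vs m) ψ - b (vs m) ψ)| =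
            |((t m)⁻¹ * (bs m (vs m) ψ - b (vs m) ψ) - k (vs m) ψ) + k (vs m) ψ| := by ring_nf
          _ ≤ |(t m)⁻¹ * (bs m (vs m) ψ - b (vs m) ψ) - k (vs m) ψ| + |k (vs m) ψ| :=
            abs_add_le _ _
          _ ≤ R * |t m| * ‖vs m‖ * ‖ψ‖ + ‖k‖ * ‖vs m‖ * ‖ψ‖ := add_le_add (hD m _ _) e6
          _ ≤ R * 1 * V * ‖ψ‖ + ‖k‖ * V * ‖ψ‖ := by gcongr
          _ = _ := by ring
      calc |t m| * |d m * bs m (vs m) ψ + lam * ((t m)⁻¹ * (bs m (vs m) ψ - b (vs m) ψ))| ≤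
          |t m| * (|d m * bs m (vs m) ψ| +
            |lam * ((t m)⁻¹ * (bs m (vs m) ψ - b (vs m) ψ))|) := by
            gcongr
            exact abs_add_le _ _
        _ = |t m| * (|d m| * |bs m (vs m) ψ| +
            |lam| * |(t m)⁻¹ * (bs m (vs m) ψ - b (vs m) ψ)|) := by rw [abs_mul, abs_mul lam]
        _ ≤ |t m| * (Dm * ((‖b‖ + 1) * (V * ‖ψ‖)) + |lam| * ((‖k‖ + R) * (V * ‖ψ‖))) := by
            gcongr
        _ = K₁ * |t m| * ‖ψ‖ := by rw [hK₁]; ring)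
    rwa [e0, abs_zero, add_zero] at e1
  obtain ⟨K₂, hK₂⟩ : ∃ K₂ : ℝ, K₂ = ‖b‖ * (C * K₁) ^ 2 + (‖k‖ + R) * V ^ 2 := ⟨_, rfl⟩
  have hK₂0 : 0 ≤ K₂ := by rw [hK₂]; positivity
  have hα1 : ∀ᶠ m in atTop, |b (vs m) v - 1| ≤ K₂ * |t m| := by
    have hpos : ∀ᶠ m in atTop, 0 < b (vs m) v := by
      have h2 : Continuous fun x : H => b x v := by fun_prop
      have := (h2.tendsto v).comp hvl
      rw [hjj] at this
      exact this.eventually_const_lt one_pos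
    filter_upwards [ev1, ev2, hw1, hpos] with m h1 h2 h3 h4
    have e1 := near2 hE hF (hq' m) (hv m) (j := j)
    rw [← hvdef] at e1
    have e2 : |b (vs m) v - 1| ≤ |(b (vs m) v) ^ 2 - 1| := by
      have h6 : (b (vs m) v) ^ 2 - 1 = (b (vs m) v - 1) * (b (vs m) v + 1) := by ring
      rw [h6, abs_mul, abs_of_pos (by linarith : 0 < b (vs m) v + 1)]
      nlinarith [abs_nonneg (b (vs m) v - 1)]
    refine e2.trans (e1.trans ?_)
    have e3 : q m ≤ (‖k‖ + R) * |t m| := by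
      rw [hqd]
      simp only
      have : (t m) ^ 2 ≤ |t m| := by
        rw [← sq_abs]
        nlinarith [abs_nonneg (t m)]
      nlinarith
    have e4 : ‖vs m - b (vs m) v • v‖ ^ 2 ≤ (C * K₁) ^ 2 * |t m| := by
      calc ‖vs m - b (vs m) v • v‖ ^ 2 ≤ (C * (K₁ * |t m|)) ^ 2 := by gcongr
        _ = (C * K₁) ^ 2 * (|t m| * |t m|) := by ring
        _ ≤ (C * K₁) ^ 2 * (|t m| * 1) := by gcongr
        _ = _ := by ring
    calc ‖b‖ * ‖vs m - b (vs m) v • v‖ ^ 2 + q m * ‖vs m‖ ^ 2 ≤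
        ‖b‖ * ((C * K₁) ^ 2 * |t m|) + (‖k‖ + R) * |t m| * V ^ 2 := by gcongr
      _ = K₂ * |t m| := by rw [hK₂]; ring
  obtain ⟨K, hK⟩ : ∃ K : ℝ, K = C * K₁ + K₂ * ‖v‖ := ⟨_, rfl⟩
  have hK0 : 0 ≤ K := by rw [hK]; positivity
  have hlip : ∀ᶠ m in atTop, ‖vs m - v‖ ≤ K * |t m| := by
    filter_upwards [hw1, hα1] with m h1 h2
    have e1 : vs m - v = (vs m - b (vs m) v • v) + (b (vs m) v - 1) • v := by
      rw [sub_smul, one_smul]; abel
    rw [e1]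
    refine (norm_add_le _ _).trans ?_
    rw [norm_smul, Real.norm_eq_abs]
    calc ‖vs m - b (vs m) v • v‖ + |b (vs m) v - 1| * ‖v‖ ≤ C * (K₁ * |t m|) +
          K₂ * |t m| * ‖v‖ := by gcongr
      _ = _ := by rw [hK]; ring
  -- the normalization
  have hnorm : Tendsto (fun m => (t m)⁻¹ * b (vs m - v) v) atTop (𝓝 (-(k v v) / 2)) := by
    have e1 : ∀ m, (t m)⁻¹ * b (vs m - v) v = (-((t m)⁻¹ * (bs m (vs m) (vs m) -
        b (vs m) (vs m))) - (t m)⁻¹ * b (vs m - v) (vs m - v)) / 2 := by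
      intro m
      rw [(hv m).2]
      simp only [map_sub, _root_.sub_apply, hF.sb v (vs m), hjj]
      ring
    have h1 : Tendsto (fun m => (t m)⁻¹ * (bs m (vs m) (vs m) - b (vs m) (vs m))) atTop
        (𝓝 (k v v)) := by
      have h1 : Tendsto (fun m => k (vs m) (vs m)) atTop (𝓝 (k v v)) := by
        have h2 : Continuous fun x : H => k x x := by fun_prop
        exact (h2.tendsto v).comp hvl
      have h2 : Tendsto (fun m => (t m)⁻¹ * (bs m (vs m) (vs m) - b (vs m) (vs m)) -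
          k (vs m) (vs m)) atTop (𝓝 0) := by
        have h3 : Tendsto (fun m => R * |t m| * ‖vs m‖ * ‖vs m‖) atTop (𝓝 0) := by
          have := ((hta.const_mul R).mul hvn).mul hvn
          simpa using this
        exact squeeze_zero_norm (fun m => hD m _ _) h3
      have := h2.add h1
      simpa using this
    have h2 : Tendsto (fun m => (t m)⁻¹ * b (vs m - v) (vs m - v)) atTop (𝓝 0) := by
      have h3 : Tendsto (fun m => ‖b‖ * K ^ 2 * |t m|) atTop (𝓝 0) := by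
        have := hta.const_mul (‖b‖ * K ^ 2)
        simpa using this
      refine squeeze_zero_norm' ?_ h3
      filter_upwards [hlip] with m h4
      have h5 : |b (vs m - v) (vs m - v)| ≤ ‖b‖ * ‖vs m - v‖ * ‖vs m - v‖ := b.le_opNorm₂ _ _
      rw [norm_mul, norm_inv, Real.norm_eq_abs, Real.norm_eq_abs,
        inv_mul_le_iff₀ (abs_pos.2 (ht0 m))]
      calc |b (vs m - v) (vs m - v)| ≤ ‖b‖ * ‖vs m - v‖ * ‖vs m - v‖ := h5
        _ ≤ ‖b‖ * (K * |t m|) * (K * |t m|) := by gcongr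
        _ = _ := by ring
    have h3 := ((h1.neg).sub h2).div_const 2
    rw [sub_zero] at h3
    exact h3.congr fun m => (e1 m).symm
  -- the residual
  obtain ⟨ρ, hρ⟩ : ∃ ρ : ℕ → ℝ, ρ = fun m => |d m + lam * k v v| * ((‖b‖ + q m) * ‖vs m‖) +
      |lam * k v v| * (q m * ‖vs m‖ + ‖b‖ * ‖vs m - v‖) +
      |lam| * (R * |t m| * ‖vs m‖ + ‖k‖ * ‖vs m - v‖) := ⟨_, rfl⟩
  have hρ0 : Tendsto ρ atTop (𝓝 0) := by
    have h1 : Tendsto (fun m => |d m + lam * k v v|) atTop (𝓝 0) := by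
      have := (hdl.add_const (lam * k v v)).abs
      rwa [neg_add_cancel, abs_zero] at this
    have h2 := (h1.mul ((hq0.const_add ‖b‖).mul hvn)).add
      ((((hq0.mul hvn).add (hvd.const_mul ‖b‖))).const_mul |lam * k v v|)
    have h3 := h2.add (((((hta.const_mul R).mul hvn).add (hvd.const_mul ‖k‖))).const_mul |lam|)
    rw [hρ]
    simpa using h3
  have hres : ∀ m ψ, |a ((t m)⁻¹ • (vs m - v) - s) ψ - lam * b ((t m)⁻¹ • (vs m - v) - s) ψ| ≤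
      (ε₀ + ρ m) * ‖ψ‖ := by
    intro m ψ
    have e1 : a ((t m)⁻¹ • (vs m - v) - s) ψ - lam * b ((t m)⁻¹ • (vs m - v) - s) ψ =
        (lam * (k v ψ - k v v * b v ψ) - (a s ψ - lam * b s ψ)) +
        ((d m + lam * k v v) * bs m (vs m) ψ - lam * k v v * (bs m (vs m) ψ - b v ψ) +
        lam * ((t m)⁻¹ * (bs m (vs m) ψ - b (vs m) ψ) - k v ψ)) := by
      have e2 := hmain m ψ
      simp only [map_sub, map_smul, _root_.sub_apply, _root_.smul_apply, smul_eq_mul, heig]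
      linear_combination e2
    rw [e1]
    have e3 : |bs m (vs m) ψ| ≤ (‖b‖ + q m) * ‖vs m‖ * ‖ψ‖ := by
      have e4 : |b (vs m) ψ| ≤ ‖b‖ * ‖vs m‖ * ‖ψ‖ := b.le_opNorm₂ (vs m) ψ
      calc |bs m (vs m) ψ| = |(bs m (vs m) ψ - b (vs m) ψ) + b (vs m) ψ| := by ring_nf
        _ ≤ |bs m (vs m) ψ - b (vs m) ψ| + |b (vs m) ψ| := abs_add_le _ _
        _ ≤ q m * ‖vs m‖ * ‖ψ‖ + ‖b‖ * ‖vs m‖ * ‖ψ‖ := add_le_add (hq' m _ _) e4
        _ = _ := by ring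
    have e5 : |bs m (vs m) ψ - b v ψ| ≤ (q m * ‖vs m‖ + ‖b‖ * ‖vs m - v‖) * ‖ψ‖ := by
      have e4 : |b (vs m - v) ψ| ≤ ‖b‖ * ‖vs m - v‖ * ‖ψ‖ := b.le_opNorm₂ _ ψ
      have e6 : bs m (vs m) ψ - b v ψ = (bs m (vs m) ψ - b (vs m) ψ) + b (vs m - v) ψ := by
        rw [map_sub, _root_.sub_apply]; ring
      rw [e6]
      calc |(bs m (vs m) ψ - b (vs m) ψ) + b (vs m - v) ψ| ≤
          |bs m (vs m) ψ - b (vs m) ψ| + |b (vs m - v) ψ| := abs_add_le _ _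
        _ ≤ q m * ‖vs m‖ * ‖ψ‖ + ‖b‖ * ‖vs m - v‖ * ‖ψ‖ := add_le_add (hq' m _ _) e4
        _ = _ := by ring
    have e7 : |(t m)⁻¹ * (bs m (vs m) ψ - b (vs m) ψ) - k v ψ| ≤
        (R * |t m| * ‖vs m‖ + ‖k‖ * ‖vs m - v‖) * ‖ψ‖ := by
      have e4 : |k (vs m - v) ψ| ≤ ‖k‖ * ‖vs m - v‖ * ‖ψ‖ := k.le_opNorm₂ _ ψ
      have e6 : (t m)⁻¹ * (bs m (vs m) ψ - b (vs m) ψ) - k v ψ =
          ((t m)⁻¹ * (bs m (vs m) ψ - b (vs m) ψ) - k (vs m) ψ) + k (vs m - v) ψ := by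
        rw [map_sub, _root_.sub_apply]; ring
      rw [e6]
      calc |((t m)⁻¹ * (bs m (vs m) ψ - b (vs m) ψ) - k (vs m) ψ) + k (vs m - v) ψ| ≤
          |(t m)⁻¹ * (bs m (vs m) ψ - b (vs m) ψ) - k (vs m) ψ| + |k (vs m - v) ψ| :=
            abs_add_le _ _
        _ ≤ R * |t m| * ‖vs m‖ * ‖ψ‖ + ‖k‖ * ‖vs m - v‖ * ‖ψ‖ := add_le_add (hD m _ _) e4
        _ = _ := by ring
    have e8 := hs1 ψ
    calc |(lam * (k v ψ - k v v * b v ψ) - (a s ψ - lam * b s ψ)) +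
        ((d m + lam * k v v) * bs m (vs m) ψ - lam * k v v * (bs m (vs m) ψ - b v ψ) +
        lam * ((t m)⁻¹ * (bs m (vs m) ψ - b (vs m) ψ) - k v ψ))| ≤
        |lam * (k v ψ - k v v * b v ψ) - (a s ψ - lam * b s ψ)| +
        (|(d m + lam * k v v) * bs m (vs m) ψ| + |lam * k v v * (bs m (vs m) ψ - b v ψ)| +
        |lam * ((t m)⁻¹ * (bs m (vs m) ψ - b (vs m) ψ) - k v ψ)|) := by
          refine (abs_add_le _ _).trans (add_le_add le_rfl ?_)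
          refine (abs_add_le _ _).trans (add_le_add ?_ le_rfl)
          exact abs_sub _ _
      _ ≤ ε₀ * ‖ψ‖ + (|d m + lam * k v v| * ((‖b‖ + q m) * ‖vs m‖ * ‖ψ‖) +
        |lam * k v v| * ((q m * ‖vs m‖ + ‖b‖ * ‖vs m - v‖) * ‖ψ‖) +
        |lam| * ((R * |t m| * ‖vs m‖ + ‖k‖ * ‖vs m - v‖) * ‖ψ‖)) := by
          rw [abs_mul (d m + lam * k v v), abs_mul (lam * k v v),
            abs_mul lam ((t m)⁻¹ * (bs m (vs m) ψ - b (vs m) ψ) - k v ψ)]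
          refine add_le_add e8 (add_le_add (add_le_add ?_ ?_) ?_)
          · exact mul_le_mul_of_nonneg_left e3 (abs_nonneg _)
          · exact mul_le_mul_of_nonneg_left e5 (abs_nonneg _)
          · exact mul_le_mul_of_nonneg_left e7 (abs_nonneg _)
      _ = (ε₀ + ρ m) * ‖ψ‖ := by rw [hρ]; ring
  have hρn : ∀ m, 0 ≤ ρ m := fun m => by
    rw [hρ]
    have := hqn m
    positivity
  have hfin : Tendsto (fun m => C * ((ε₀ + ρ m) + |(t m)⁻¹ * b (vs m - v) v - b s v|)) atTop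
      (𝓝 (C * ((ε₀ + 0) + |-(k v v) / 2 - b s v|))) :=
    ((hρ0.const_add ε₀).add ((hnorm.sub_const (b s v)).abs)).const_mul C
  have hlt : C * ((ε₀ + 0) + |-(k v v) / 2 - b s v|) < C * (2 * ε₀) + ε₁ := by
    have h1 : |-(k v v) / 2 - b s v| = |2 * b s v + k v v| / 2 := by
      rw [← abs_neg, show -(-(k v v) / 2 - b s v) = (2 * b s v + k v v) / 2 by ring, abs_div,
        abs_two]
    rw [h1, add_zero]
    have h2 : C * (ε₀ + |2 * b s v + k v v| / 2) ≤ C * (2 * ε₀) :=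
      mul_le_mul_of_nonneg_left (by linarith) hC0.le
    linarith
  filter_upwards [hfin.eventually_lt_const hlt] with m h1
  have h2 := hC ((t m)⁻¹ • (vs m - v) - s) (ε₀ + ρ m) (add_nonneg hε₀ (hρn m)) (hres m)
  have h3 : b ((t m)⁻¹ • (vs m - v) - s) v = (t m)⁻¹ * b (vs m - v) v - b s v := by
    rw [map_sub, map_smul, _root_.sub_apply, _root_.smul_apply, smul_eq_mul]
  rw [h3] at h2
  exact h2.trans h1.le

end Pool.Agent.Q233.GLV
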