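import Pool.Agent.Q233.GLV.Frm
import Pool.Agent.Q233.GLV.Quot

/-!
# Generic levels: independence of the squares at one conformal factor
-/

set_option autoImplicit false
set_option linter.unusedSectionVars false

open Set Filter Topology MeasureTheory
open Pool.Agent.Y262.QE Pool.Agent.Y264.QR Pool.Agent.Y319.QR Q101.QG

noncomputable section

namespace Pool.Agent.Q233.GLV

/-- an almost diagonal system of equations -/
lemma diag {J : Finset ℕ} {m : ℕ → ℕ → ℝ} {η : ℝ} (hη0 : 0 ≤ η) (hη : (J.card : ℝ) * η ≤ 1 / 2)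
    (hm : ∀ l ∈ J, ∀ j ∈ J, |m l j - if l = j then 1 else 0| ≤ η) {c d : ℕ → ℝ}
    (h : ∀ l ∈ J, ∑ j ∈ J, c j * m l j = d l) :
    ∑ l ∈ J, |c l| ≤ 2 * ∑ l ∈ J, |d l| ∧ ∀ l ∈ J, |c l - d l| ≤ η * ∑ j ∈ J, |c j| := by
  have h1 : ∀ l ∈ J, |c l - d l| ≤ η * ∑ j ∈ J, |c j| := by
    intro l hl
    have e1 : c l - d l = -∑ j ∈ J, c j * (m l j - if l = j then 1 else 0) := by
      rw [← h l hl]
      simp only [mul_sub, Finset.sum_sub_distrib]
      have : ∑ j ∈ J, c j * (if l = j then (1 : ℝ) else 0) = c l := by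
        simp [hl]
      rw [this]
      ring
    rw [e1, abs_neg, Finset.mul_sum]
    refine (Finset.abs_sum_le_sum_abs _ _).trans (Finset.sum_le_sum fun j hj => ?_)
    rw [abs_mul, mul_comm]
    exact mul_le_mul_of_nonneg_right (hm l hl j hj) (abs_nonneg _)
  refine ⟨?_, h1⟩
  have h2 : ∑ l ∈ J, |c l| ≤ ∑ l ∈ J, (|d l| + η * ∑ j ∈ J, |c j|) := by
    refine Finset.sum_le_sum fun l hl => ?_
    have := h1 l hl
    calc |c l| = |d l + (c l - d l)| := by ring_nf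
      _ ≤ |d l| + |c l - d l| := abs_add_le _ _
      _ ≤ _ := by linarith
  rw [Finset.sum_add_distrib, Finset.sum_const, nsmul_eq_mul] at h2
  have h3 : 0 ≤ ∑ j ∈ J, |c j| := Finset.sum_nonneg fun j _ => abs_nonneg _
  nlinarith

variable {M : Type} [MetricSpace M] [CompactSpace M] [MeasurableSpace M] [BorelSpace M]
  {μ : Measure M} [IsFiniteMeasure μ] {H : Type} [NormedAddCommGroup H] [InnerProductSpace ℝ H]
  {i : H →L[ℝ] Lp ℝ 2 μ} {a : H →L[ℝ] H →L[ℝ] ℝ} {b : C(M, ℝ) → H →L[ℝ] H →L[ℝ] ℝ}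

lemma kap_kf (hB : IsB μ i b) (h φ : C(M, ℝ)) (v : H) :
    kap μ i h φ v = kf b (h * ex φ) v v := by
  rw [kf_apply hB]
  unfold kap
  refine integral_congr_ae (Eventually.of_forall fun x => ?_)
  simp only [ex, ContinuousMap.mul_apply, ContinuousMap.coe_mk]
  ring

lemma kf_bdi (hB : IsB μ i b) {f : C(M, ℝ)} {c : ℝ} (hc : 0 ≤ c)
    (hf : ∀ x, |f x| ≤ c) (u w : H) : |kf b f u w| ≤ c * ‖i u‖ * ‖i w‖ := by
  have h1 := (wbd (μ := μ) f.continuous.aestronglyMeasurable hc (Eventually.of_forall hf)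
    (i u) (i w)).2
  have e1 : ∫ x, f x * inner ℝ ((i u : M → ℝ) x) ((i w : M → ℝ) x) ∂μ = kf b f u w := by
    rw [kf_apply hB]
    refine integral_congr_ae (Eventually.of_forall fun x => ?_)
    simp only [RCLike.inner_apply, conj_trivial]
    ring
  rwa [e1] at h1

/-- simple eigenvalues -/
def Sim (a : H →L[ℝ] H →L[ℝ] ℝ) (b : C(M, ℝ) → H →L[ℝ] H →L[ℝ] ℝ) (φ : C(M, ℝ)) (j : ℕ) : Prop :=
  ∀ l, l ≠ j → Ev a (b φ) l ≠ Ev a (b φ) j

lemma ev_simple (hS : Sf μ i a) (hB : IsB μ i b) {φ : C(M, ℝ)} {e : ℕ → H} {E : ℕ → ℝ}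
    (hE : Eg a (b φ) e E) {j : ℕ} (hs : Sim a b φ j) {v : H}
    (hv : EV a (b φ) (Ev a (b φ) j) v) (h : C(M, ℝ)) : kap μ i h φ v = kap μ i h φ (e j) := by
  obtain ⟨hF, -, -⟩ := forms μ i a b hS hB
  have hmm : ∀ l, Ev a (b φ) l = E l :=
    fun l => Pool.Agent.Y592.QE.mm H a (b φ) (hF φ) e E hE l
  have hs' : ∀ l, l ≠ j → E l ≠ E j := fun l hl => by rw [← hmm, ← hmm]; exact hs l hl
  obtain ⟨C, hC0, hC⟩ := inv (hF φ) hE hs'
  have hjj : b φ (e j) (e j) = 1 := by rw [hE.orth, if_pos rfl]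
  rw [hmm] at hv
  have h0 : b φ (v - b φ v (e j) • e j) (e j) = 0 := by
    rw [map_sub, map_smul, _root_.sub_apply, _root_.smul_apply, smul_eq_mul, hjj]
    ring
  have h1 := hC (v - b φ v (e j) • e j) 0 le_rfl (fun ψ => by
    have e1 : a (v - b φ v (e j) • e j) ψ - E j * b φ (v - b φ v (e j) • e j) ψ = 0 := by
      simp only [map_sub, map_smul, _root_.sub_apply, _root_.smul_apply, smul_eq_mul, hE.eig,
        hv.1]
      ring
    rw [e1, abs_zero, zero_mul])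
  rw [h0, abs_zero, add_zero, mul_zero] at h1
  have h2 : v = b φ v (e j) • e j := by
    have := norm_eq_zero.1 (le_antisymm h1 (norm_nonneg _))
    exact sub_eq_zero.1 this
  have h3 : (b φ v (e j)) ^ 2 = 1 := by
    have h4 := hv.2
    rw [h2] at h4
    simp only [map_smul, _root_.smul_apply, smul_eq_mul, hjj, mul_one] at h4
    rw [sq]
    exact h4
  rw [kap_kf hB, kap_kf hB, h2]
  simp only [map_smul, _root_.smul_apply, smul_eq_mul, hjj, mul_one]
  rw [← mul_assoc, ← sq, h3, one_mul]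

/-- the pairing of a function with the square of an eigenfunction; the index `0` stands for the
constant function -/
def pw (μ : Measure M) (i : H →L[ℝ] Lp ℝ 2 μ) (φ h : C(M, ℝ)) (e : ℕ → H) (j : ℕ) : ℝ :=
  if j = 0 then ∫ x, h x * Real.exp (φ x) ∂μ else kap μ i h φ (e j)

/-- the squares and the constant function are linearly independent -/
def Ind (μ : Measure M) (i : H →L[ℝ] Lp ℝ 2 μ) (φ : C(M, ℝ)) (e : ℕ → H) (J : Finset ℕ) : Prop :=
  ∀ c : ℕ → ℝ, (∀ h : C(M, ℝ), ∑ j ∈ J, c j * pw μ i φ h e j = 0) → ∀ j ∈ J, c j = 0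

lemma pw_lin (hB : IsB μ i b) (φ f g : C(M, ℝ)) (c s : ℝ) (e : ℕ → H) (j : ℕ) :
    pw μ i φ (c • f + s • g) e j = c * pw μ i φ f e j + s * pw μ i φ g e j := by
  unfold pw
  split_ifs with hj
  · have h1 := RSP.cint μ f (RSP.exp_int (μ := μ) φ)
    have h2 := RSP.cint μ g (RSP.exp_int (μ := μ) φ)
    rw [← integral_const_mul, ← integral_const_mul, ← integral_add (h1.const_mul c)
      (h2.const_mul s)]
    refine integral_congr_ae (Eventually.of_forall fun x => ?_)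
    simp only [ContinuousMap.add_apply, ContinuousMap.smul_apply, smul_eq_mul]
    ring
  · rw [kap_kf hB, kap_kf hB, kap_kf hB, ← kf_lin hB]
    congr 2
    congr 1
    ext x
    simp only [ContinuousMap.add_apply, ContinuousMap.smul_apply, ContinuousMap.mul_apply,
      smul_eq_mul]
    ring

lemma pw_bd (hS : Sf μ i a) (hB : IsB μ i b) (φ : C(M, ℝ)) (e : ℕ → H) (j : ℕ) :
    ∃ K : ℝ, 0 ≤ K ∧ ∀ f : C(M, ℝ), |pw μ i φ f e j| ≤ K * ‖f‖ := by
  unfold pw
  by_cases hj : j = 0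
  · simp only [hj, if_true]
    refine ⟨∫ x, Real.exp (φ x) ∂μ, integral_nonneg fun x => (Real.exp_pos _).le, fun f => ?_⟩
    rw [← Real.norm_eq_abs, ← integral_mul_const]
    refine norm_integral_le_of_norm_le ((RSP.exp_int (μ := μ) φ).mul_const _)
      (Eventually.of_forall fun x => ?_)
    rw [norm_mul, Real.norm_eq_abs (Real.exp _), Real.abs_exp, mul_comm]
    exact mul_le_mul_of_nonneg_left (f.norm_coe_le_norm x) (Real.exp_pos _).le
  · simp only [hj, if_false]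
    refine ⟨‖ex φ‖ * ‖e j‖ * ‖e j‖, by positivity, fun f => ?_⟩
    rw [kap_kf hB]
    refine (kf_bd' hS hB _ _ _).trans ?_
    have h1 : ‖f * ex φ‖ ≤ ‖f‖ * ‖ex φ‖ := norm_mul_le _ _
    calc ‖f * ex φ‖ * ‖e j‖ * ‖e j‖ ≤ ‖f‖ * ‖ex φ‖ * ‖e j‖ * ‖e j‖ := by gcongr
      _ = _ := by ring

lemma pw_cont (hS : Sf μ i a) (hB : IsB μ i b) (φ : C(M, ℝ)) (e : ℕ → H) (j : ℕ) :
    Continuous fun f : C(M, ℝ) => pw μ i φ f e j := by
  obtain ⟨K, hK0, hK⟩ := pw_bd hS hB φ e j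
  refine (LipschitzWith.of_dist_le_mul (K := K.toNNReal) fun f g => ?_).continuous
  rw [Real.dist_eq, dist_eq_norm, Real.coe_toNNReal K hK0]
  have h1 := pw_lin hB φ f g 1 (-1) e j
  have h2 : (1 : ℝ) • f + (-1 : ℝ) • g = f - g := by
    rw [one_smul, neg_smul, one_smul, sub_eq_add_neg]
  rw [h2] at h1
  have h3 : pw μ i φ f e j - pw μ i φ g e j = pw μ i φ (f - g) e j := by
    rw [h1]; ring
  rw [h3]
  exact hK _

/-- dual functions -/
lemma dual (hS : Sf μ i a) (hB : IsB μ i b) {φ : C(M, ℝ)} {e : ℕ → H} {J : Finset ℕ}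
    (hI : Ind μ i φ e J) {B : Type} [AddCommGroup B] [Module ℝ B] [TopologicalSpace B]
    (ι : B →L[ℝ] C(M, ℝ)) (hι : DenseRange ι) :
    ∃ κ : ℕ → B, ∀ l ∈ J, ∀ j ∈ J, pw μ i φ (ι (κ l)) e j = if l = j then 1 else 0 := by
  obtain ⟨Φ, hΦ⟩ : ∃ Φ : B →ₗ[ℝ] (J → ℝ), ∀ x j, Φ x j = pw μ i φ (ι x) e j := by
    refine ⟨{ toFun := fun x j => pw μ i φ (ι x) e j
              map_add' := fun x y => ?_
              map_smul' := fun c x => ?_ }, fun x j => rfl⟩
    · funext j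
      have h1 := pw_lin hB φ (ι x) (ι y) 1 1 e j
      rw [one_smul, one_smul, one_mul, one_mul] at h1
      rw [map_add, Pi.add_apply]
      exact h1
    · funext j
      have h1 := pw_lin hB φ (ι x) 0 c 0 e j
      rw [smul_zero, add_zero, zero_mul, add_zero] at h1
      rw [map_smul, RingHom.id_apply, Pi.smul_apply, smul_eq_mul]
      exact h1
  have hsurj : LinearMap.range Φ = ⊤ := by
    by_contra hne
    obtain ⟨f, hf0, hf⟩ := Submodule.exists_le_ker_of_lt_top _ (lt_top_iff_ne_top.2 hne)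
    obtain ⟨c, hc⟩ : ∃ c : ℕ → ℝ, c = fun j => if h : j ∈ J then f (Pi.single ⟨j, h⟩ 1) else 0 :=
      ⟨_, rfl⟩
    have hfc : ∀ y : J → ℝ, f y = ∑ j : J, c j * y j := by
      intro y
      have h1 : y = ∑ j : J, y j • (Pi.single j (1 : ℝ) : J → ℝ) := by
        funext l
        rw [Finset.sum_apply]
        simp [Pi.single_apply]
      conv_lhs => rw [h1]
      rw [map_sum]
      refine Finset.sum_congr rfl fun j _ => ?_
      rw [map_smul, smul_eq_mul, hc]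
      simp only [j.2, dif_pos, Subtype.coe_eta]
      ring
    have h1 : ∀ x : B, ∑ j ∈ J, c j * pw μ i φ (ι x) e j = 0 := by
      intro x
      have h2 : Φ x ∈ LinearMap.ker f := hf ⟨x, rfl⟩
      rw [LinearMap.mem_ker, hfc] at h2
      rw [← h2, ← Finset.sum_coe_sort J]
      exact Finset.sum_congr rfl fun j _ => by rw [hΦ]
    have h2 : (fun h : C(M, ℝ) => ∑ j ∈ J, c j * pw μ i φ h e j) = fun _ => 0 := by
      refine hι.equalizer (continuous_finsetSum _ fun j _ => (pw_cont hS hB φ e j).const_mul _)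
        continuous_const ?_
      funext x
      exact h1 x
    have h3 := hI c (fun h => congrFun h2 h)
    apply hf0
    ext j
    rw [LinearMap.comp_apply, LinearMap.zero_comp, LinearMap.zero_apply]
    have h4 := h3 j j.2
    rw [hc] at h4
    simp only [j.2, dif_pos, Subtype.coe_eta] at h4
    exact h4
  have hex : ∀ l : ℕ, ∃ x : B, ∀ j : J, Φ x j = if l = j then 1 else 0 := by
    intro l
    have h1 : (fun j : J => if l = (j : ℕ) then (1 : ℝ) else 0) ∈ LinearMap.range Φ := by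
      rw [hsurj]; exact Submodule.mem_top
    obtain ⟨x, hx⟩ := h1
    exact ⟨x, fun j => congrFun hx j⟩
  choose κ hκ using hex
  exact ⟨κ, fun l _ j hj => by rw [← hΦ (κ l) ⟨j, hj⟩]; exact hκ l ⟨j, hj⟩⟩

/-- the pairings depend continuously on the conformal factor -/
lemma pw_near [CompleteSpace H] (hS : Sf μ i a) (hB : IsB μ i b) {φ : C(M, ℝ)} {e : ℕ → H}
    {E : ℕ → ℝ} (hE : Eg a (b φ) e E) {j : ℕ} (hs : j ≠ 0 → Sim a b φ j) (h : C(M, ℝ)) {ε : ℝ}
    (hε : 0 < ε) : ∀ᶠ ψ in 𝓝 φ, ∀ (e' : ℕ → H) (E' : ℕ → ℝ), Eg a (b ψ) e' E' →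
      |pw μ i ψ h e' j - pw μ i φ h e j| ≤ ε := by
  obtain ⟨hF, -, -⟩ := forms μ i a b hS hB
  by_cases hj : j = 0
  · have h1 : Continuous fun ψ : C(M, ℝ) => ∫ x, h x * Real.exp (ψ x) ∂μ :=
      (Pool.Agent.Y689.QR.int_cont μ).comp
        (continuous_const.mul Pool.Agent.Y689.QR.exp_cont : Continuous fun φ : C(M, ℝ) =>
          h * (⟨fun x => Real.exp (φ x), Real.continuous_exp.comp φ.continuous⟩ : C(M, ℝ)))
    filter_upwards [(h1.tendsto φ).eventually (Metric.ball_mem_nhds _ hε)] with ψ hψ e' E' _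
    unfold pw
    rw [if_pos hj, if_pos hj]
    rw [Real.dist_eq] at hψ
    exact hψ.le
  · have h1 := kap_near hS hB j h φ (kap μ i h φ (e j)) 0 ε hε (fun v hv => by
      rw [ev_simple hS hB hE (hs hj) hv h, sub_self, abs_zero])
    filter_upwards [h1] with ψ hψ e' E' hE'
    unfold pw
    rw [if_neg hj, if_neg hj]
    have h2 := hψ (e' j) ⟨fun w => by
      rw [Pool.Agent.Y592.QE.mm H a (b ψ) (hF ψ) e' E' hE' j, hE'.eig],
      by rw [hE'.orth, if_pos rfl]⟩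
    rwa [zero_add] at h2

/-- the relation -/
lemma rel {φ : C(M, ℝ)} {e : ℕ → H} {J : Finset ℕ} {j₀ : ℕ} (hj₀ : j₀ ∉ J)
    (h1 : ¬ Ind μ i φ e (insert j₀ J)) (h2 : Ind μ i φ e J) :
    ∃ γ : ℕ → ℝ, ∀ h : C(M, ℝ), pw μ i φ h e j₀ = ∑ j ∈ J, γ j * pw μ i φ h e j := by
  unfold Ind at h1
  push Not at h1
  obtain ⟨c, hc, l, hl, hcl⟩ := h1
  simp only [Finset.sum_insert hj₀] at hc
  have hc0 : c j₀ ≠ 0 := by
    intro h0
    simp only [h0, zero_mul, zero_add] at hc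
    have h3 := h2 c hc
    rcases Finset.mem_insert.1 hl with h | h
    · rw [h] at hcl
      exact hcl h0
    · exact hcl (h3 l h)
  refine ⟨fun j => -(c j / c j₀), fun h => ?_⟩
  have h3 := hc h
  have h4 : ∑ j ∈ J, -(c j / c j₀) * pw μ i φ h e j = -(c j₀)⁻¹ * ∑ j ∈ J, c j * pw μ i φ h e j := by
    rw [Finset.mul_sum]
    refine Finset.sum_congr rfl fun j _ => ?_
    field_simp
  rw [h4]
  have h5 : ∑ j ∈ J, c j * pw μ i φ h e j = -(c j₀ * pw μ i φ h e j₀) := by linarith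
  rw [h5]
  field_simp

/-- the independence is an open condition -/
theorem ind_open [CompleteSpace H] (hS : Sf μ i a) (hB : IsB μ i b) {φ : C(M, ℝ)} {e : ℕ → H}
    {E : ℕ → ℝ} (hE : Eg a (b φ) e E) {J : Finset ℕ} (hs : ∀ j ∈ J, j ≠ 0 → Sim a b φ j)
    (hI : Ind μ i φ e J) : ∀ᶠ ψ in 𝓝 φ, ∀ (e' : ℕ → H) (E' : ℕ → ℝ), Eg a (b ψ) e' E' →
      Ind μ i ψ e' J := by
  obtain ⟨κ, hκ⟩ := dual hS hB hI (ContinuousLinearMap.id ℝ C(M, ℝ)) (by
    exact Function.Surjective.denseRange fun x => ⟨x, rfl⟩)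
  obtain ⟨η, hη⟩ : ∃ η : ℝ, η = 1 / (2 * ((J.card : ℝ) + 1)) := ⟨_, rfl⟩
  have hη0 : 0 < η := by rw [hη]; positivity
  have hη1 : (J.card : ℝ) * η ≤ 1 / 2 := by
    rw [hη, mul_one_div, div_le_div_iff₀ (by positivity) (by norm_num)]
    have : (0 : ℝ) ≤ J.card := Nat.cast_nonneg _
    linarith
  have hev : ∀ᶠ ψ in 𝓝 φ, ∀ l ∈ J, ∀ j ∈ J, ∀ (e' : ℕ → H) (E' : ℕ → ℝ), Eg a (b ψ) e' E' →
      |pw μ i ψ (κ l) e' j - pw μ i φ (κ l) e j| ≤ η := by
    rw [Finset.eventually_all]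
    intro l _
    rw [Finset.eventually_all]
    intro j hj
    exact pw_near hS hB hE (hs j hj) (κ l) hη0
  filter_upwards [hev] with ψ hψ e' E' hE' c hc
  have h1 := diag (J := J) (m := fun l j => pw μ i ψ (κ l) e' j) (c := c) (d := fun _ => 0)
    hη0.le hη1 (fun l hl j hj => by
      have h2 := hψ l hl j hj e' E' hE'
      have h3 := hκ l hl j hj
      rw [ContinuousLinearMap.id_apply] at h3
      rwa [h3] at h2) (fun l _ => hc (κ l))
  have h2 := h1.1
  simp only [abs_zero, Finset.sum_const_zero, mul_zero] at h2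
  intro j hj
  have h3 : |c j| ≤ ∑ l ∈ J, |c l| := Finset.single_le_sum (fun l _ => abs_nonneg (c l)) hj
  exact abs_eq_zero.1 (le_antisymm (h3.trans h2) (abs_nonneg _))

end Pool.Agent.Q233.GLV
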