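import Pool.Agent.Q233.GLV.Indep

/-!
# Generic levels: strict differentiability of the simple eigenvalues
-/

set_option autoImplicit false
set_option linter.unusedSectionVars false

open Set Filter Topology MeasureTheory
open Pool.Agent.Y262.QE Pool.Agent.Y264.QR Pool.Agent.Y319.QR Q101.QG

noncomputable section

namespace Pool.Agent.Q233.GLV

variable {M : Type} [MetricSpace M] [CompactSpace M] [MeasurableSpace M] [BorelSpace M]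
  {μ : Measure M} [IsFiniteMeasure μ] {H : Type} [NormedAddCommGroup H] [InnerProductSpace ℝ H]
  {i : H →L[ℝ] Lp ℝ 2 μ} {a : H →L[ℝ] H →L[ℝ] ℝ} {b : C(M, ℝ) → H →L[ℝ] H →L[ℝ] ℝ}

lemma exp_real {u v w ρ : ℝ} (hu : |u - w| ≤ ρ) (hv : |v - w| ≤ ρ) (hρ : ρ ≤ 1 / 2) :
    |Real.exp u - Real.exp v - (u - v) * Real.exp w| ≤ 8 * ρ * Real.exp w * |u - v| := by
  have hρ0 : 0 ≤ ρ := (abs_nonneg _).trans hu
  have hd : |u - v| ≤ 2 * ρ := by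
    calc |u - v| = |(u - w) - (v - w)| := by ring_nf
      _ ≤ |u - w| + |v - w| := abs_sub _ _
      _ ≤ 2 * ρ := by linarith
  have hd1 : |u - v| ≤ 1 := hd.trans (by linarith)
  have h1 := Real.abs_exp_sub_one_sub_id_le hd1
  have h2 := Real.abs_exp_sub_one_le (hv.trans (by linarith : ρ ≤ 1))
  have h3 : Real.exp (v - w) ≤ 3 := by
    have := (abs_le.1 h2).2
    linarith
  have e1 : Real.exp u - Real.exp v - (u - v) * Real.exp w = Real.exp w *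
      (Real.exp (v - w) * (Real.exp (u - v) - 1 - (u - v)) +
        (Real.exp (v - w) - 1) * (u - v)) := by
    have e2 : Real.exp u = Real.exp w * Real.exp (v - w) * Real.exp (u - v) := by
      rw [← Real.exp_add, ← Real.exp_add]
      congr 1
      ring
    have e3 : Real.exp v = Real.exp w * Real.exp (v - w) := by
      rw [← Real.exp_add]
      congr 1
      ring
    rw [e2, e3]
    ring
  have h4 : |Real.exp (v - w) * (Real.exp (u - v) - 1 - (u - v)) +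
        (Real.exp (v - w) - 1) * (u - v)| ≤ 8 * ρ * |u - v| := by
    refine (abs_add_le _ _).trans ?_
    rw [abs_mul, abs_mul, Real.abs_exp]
    have q1 : Real.exp (v - w) * |Real.exp (u - v) - 1 - (u - v)| ≤ 3 * (2 * ρ * |u - v|) := by
      refine mul_le_mul h3 (h1.trans ?_) (abs_nonneg _) (by norm_num)
      rw [← sq_abs, sq]
      exact mul_le_mul_of_nonneg_right hd (abs_nonneg _)
    have q2 : |Real.exp (v - w) - 1| * |u - v| ≤ 2 * ρ * |u - v| :=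
      mul_le_mul_of_nonneg_right (h2.trans (by linarith)) (abs_nonneg _)
    linarith
  rw [e1, abs_mul, Real.abs_exp]
  calc Real.exp w * _ ≤ Real.exp w * (8 * ρ * |u - v|) :=
        mul_le_mul_of_nonneg_left h4 (Real.exp_pos _).le
    _ = _ := by ring

lemma exp_unif {φ ψ₁ ψ₂ : C(M, ℝ)} {ρ : ℝ} (h1 : ‖ψ₁ - φ‖ ≤ ρ) (h2 : ‖ψ₂ - φ‖ ≤ ρ)
    (hρ : ρ ≤ 1 / 2) (x : M) :
    |(ex ψ₁ - ex ψ₂ - (ψ₁ - ψ₂) * ex φ) x| ≤ 8 * ρ * ‖ex φ‖ * ‖ψ₁ - ψ₂‖ := by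
  have hρ0 : 0 ≤ ρ := (norm_nonneg _).trans h1
  have h3 := exp_real (u := ψ₁ x) (v := ψ₂ x) (w := φ x)
    (((ψ₁ - φ).norm_coe_le_norm x).trans h1) (((ψ₂ - φ).norm_coe_le_norm x).trans h2) hρ
  have h4 : Real.exp (φ x) ≤ ‖ex φ‖ := (le_abs_self _).trans ((ex φ).norm_coe_le_norm x)
  have h5 : |ψ₁ x - ψ₂ x| ≤ ‖ψ₁ - ψ₂‖ := (ψ₁ - ψ₂).norm_coe_le_norm x
  have e1 : (ex ψ₁ - ex ψ₂ - (ψ₁ - ψ₂) * ex φ) x =
      Real.exp (ψ₁ x) - Real.exp (ψ₂ x) - (ψ₁ x - ψ₂ x) * Real.exp (φ x) := rfl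
  rw [e1]
  refine h3.trans ?_
  exact mul_le_mul (mul_le_mul_of_nonneg_left h4 (by positivity)) h5 (abs_nonneg _)
    (by positivity)

lemma kf_sub (hB : IsB μ i b) (f g : C(M, ℝ)) (u w : H) :
    kf b (f - g) u w = kf b f u w - kf b g u w := by
  have h1 := kf_lin hB f g 1 (-1) u w
  have h2 : (1 : ℝ) • f + (-1 : ℝ) • g = f - g := by
    rw [one_smul, neg_smul, one_smul, sub_eq_add_neg]
  rw [h2] at h1
  rw [h1]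
  ring

theorem strict_seq [CompleteSpace H] (hS : Sf μ i a) (hB : IsB μ i b) {φ : C(M, ℝ)} {e : ℕ → H}
    {E : ℕ → ℝ} (hE : Eg a (b φ) e E) {j : ℕ} (hs : Sim a b φ j) {ψ₁ ψ₂ : ℕ → C(M, ℝ)}
    (t1 : Tendsto ψ₁ atTop (𝓝 φ)) (t2 : Tendsto ψ₂ atTop (𝓝 φ)) {ε : ℝ} (hε : 0 < ε) :
    ∀ᶠ m in atTop, |Ev a (b (ψ₁ m)) j - Ev a (b (ψ₂ m)) j +
      E j * kap μ i (ψ₁ m - ψ₂ m) φ (e j)| ≤ ε * ‖ψ₁ m - ψ₂ m‖ := by
  obtain ⟨hF, hb, -⟩ := forms μ i a b hS hB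
  have hcont := (tLip M μ H a b hF hb).2.2.2.1
  have hmm : ∀ {ψ : C(M, ℝ)} {e' : ℕ → H} {E' : ℕ → ℝ}, Eg a (b ψ) e' E' →
      ∀ j, Ev a (b ψ) j = E' j := fun {ψ e' E'} h j =>
    Pool.Agent.Y592.QE.mm H a (b ψ) (hF ψ) e' E' h j
  have hs' : ∀ l, l ≠ j → E l ≠ E j := fun l hl => by
    have := hs l hl
    rwa [hmm hE, hmm hE] at this
  have hjj : b φ (e j) (e j) = 1 := by rw [hE.orth, if_pos rfl]
  have hbd : ∀ (ψ : C(M, ℝ)) u w, |b ψ u w - b φ u w| ≤ ‖ex ψ - ex φ‖ * ‖u‖ * ‖w‖ := by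
    intro ψ u w
    rw [← kf_ex hB, ← kf_ex hB, ← kf_sub hB]
    exact kf_bd' hS hB _ _ _
  have hexc : Continuous fun ψ : C(M, ℝ) => ex ψ := Pool.Agent.Y689.QR.exp_cont
  have hδ : ∀ ψs : ℕ → C(M, ℝ), Tendsto ψs atTop (𝓝 φ) →
      Tendsto (fun m => ‖ex (ψs m) - ex φ‖) atTop (𝓝 0) := fun ψs h =>
    tendsto_iff_norm_sub_tendsto_zero.1 ((hexc.tendsto φ).comp h)
  have hvec : ∀ ψs : ℕ → C(M, ℝ), Tendsto ψs atTop (𝓝 φ) → ∃ v : ℕ → H,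
      Tendsto v atTop (𝓝 (e j)) ∧ ∀ m, EV a (b (ψs m)) (Ev a (b (ψs m)) j) (v m) := by
    intro ψs h
    choose es Es hEs using fun m => tSp H a (b (ψs m)) (hF _)
    have hEvt : Tendsto (fun m => Ev a (b (ψs m)) j) atTop (𝓝 (E j)) := by
      have h1 := ((hcont j).tendsto φ).comp h
      rwa [hmm hE] at h1
    have hEV : ∀ m, EV a (b (ψs m)) (Ev a (b (ψs m)) j) (es m j) := fun m =>
      ⟨fun w => by rw [hmm (hEs m), (hEs m).eig], by rw [(hEs m).orth, if_pos rfl]⟩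
    obtain ⟨σ, hσ1, hσ2⟩ := conv (hF φ) hE hs' (fun m => norm_nonneg (ex (ψs m) - ex φ)) (hδ ψs h)
      (fun m => hbd (ψs m)) hEvt hEV
    refine ⟨_, hσ2, fun m => ?_⟩
    rcases hσ1 m with h2 | h2
    · rw [h2, one_smul]; exact hEV m
    · rw [h2, neg_smul, one_smul]; exact ev_neg (hEV m)
  obtain ⟨v₁, hv₁, hev₁⟩ := hvec ψ₁ t1
  obtain ⟨v₂, hv₂, hev₂⟩ := hvec ψ₂ t2
  -- the product
  obtain ⟨β, hβ⟩ : ∃ β : ℕ → ℝ, β = fun m => b (ψ₁ m) (v₁ m) (v₂ m) := ⟨_, rfl⟩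
  have hβt : Tendsto β atTop (𝓝 1) := by
    have h1 : Tendsto (fun m => b φ (v₁ m) (v₂ m)) atTop (𝓝 1) := by
      rw [← hjj]
      exact ((b φ).continuous₂.tendsto (e j, e j)).comp (hv₁.prodMk_nhds hv₂)
    have h2 : Tendsto (fun m => b (ψ₁ m) (v₁ m) (v₂ m) - b φ (v₁ m) (v₂ m)) atTop (𝓝 0) := by
      have h3 := ((hδ ψ₁ t1).mul hv₁.norm).mul hv₂.norm
      rw [zero_mul, zero_mul] at h3
      exact squeeze_zero_norm (fun m => hbd (ψ₁ m) _ _) h3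
    have h3 := h2.add h1
    rw [zero_add] at h3
    rw [hβ]
    refine h3.congr fun m => ?_
    ring
  obtain ⟨E₂, hE₂⟩ : ∃ E₂ : ℕ → ℝ, E₂ = fun m => Ev a (b (ψ₂ m)) j := ⟨_, rfl⟩
  have hE₂t : Tendsto E₂ atTop (𝓝 (E j)) := by
    have h1 := ((hcont j).tendsto φ).comp t2
    rw [hmm hE] at h1
    rw [hE₂]
    exact h1
  obtain ⟨ρ, hρ⟩ : ∃ ρ : ℕ → ℝ, ρ = fun m => ‖ψ₁ m - φ‖ + ‖ψ₂ m - φ‖ := ⟨_, rfl⟩
  have hρt : Tendsto ρ atTop (𝓝 0) := by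
    rw [hρ]
    have := (tendsto_iff_norm_sub_tendsto_zero.1 t1).add (tendsto_iff_norm_sub_tendsto_zero.1 t2)
    rwa [add_zero] at this
  obtain ⟨c, hc⟩ : ∃ c : ℕ → ℝ, c = fun m => |E j - E₂ m / β m| * (‖ex φ‖ * ‖e j‖ * ‖e j‖) +
    |E₂ m / β m| * (8 * ρ m * ‖ex φ‖ * ‖v₁ m‖ * ‖v₂ m‖ +
      (‖ex φ‖ * ‖v₁ m - e j‖ * ‖v₂ m‖ + ‖ex φ‖ * ‖e j‖ * ‖v₂ m - e j‖)) := ⟨_, rfl⟩
  have hq : Tendsto (fun m => E₂ m / β m) atTop (𝓝 (E j)) := by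
    have := hE₂t.div hβt one_ne_zero
    rwa [div_one] at this
  have hct : Tendsto c atTop (𝓝 0) := by
    have q1 : Tendsto (fun m => |E j - E₂ m / β m|) atTop (𝓝 0) := by
      have := (hq.const_sub (E j)).abs
      rwa [sub_self, abs_zero] at this
    have q2 : Tendsto (fun m => ‖v₁ m - e j‖) atTop (𝓝 0) := tendsto_iff_norm_sub_tendsto_zero.1 hv₁
    have q3 : Tendsto (fun m => ‖v₂ m - e j‖) atTop (𝓝 0) := tendsto_iff_norm_sub_tendsto_zero.1 hv₂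
    have q4 := (q1.mul_const (‖ex φ‖ * ‖e j‖ * ‖e j‖)).add (hq.abs.mul
      (((((hρt.const_mul 8).mul_const ‖ex φ‖).mul hv₁.norm).mul hv₂.norm).add
        (((q2.const_mul ‖ex φ‖).mul hv₂.norm).add (q3.const_mul (‖ex φ‖ * ‖e j‖)))))
    rw [hc]
    simpa using q4
  filter_upwards [hct.eventually (eventually_lt_nhds hε),
    hρt.eventually (eventually_lt_nhds (show (0 : ℝ) < 1 / 2 by norm_num)),
    hβt.eventually_ne one_ne_zero] with m hcm hρm hβm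
  have hρ1 : ‖ψ₁ m - φ‖ ≤ ρ m := by
    rw [hρ]; simp only; linarith [norm_nonneg (ψ₂ m - φ)]
  have hρ2 : ‖ψ₂ m - φ‖ ≤ ρ m := by
    rw [hρ]; simp only; linarith [norm_nonneg (ψ₁ m - φ)]
  obtain ⟨Δ, hΔ⟩ : ∃ Δ : C(M, ℝ), Δ = ψ₁ m - ψ₂ m := ⟨_, rfl⟩
  rw [← hΔ]
  -- the identity
  have hid : Ev a (b (ψ₁ m)) j * β m = E₂ m * b (ψ₂ m) (v₁ m) (v₂ m) := by
    have h1 := (hev₁ m).1 (v₂ m)
    have h2 := (hev₂ m).1 (v₁ m)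
    rw [(hF φ).sa, (hF (ψ₂ m)).sb] at h2
    rw [h1] at h2
    rw [hβ, hE₂]
    exact h2
  obtain ⟨k, hk⟩ : ∃ k : ℝ, k = kf b (Δ * ex φ) (e j) (e j) := ⟨_, rfl⟩
  obtain ⟨r, hr⟩ : ∃ r : ℝ, r = kf b (ex (ψ₁ m) - ex (ψ₂ m)) (v₁ m) (v₂ m) - k := ⟨_, rfl⟩
  have hkap : kap μ i Δ φ (e j) = k := by rw [hk, kap_kf hB]
  have hdiff : b (ψ₁ m) (v₁ m) (v₂ m) - b (ψ₂ m) (v₁ m) (v₂ m) = k + r := by
    rw [hr, kf_sub hB, kf_ex hB, kf_ex hB]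
    ring
  have hE1 : Ev a (b (ψ₁ m)) j - E₂ m = -(E₂ m / β m) * (k + r) := by
    have h1 : Ev a (b (ψ₁ m)) j = E₂ m * b (ψ₂ m) (v₁ m) (v₂ m) / β m := by
      rw [← hid, mul_div_assoc, div_self hβm, mul_one]
    rw [h1, ← hdiff]
    have h2 : β m = b (ψ₁ m) (v₁ m) (v₂ m) := by rw [hβ]
    rw [← h2]
    field_simp
    ring
  have hN : ‖Δ * ex φ‖ ≤ ‖Δ‖ * ‖ex φ‖ := norm_mul_le _ _
  have hkb : |k| ≤ ‖Δ‖ * (‖ex φ‖ * ‖e j‖ * ‖e j‖) := by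
    rw [hk]
    refine (kf_bd' hS hB _ _ _).trans ?_
    calc ‖Δ * ex φ‖ * ‖e j‖ * ‖e j‖ ≤ ‖Δ‖ * ‖ex φ‖ * ‖e j‖ * ‖e j‖ := by gcongr
      _ = _ := by ring
  have hrb : |r| ≤ ‖Δ‖ * (8 * ρ m * ‖ex φ‖ * ‖v₁ m‖ * ‖v₂ m‖ +
      (‖ex φ‖ * ‖v₁ m - e j‖ * ‖v₂ m‖ + ‖ex φ‖ * ‖e j‖ * ‖v₂ m - e j‖)) := by
    have e1 : r = kf b (ex (ψ₁ m) - ex (ψ₂ m) - Δ * ex φ) (v₁ m) (v₂ m) +
        (kf b (Δ * ex φ) (v₁ m - e j) (v₂ m) + kf b (Δ * ex φ) (e j) (v₂ m - e j)) := by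
      rw [hr, hk, kf_sub hB (ex (ψ₁ m) - ex (ψ₂ m))]
      simp only [map_sub, _root_.sub_apply]
      ring
    have q1 : |kf b (ex (ψ₁ m) - ex (ψ₂ m) - Δ * ex φ) (v₁ m) (v₂ m)| ≤
        ‖Δ‖ * (8 * ρ m * ‖ex φ‖ * ‖v₁ m‖ * ‖v₂ m‖) := by
      have hρ0 : 0 ≤ ρ m := (norm_nonneg _).trans hρ1
      refine (kf_bd hS hB (c := 8 * ρ m * ‖ex φ‖ * ‖Δ‖) (by positivity) (fun x => ?_) _ _).trans
        (le_of_eq (by ring))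
      rw [hΔ]
      exact exp_unif hρ1 hρ2 hρm.le x
    have q2 : |kf b (Δ * ex φ) (v₁ m - e j) (v₂ m)| ≤ ‖Δ‖ * (‖ex φ‖ * ‖v₁ m - e j‖ * ‖v₂ m‖) := by
      refine (kf_bd' hS hB _ _ _).trans ?_
      calc ‖Δ * ex φ‖ * ‖v₁ m - e j‖ * ‖v₂ m‖ ≤ ‖Δ‖ * ‖ex φ‖ * ‖v₁ m - e j‖ * ‖v₂ m‖ := by gcongr
        _ = _ := by ring
    have q3 : |kf b (Δ * ex φ) (e j) (v₂ m - e j)| ≤ ‖Δ‖ * (‖ex φ‖ * ‖e j‖ * ‖v₂ m - e j‖) := by
      refine (kf_bd' hS hB _ _ _).trans ?_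
      calc ‖Δ * ex φ‖ * ‖e j‖ * ‖v₂ m - e j‖ ≤ ‖Δ‖ * ‖ex φ‖ * ‖e j‖ * ‖v₂ m - e j‖ := by gcongr
        _ = _ := by ring
    rw [e1]
    refine (abs_add_le _ _).trans ?_
    have q4 := abs_add_le (kf b (Δ * ex φ) (v₁ m - e j) (v₂ m)) (kf b (Δ * ex φ) (e j) (v₂ m - e j))
    rw [mul_add, mul_add]
    linarith
  have hE2' : Ev a (b (ψ₂ m)) j = E₂ m := by rw [hE₂]
  rw [hE2', hkap, hE1]
  have e1 : -(E₂ m / β m) * (k + r) + E j * k = (E j - E₂ m / β m) * k - E₂ m / β m * r := by ring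
  rw [e1]
  calc |(E j - E₂ m / β m) * k - E₂ m / β m * r| ≤ |(E j - E₂ m / β m) * k| +
        |E₂ m / β m * r| := abs_sub _ _
    _ = |E j - E₂ m / β m| * |k| + |E₂ m / β m| * |r| := by rw [abs_mul, abs_mul]
    _ ≤ |E j - E₂ m / β m| * (‖Δ‖ * (‖ex φ‖ * ‖e j‖ * ‖e j‖)) + |E₂ m / β m| *
        (‖Δ‖ * (8 * ρ m * ‖ex φ‖ * ‖v₁ m‖ * ‖v₂ m‖ +
      (‖ex φ‖ * ‖v₁ m - e j‖ * ‖v₂ m‖ + ‖ex φ‖ * ‖e j‖ * ‖v₂ m - e j‖))) :=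
        add_le_add (mul_le_mul_of_nonneg_left hkb (abs_nonneg _))
          (mul_le_mul_of_nonneg_left hrb (abs_nonneg _))
    _ = c m * ‖Δ‖ := by rw [hc]; ring
    _ ≤ ε * ‖Δ‖ := mul_le_mul_of_nonneg_right hcm.le (norm_nonneg _)

/-- a criterion for strict differentiability -/
lemma strict_of_seq {F : Type} [NormedAddCommGroup F] [NormedSpace ℝ F] {f : F → ℝ}
    {L : F →L[ℝ] ℝ} {x : F} (h : ∀ (x₁ x₂ : ℕ → F), Tendsto x₁ atTop (𝓝 x) →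
      Tendsto x₂ atTop (𝓝 x) → ∀ ε : ℝ, 0 < ε →
      ∀ᶠ m in atTop, |f (x₁ m) - f (x₂ m) - L (x₁ m - x₂ m)| ≤ ε * ‖x₁ m - x₂ m‖) :
    HasStrictFDerivAt f L x := by
  rw [hasStrictFDerivAt_iff_isLittleO, Asymptotics.isLittleO_iff]
  intro ε hε
  by_contra hcon
  have h1 : ∃ᶠ p : F × F in 𝓝 (x, x), ¬ ‖f p.1 - f p.2 - L (p.1 - p.2)‖ ≤ ε * ‖p.1 - p.2‖ :=
    Filter.not_eventually.1 hcon
  obtain ⟨ns, hns, hbad⟩ := exists_seq_forall_of_frequently h1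
  have h2 := h (fun m => (ns m).1) (fun m => (ns m).2)
    ((continuous_fst.tendsto (x, x)).comp hns) ((continuous_snd.tendsto (x, x)).comp hns) ε hε
  obtain ⟨m, hm⟩ := h2.exists
  exact hbad m hm

theorem strict_ev [CompleteSpace H] (hS : Sf μ i a) (hB : IsB μ i b) {φ : C(M, ℝ)} {e : ℕ → H}
    {E : ℕ → ℝ} (hE : Eg a (b φ) e E) {j : ℕ} (hj : j ≠ 0) (hs : Sim a b φ j)
    {L : C(M, ℝ) →L[ℝ] ℝ} (hL : ∀ f, L f = pw μ i φ f e j) :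
    HasStrictFDerivAt (fun ψ => Ev a (b ψ) j) (-(E j) • L) φ := by
  refine strict_of_seq fun x₁ x₂ t1 t2 ε hε => ?_
  filter_upwards [strict_seq hS hB hE hs t1 t2 hε] with m hm
  have e1 : (-(E j) • L) (x₁ m - x₂ m) = -(E j * kap μ i (x₁ m - x₂ m) φ (e j)) := by
    rw [_root_.smul_apply, hL, smul_eq_mul]
    unfold pw
    rw [if_neg hj]
    ring
  rw [e1, sub_neg_eq_add]
  exact hm

theorem strict_area {φ : C(M, ℝ)} {e : ℕ → H}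
    {L : C(M, ℝ) →L[ℝ] ℝ} (hL : ∀ f, L f = pw μ i φ f e 0) :
    HasStrictFDerivAt (fun ψ : C(M, ℝ) => ∫ x, Real.exp (ψ x) ∂μ) L φ := by
  refine strict_of_seq fun x₁ x₂ t1 t2 ε hε => ?_
  obtain ⟨ρ, hρ⟩ : ∃ ρ : ℕ → ℝ, ρ = fun m => ‖x₁ m - φ‖ + ‖x₂ m - φ‖ := ⟨_, rfl⟩
  have hρt : Tendsto ρ atTop (𝓝 0) := by
    rw [hρ]
    have := (tendsto_iff_norm_sub_tendsto_zero.1 t1).add (tendsto_iff_norm_sub_tendsto_zero.1 t2)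
    rwa [add_zero] at this
  have hct : Tendsto (fun m => μ.real univ * (8 * ρ m * ‖ex φ‖)) atTop (𝓝 0) := by
    have := ((hρt.const_mul 8).mul_const ‖ex φ‖).const_mul (μ.real univ)
    simpa using this
  filter_upwards [hct.eventually (eventually_lt_nhds hε),
    hρt.eventually (eventually_lt_nhds (show (0 : ℝ) < 1 / 2 by norm_num))] with m hcm hρm
  have hρ1 : ‖x₁ m - φ‖ ≤ ρ m := by
    rw [hρ]; simp only; linarith [norm_nonneg (x₂ m - φ)]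
  have hρ2 : ‖x₂ m - φ‖ ≤ ρ m := by
    rw [hρ]; simp only; linarith [norm_nonneg (x₁ m - φ)]
  have e1 : (∫ x, Real.exp (x₁ m x) ∂μ) - (∫ x, Real.exp (x₂ m x) ∂μ) - L (x₁ m - x₂ m) =
      ∫ x, (ex (x₁ m) - ex (x₂ m) - (x₁ m - x₂ m) * ex φ) x ∂μ := by
    have i1 := RSP.exp_int (μ := μ) (x₁ m)
    have i2 := RSP.exp_int (μ := μ) (x₂ m)
    have i3 := RSP.cint μ (x₁ m - x₂ m) (RSP.exp_int (μ := μ) φ)
    have i12 : Integrable (fun x => Real.exp (x₁ m x) - Real.exp (x₂ m x)) μ := i1.sub i2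
    rw [hL]
    unfold pw
    rw [if_pos rfl, ← integral_sub i1 i2, ← integral_sub i12 i3]
    rfl
  rw [e1, ← Real.norm_eq_abs]
  refine (norm_integral_le_of_norm_le_const (C := 8 * ρ m * ‖ex φ‖ * ‖x₁ m - x₂ m‖)
    (Eventually.of_forall fun x => exp_unif hρ1 hρ2 hρm.le x)).trans ?_
  calc 8 * ρ m * ‖ex φ‖ * ‖x₁ m - x₂ m‖ * μ.real univ =
        μ.real univ * (8 * ρ m * ‖ex φ‖) * ‖x₁ m - x₂ m‖ := by ring
    _ ≤ ε * ‖x₁ m - x₂ m‖ := mul_le_mul_of_nonneg_right hcm.le (norm_nonneg _)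

end Pool.Agent.Q233.GLV
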